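import Pool.Agent.P.MP_c5202f_co.Game

/-! Exchanging rows and columns. -/

namespace Pool.Agent.P.MP_c5202f_co

def sw (F : Finset C) : Finset C := F.map (Equiv.prodComm ℤ ℤ).toEmbedding

theorem mem_sw {F : Finset C} {u : C} : u ∈ sw F ↔ u.swap ∈ F := by
  simp [sw, Finset.mem_map_equiv]

theorem sw_sw (F : Finset C) : sw (sw F) = F := by ext u; simp [mem_sw]

theorem sw_sdiff (F d : Finset C) : sw (F \ d) = sw F \ sw d := by ext u; simp [mem_sw]

theorem Legal.sw {F d : Finset C} (h : Legal F d) : Legal (sw F) (sw d) := by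
  refine ⟨fun u hu => mem_sw.2 (h.1 (mem_sw.1 hu)), ?_⟩
  obtain ⟨x, y, rfl | rfl⟩ := h.2
  · exact ⟨y, x, Or.inr (by simp [MP_c5202f_co.sw])⟩
  · exact ⟨y, x, Or.inl (by simp [MP_c5202f_co.sw])⟩

theorem sw_dis {s t : Finset C} (h : Disjoint s t) : Disjoint (sw s) (sw t) :=
  Finset.disjoint_left.2 fun _ a c => dis h _ (mem_sw.1 a) (mem_sw.1 c)

theorem Paired.sw {w : ℕ} {F : Finset C} (h : Paired w F) : Paired w (sw F) := by
  obtain ⟨W, r, S, w1, w2, hS, cl⟩ := h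
  refine ⟨MP_c5202f_co.sw W, fun d => MP_c5202f_co.sw (r (MP_c5202f_co.sw d)),
    {P | MP_c5202f_co.sw P ∈ S}, ?_, ?_, by simpa [sw_sw] using hS, fun P hP d hd => ?_⟩
  · rwa [show (MP_c5202f_co.sw W).image Prod.fst = W.image Prod.snd by ext; simp [mem_sw]]
  · rwa [show (MP_c5202f_co.sw W).image Prod.snd = W.image Prod.fst by ext; simp [mem_sw]]
  · obtain ⟨s, h1, h2, h3⟩ := cl _ hP _ hd.sw
    refine ⟨MP_c5202f_co.sw s, by simpa [sw_sdiff, sw_sw] using h1.sw,
      by simpa [sw_sdiff, sw_sw] using h2, fun k => ?_⟩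
    obtain ⟨rfl, k'⟩ := h3 (by simpa [sw_sw] using sw_dis k)
    exact ⟨rfl, sw_dis k'⟩

theorem Force.sw {w k : ℕ} : ∀ {F : Finset C}, Force w k F → Force w k (sw F) := by
  induction k with
  | zero => exact fun h => Paired.sw h
  | succ k ih =>
    refine fun h => h.imp Paired.sw fun h d hd => ?_
    obtain ⟨s, h1, h2⟩ := h (MP_c5202f_co.sw d) (by simpa [sw_sw] using hd.sw)
    exact ⟨MP_c5202f_co.sw s, by simpa [sw_sdiff, sw_sw] using h1.sw,
      by simpa [sw_sdiff, sw_sw] using ih h2⟩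

theorem sw_board (a b : ℕ) : sw (board a b) = board b a := by
  ext u; simp only [mem_sw, mem_board, Prod.fst_swap, Prod.snd_swap]; omega

theorem all (k w a b : ℕ) (ha : 1 ≤ a) (hb : 1 ≤ b)
    (h : 4000 * (k + 1) ^ 2 * (w + 1) ^ 2 ≤ max a b) :
    ¬ Force w k (board a b) ∧ ∀ s, Legal (board a b) s → ¬ Force w k (board a b \ s) := by
  rcases le_max_iff.1 h with h | h
  · exact long k w a b hb h
  · obtain ⟨h1, h2⟩ := long k w b a ha h
    exact ⟨fun m => h1 (sw_board a b ▸ m.sw), fun s hs m => h2 (sw s) (sw_board a b ▸ hs.sw)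
      (by simpa [sw_sdiff, sw_board] using m.sw)⟩

end Pool.Agent.P.MP_c5202f_co
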