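import Mathlib

/-! Cram positions and reply strategies. -/

namespace Pool.Agent.P.MP_c5202f_co

/-- The `(2a+1) × (2b+1)` board: the integer points with `|x| ≤ a` and `|y| ≤ b`. -/
noncomputable def board (a b : ℕ) : Finset (ℤ × ℤ) := Finset.Icc (-(a : ℤ)) a ×ˢ Finset.Icc (-(b : ℤ)) b

/-- `d` is a domino on two empty squares, `F` being the set of empty squares. -/
def Legal (F d : Finset (ℤ × ℤ)) : Prop :=
  d ⊆ F ∧ ∃ x y : ℤ, d = {(x, y), (x + 1, y)} ∨ d = {(x, y), (x, y + 1)}

/-- The player who is not to move at `F` always has a reply, and answers every move `d` outside a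
window `W` that meets at most `w` columns and `w` rows by the move `r d`, again outside `W`. -/
def Paired (w : ℕ) (F : Finset (ℤ × ℤ)) : Prop :=
  ∃ (W : Finset (ℤ × ℤ)) (r : Finset (ℤ × ℤ) → Finset (ℤ × ℤ)) (S : Set (Finset (ℤ × ℤ))),
    (W.image Prod.fst).card ≤ w ∧ (W.image Prod.snd).card ≤ w ∧ F ∈ S ∧
    ∀ P ∈ S, ∀ d, Legal P d → ∃ s, Legal (P \ d) s ∧ (P \ d) \ s ∈ S ∧
      (Disjoint d W → s = r d ∧ Disjoint s W)

/-- The player who is not to move at `F` can force a paired position within `k` rounds. -/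
def Force (w : ℕ) : ℕ → Finset (ℤ × ℤ) → Prop
  | 0, F => Paired w F
  | k + 1, F => Paired w F ∨ ∀ d, Legal F d → ∃ s, Legal (F \ d) s ∧ Force w k ((F \ d) \ s)

end Pool.Agent.P.MP_c5202f_co
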