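import Pool.Agent.P.MP_c5202f_co.Star

/-! An unmatched square can be driven away from the centre row. -/

namespace Pool.Agent.P.MP_c5202f_co

def sg (ε x y : ℤ) : C := (ε * x, ε * y)

def Pm (ε : ℤ) : Prop := ε = 1 ∨ ε = -1

theorem Pm.neg {ε : ℤ} (h : Pm ε) : Pm (-ε) := by unfold Pm at *; omega

/-- a family of second-player wins in which the replies in two rows are mirror images -/
structure Fam (S : Set (Finset C)) (xl xr Y : ℤ) : Prop where
  pos : 0 < Y
  cl : ∀ P ∈ S, ∀ d, Legal P d → ∃ s, Legal (P \ d) s ∧ (P \ d) \ s ∈ S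
  tm : ∀ P ∈ S, ∀ ε x y x' y', Pm ε → Adj (x, y) (x', y') → xl ≤ x → x ≤ xr → Y ≤ y → y ≤ Y + 1 →
    xl ≤ x' → x' ≤ xr → Y ≤ y' → y' ≤ Y + 1 → sg ε x y ∈ P → sg ε x' y' ∈ P → sg (-ε) x y ∈ P

structure Runner (P : Finset C) (xl xr Y ε x y : ℤ) : Prop where
  pm : Pm ε
  y0 : 0 ≤ y
  y1 : y ≤ Y
  l : xl ≤ x - (Y + 2 - y)
  r : x + (Y + 2 - y) ≤ xr
  mem : sg ε x y ∈ P
  nmem : sg (-ε) x y ∉ P ∨ (x = 0 ∧ y = 0)
  cone : ∀ δ x' y', Pm δ → y < y' → y' ≤ Y + 1 → x - (y' - y) ≤ x' → x' ≤ x + (y' - y) →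
    sg δ x' y' ∈ P

def In (Y vx vy : ℤ) (z : C) : Prop :=
  ∃ δ x y, Pm δ ∧ z = sg δ x y ∧ vy < y ∧ y ≤ Y + 1 ∧ vx - (y - vy) ≤ x ∧ x ≤ vx + (y - vy)

variable {S : Set (Finset C)} {xl xr Y : ℤ} {P : Finset C}

theorem Fam.hit (h : Fam S xl xr Y) (hP : P ∈ S) {vx vy : ℤ} (h0 : 0 ≤ vy)
    (hl : xl ≤ vx - (Y + 2 - vy)) (hr : vx + (Y + 2 - vy) ≤ xr)
    (ih : ∀ ε x y, vy < y → ¬ Runner P xl xr Y ε x y) {q : C} {δ x y : ℤ} (hδ : Pm δ)
    (ha : Adj (sg δ x y) q) (hp : sg δ x y ∉ P)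
    (hf : ∀ δ' x' y', Pm δ' → vy < y' → y' ≤ Y + 1 → vx - (y' - vy) - 1 ≤ x' →
      x' ≤ vx + (y' - vy) + 1 → sg δ' x' y' ∈ P ∨ sg δ' x' y' = sg δ x y ∨ sg δ' x' y' = q)
    (h1 : vy < y) (h2 : y ≤ Y + 1) (h3 : vx - (y - vy) ≤ x) (h4 : x ≤ vx + (y - vy))
    (hq : ∀ δ' x' y', Pm δ' → q = sg δ' x' y' → y < y' → y' ≤ Y + 1 → vx - (y' - vy) ≤ x' →
      x' ≤ vx + (y' - vy) → False) : False := by
  have other : ∀ x', vx - (y - vy) - 1 ≤ x' → x' ≤ vx + (y - vy) + 1 → sg (-δ) x' y ∈ P := by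
    intro x' a b
    rcases hf (-δ) x' y hδ.neg h1 h2 a b with k | k | k
    · exact k
    · exfalso
      rcases hδ with rfl | rfl <;> simp only [sg, Prod.ext_iff] at k <;> omega
    · exfalso
      subst k
      rcases hδ with rfl | rfl <;> simp only [sg, Adj] at ha <;> omega
  by_cases hy : y ≤ Y
  · refine ih (-δ) x y h1 ⟨hδ.neg, by omega, hy, by omega, by omega,
      other x (by omega) (by omega), Or.inl (by rwa [neg_neg]), fun δ' x' y' a b c d e => ?_⟩
    rcases hf δ' x' y' a (by omega) c (by omega) (by omega) with k | k | k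
    · exact k
    · exfalso
      rcases hδ with rfl | rfl <;> rcases a with rfl | rfl <;>
        simp only [sg, Prod.ext_iff] at k <;> omega
    · exact (hq δ' x' y' a k.symm b c (by omega) (by omega)).elim
  · have := h.tm P hP (-δ) x y (x + 1) y hδ.neg (by simp [Adj]) (by omega) (by omega) (by omega)
      (by omega) (by omega) (by omega) (by omega) (by omega) (other x (by omega) (by omega))
      (other (x + 1) (by omega) (by omega))
    rw [neg_neg] at this
    exact hp this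

theorem Fam.hit' (h : Fam S xl xr Y) (hP : P ∈ S) {vx vy : ℤ} (h0 : 0 ≤ vy)
    (hl : xl ≤ vx - (Y + 2 - vy)) (hr : vx + (Y + 2 - vy) ≤ xr)
    (ih : ∀ ε x y, vy < y → ¬ Runner P xl xr Y ε x y) {p q : C} (ha : Adj p q) (hp : p ∉ P)
    (hq : q ∉ P)
    (hf : ∀ δ' x' y', Pm δ' → vy < y' → y' ≤ Y + 1 → vx - (y' - vy) - 1 ≤ x' →
      x' ≤ vx + (y' - vy) + 1 → sg δ' x' y' ∈ P ∨ sg δ' x' y' = p ∨ sg δ' x' y' = q) :
    ¬ In Y vx vy p := by
  rintro ⟨δ, x, y, hδ, rfl, h1, h2, h3, h4⟩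
  refine h.hit hP h0 hl hr ih hδ ha hp hf h1 h2 h3 h4 ?_
  rintro δ' x' y' hδ' rfl k1 k2 k3 k4
  refine h.hit hP h0 hl hr ih hδ' ha.symm hq
    (fun a b c d e f g i => (hf a b c d e f g i).imp_right Or.symm) (by omega) k2 k3 k4 ?_
  intro δ'' x'' y'' hδ'' e m1 _ _ _
  rcases hδ with rfl | rfl <;> rcases hδ'' with rfl | rfl <;>
    simp only [sg, Prod.ext_iff] at e <;> omega

theorem Fam.run (h : Fam S xl xr Y) (n : ℕ) :
    ∀ P ∈ S, ∀ ε x y, Y - y ≤ n → ¬ Runner P xl xr Y ε x y := by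
  have top : ∀ P ∈ S, ∀ ε x, ¬ Runner P xl xr Y ε x Y := fun P hP ε x R => by
    have := h.pos
    have := R.l
    have := R.r
    have k := h.tm P hP ε x Y x (Y + 1) R.pm (by simp [Adj]) (by omega) (by omega) (by omega)
      (by omega) (by omega) (by omega) (by omega) (by omega) R.mem
      (R.cone ε x (Y + 1) R.pm (by omega) (by omega) (by omega) (by omega))
    rcases R.nmem with m | m
    · exact m k
    · omega
  induction n with
  | zero =>
    intro P hP ε x y hn R
    obtain rfl : y = Y := by have := R.y1; omega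
    exact top P hP ε x R
  | succ n ih =>
    intro P hP ε x y hn R
    rcases R.y1.eq_or_lt with rfl | hy
    · exact top P hP ε x R
    have hε := R.pm
    have y0 := R.y0
    have hl := R.l
    have hr := R.r
    have ad : Adj (sg ε x y) (sg ε x (y + 1)) := by
      rcases hε with rfl | rfl <;> simp [sg, Adj]
    obtain ⟨s, hs, hP'⟩ := h.cl P hP _ (legal_pair ad R.mem
      (R.cone ε x (y + 1) hε (by omega) (by omega) (by omega) (by omega)))
    have ih' : ∀ ε' x' y', y < y' → ¬ Runner ((P \ {sg ε x y, sg ε x (y + 1)}) \ s) xl xr Y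
        ε' x' y' := fun ε' x' y' k => ih _ hP' ε' x' y' (by push_cast at hn; omega)
    have free : ∀ δ x' y', Pm δ → y < y' → y' ≤ Y + 1 → x - (y' - y) ≤ x' → x' ≤ x + (y' - y) →
        sg δ x' y' ≠ sg ε x (y + 1) → sg δ x' y' ∉ s →
        sg δ x' y' ∈ (P \ {sg ε x y, sg ε x (y + 1)}) \ s := by
      intro δ x' y' a b c d e f g
      simp only [Finset.mem_sdiff, Finset.mem_insert, Finset.mem_singleton, not_or]
      refine ⟨⟨R.cone δ x' y' a b c d e, fun k => ?_, f⟩, g⟩
      rcases hε with rfl | rfl <;> rcases a with rfl | rfl <;>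
        simp only [sg, Prod.ext_iff] at k <;> omega
    have high : ∀ δ x' y', Pm δ → y + 1 < y' → sg δ x' y' ≠ sg ε x (y + 1) := by
      intro δ x' y' a b k
      rcases hε with rfl | rfl <;> rcases a with rfl | rfl <;>
        simp only [sg, Prod.ext_iff] at k <;> omega
    have miss : ∀ p ∈ s, ¬ In Y x (y + 1) p := by
      intro p hp
      obtain ⟨q, hpq, -, -, e⟩ := hs.at hp
      refine h.hit' hP' (by omega) (by omega) (by omega) (fun a b c d => ih' a b c (by omega)) hpq
        (fun k => (Finset.mem_sdiff.1 k).2 hp) (fun k => (Finset.mem_sdiff.1 k).2 (by simp [e])) ?_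
      intro δ x' y' a b c d e'
      by_cases k : sg δ x' y' ∈ s
      · rw [e] at k
        exact Or.inr (by simpa using k)
      · exact Or.inl (free δ x' y' a (by omega) c (by omega) (by omega) (high δ x' y' a b) k)
    by_cases ht : sg (-ε) x (y + 1) ∈ s
    · obtain ⟨z, hz, -, hzP, e⟩ := hs.at ht
      have cs : z = sg (-ε) x (y + 2) ∨ z = sg (-ε) x y ∨
          ∃ x', z = sg (-ε) x' (y + 1) ∧ (x' = x + 1 ∨ x' = x - 1) := by
        have : z = sg (-ε) x (y + 2) ∨ z = sg (-ε) x y ∨ z = sg (-ε) (x + 1) (y + 1) ∨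
            z = sg (-ε) (x - 1) (y + 1) := by
          rcases hε with rfl | rfl <;> simp only [sg, Adj, Prod.ext_iff] at hz ⊢ <;> omega
        rcases this with k | k | k | k
        exacts [Or.inl k, Or.inr (Or.inl k), Or.inr (Or.inr ⟨_, k, Or.inl rfl⟩),
          Or.inr (Or.inr ⟨_, k, Or.inr rfl⟩)]
      rcases cs with k | k | ⟨x', k, hx'⟩
      · exact miss z (by simp [e]) ⟨-ε, x, y + 2, hε.neg, k, by omega, by omega, by omega, by omega⟩
      · rw [k, Finset.mem_sdiff] at hzP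
        rcases R.nmem with m | ⟨rfl, rfl⟩
        · exact m hzP.1
        · exact hzP.2 (by simp [sg])
      · refine ih' ε x' (y + 1) (by omega) ⟨hε, by omega, by omega, by omega, by omega,
          free ε x' (y + 1) hε (by omega) (by omega) (by omega) (by omega) ?_ ?_,
          Or.inl fun m => (Finset.mem_sdiff.1 m).2 (by simp [e, k]), fun δ x'' y'' a b c d f =>
          free δ x'' y'' a (by omega) c (by omega) (by omega) (high δ x'' y'' a b) ?_⟩
        · intro m
          rcases hε with rfl | rfl <;> simp only [sg, Prod.ext_iff] at m <;> omega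
        · rw [e, k]
          rcases hε with rfl | rfl <;>
            simp only [sg, Prod.ext_iff, Finset.mem_insert, Finset.mem_singleton] <;> omega
        · rw [e, k]
          rcases hε with rfl | rfl <;> rcases a with rfl | rfl <;>
            simp only [sg, Prod.ext_iff, Finset.mem_insert, Finset.mem_singleton] <;> omega
    · refine ih' (-ε) x (y + 1) (by omega) ⟨hε.neg, by omega, by omega, by omega, by omega,
        free (-ε) x (y + 1) hε.neg (by omega) (by omega) (by omega) (by omega) ?_ ht,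
        Or.inl fun m => ?_, fun δ x'' y'' a b c d f =>
        free δ x'' y'' a (by omega) c (by omega) (by omega) (high δ x'' y'' a b) fun m =>
          miss _ m ⟨δ, x'', y'', a, rfl, b, c, d, f⟩⟩
      · intro m
        rcases hε with rfl | rfl <;> simp only [sg, Prod.ext_iff] at m <;> omega
      · rw [neg_neg] at m
        exact (Finset.mem_sdiff.1 (Finset.mem_sdiff.1 m).1).2 (by simp)

theorem Fam.start {X : ℤ} (h : Fam S (X - (Y + 3)) (X + (Y + 3)) Y) (hP : P ∈ S) {p q : C}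
    (ha : Adj p q) (hp : p ∉ P) (hq : q ∉ P)
    (hf : ∀ δ x y, Pm δ → 0 ≤ y → y ≤ Y + 1 → X - (Y + 3) ≤ x → x ≤ X + (Y + 3) →
      sg δ x y ∈ P ∨ sg δ x y = p ∨ sg δ x y = q) (hX : X = 0 ∨ q = (X, 1)) : False := by
  have pos := h.pos
  have no : ∀ ε x y, ¬ Runner P (X - (Y + 3)) (X + (Y + 3)) Y ε x y := fun ε x y =>
    h.run (Y - y).toNat P hP ε x y (by omega)
  have m1 : ¬ In Y X 0 p := h.hit' hP le_rfl (by omega) (by omega) (fun a b c _ => no a b c) ha
    hp hq fun δ x y a b c d e => hf δ x y a (by omega) c (by omega) (by omega)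
  have m2 : ¬ In Y X 0 q := h.hit' hP le_rfl (by omega) (by omega) (fun a b c _ => no a b c)
    ha.symm hq hp fun δ x y a b c d e =>
      (hf δ x y a (by omega) c (by omega) (by omega)).imp_right Or.symm
  rcases hX with rfl | rfl
  swap
  · exact m2 ⟨1, X, 1, Or.inl rfl, by simp [sg], by omega, by omega, by omega, by omega⟩
  have side : ∀ {p q : C}, Adj p q → q ∉ P → ¬ In Y 0 0 q → sg 1 0 0 = p →
      (∀ δ x y, Pm δ → 0 ≤ y → y ≤ Y + 1 → 0 - (Y + 3) ≤ x → x ≤ 0 + (Y + 3) →
        sg δ x y ∈ P ∨ sg δ x y = p ∨ sg δ x y = q) → False := by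
    intro p q ha hq m e hf
    subst e
    have cs : ∃ ε, Pm ε ∧ q = sg (-ε) 1 0 := by
      rcases ha.cases with rfl | rfl | rfl | rfl
      · exact ⟨-1, Or.inr rfl, by simp [sg]⟩
      · exact ⟨1, Or.inl rfl, by simp [sg]⟩
      · exact (m ⟨1, 0, 1, Or.inl rfl, by simp [sg], by omega, by omega, by omega, by omega⟩).elim
      · exact (m ⟨-1, 0, 1, Or.inr rfl, by simp [sg], by omega, by omega, by omega, by omega⟩).elim
    obtain ⟨ε, hε, rfl⟩ := cs
    refine no ε 1 0 ⟨hε, le_rfl, by omega, by omega, by omega, ?_, Or.inl hq,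
      fun δ x y a b c d e => ?_⟩
    · rcases hf ε 1 0 hε le_rfl (by omega) (by omega) (by omega) with k | k | k
      · exact k
      all_goals
        exfalso
        rcases hε with rfl | rfl <;> simp only [sg, Prod.ext_iff] at k <;> omega
    · rcases hf δ x y a (by omega) c (by omega) (by omega) with k | k | k
      · exact k
      all_goals
        exfalso
        rcases hε with rfl | rfl <;> rcases a with rfl | rfl <;>
          simp only [sg, Prod.ext_iff] at k <;> omega
  rcases hf 1 0 0 (Or.inl rfl) le_rfl (by omega) (by omega) (by omega) with k | k | k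
  · refine no 1 0 0 ⟨Or.inl rfl, le_rfl, by omega, by omega, by omega, k, Or.inr ⟨rfl, rfl⟩,
      fun δ x y a b c d e => ?_⟩
    rcases hf δ x y a (by omega) c (by omega) (by omega) with k | k | k
    · exact k
    · exact (m1 ⟨δ, x, y, a, k.symm, b, c, d, e⟩).elim
    · exact (m2 ⟨δ, x, y, a, k.symm, b, c, d, e⟩).elim
  · exact side ha hq m2 k hf
  · exact side ha.symm hp m1 k fun a b c d e f g i => (hf a b c d e f g i).imp_right Or.symm

end Pool.Agent.P.MP_c5202f_co
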