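import Pool.Agent.P.MP_c5202f_co.Geo
import Pool.Agent.P.MP_c5202f_co.Run

/-! No player can force a paired position in few rounds. -/

namespace Pool.Agent.P.MP_c5202f_co

theorem band (B : Finset ℤ) (c : ℤ) {M : ℕ} (h : B.card ≤ M) :
    ∃ i : ℕ, i ≤ M ∧ ∀ z ∈ B, z < c + 10 * i ∨ c + 10 * i + 9 < z := by
  by_contra hc
  have k : ∀ i : ℕ, ∃ z, i ≤ M → z ∈ B ∧ c + 10 * i ≤ z ∧ z ≤ c + 10 * i + 9 := fun i => by
    by_contra h'
    push Not at h'
    refine hc ⟨i, (h' 0).1, fun z hz => ?_⟩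
    have := (h' z).2 hz
    omega
  choose f hf using k
  have := Finset.card_le_card_of_injOn (s := Finset.range (M + 1)) (t := B) f
    (fun i hi => (hf i (by simpa [Nat.lt_succ_iff] using hi)).1) fun i hi j hj e => by
      have h1 := hf i (by simpa [Nat.lt_succ_iff] using hi)
      have h2 := hf j (by simpa [Nat.lt_succ_iff] using hj)
      omega
  simp only [Finset.card_range] at this
  omega

/-- the columns at distance at most `H` from `X` or `-X` hold at most one domino -/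
def Wit (a b : ℕ) (H X : ℤ) (F : Finset C) : Prop :=
  ∃ p q, Adj p q ∧ p ∉ F ∧ q ∉ F ∧ (X = 0 ∨ q = (X, 1)) ∧ ∀ u ∈ board a b,
    (X - H ≤ u.1 ∧ u.1 ≤ X + H) ∨ (-X - H ≤ u.1 ∧ u.1 ≤ -X + H) → u ∈ F ∨ u = p ∨ u = q

theorem card_two (B : Finset ℤ) (x y : ℤ) {w : ℕ} (h : B.card ≤ w) :
    (insert x (insert y B)).card ≤ w + 2 :=
  (Finset.card_insert_le _ _).trans (by have := Finset.card_insert_le y B; omega)

theorem not_paired {w a b N : ℕ} {X : ℤ} {F : Finset C} (hF : F ⊆ board a b)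
    (hN : (board a b \ F).card ≤ N) (ha : -(a : ℤ) < X - (10 * w + 34) ∧ X + (10 * w + 34) < a)
    (hb : 10 * (N + w) + 40 ≤ b) (hW : Wit a b (10 * w + 34) X F) : ¬ Paired w F := by
  rintro ⟨W, r, S, w1, w2, hS, cl⟩
  obtain ⟨p, q, hpq, hp, hq, hX, free⟩ := hW
  have leg : ∀ {P d : Finset C}, Legal (P \ W) d → Legal P d ∧ Disjoint d W := fun h =>
    ⟨⟨h.1.trans Finset.sdiff_subset, h.2⟩, (Finset.subset_sdiff.1 h.1).2⟩
  have rep : Rep (F \ W) r := by
    constructor
    · intro d hd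
      obtain ⟨s, hs, -, e⟩ := cl F hS d (leg hd).1
      obtain ⟨rfl, e⟩ := e (leg hd).2
      have := Finset.subset_sdiff.1 hs.1
      exact ⟨⟨Finset.subset_sdiff.2 ⟨this.1, e⟩, hs.2⟩, this.2.symm⟩
    · intro e d he hd h1 h2
      obtain ⟨s, -, hP, k⟩ := cl F hS e (leg he).1
      obtain ⟨rfl, -⟩ := k (leg he).2
      obtain ⟨s, hs, -, k⟩ := cl _ hP d ⟨Finset.subset_sdiff.2
        ⟨Finset.subset_sdiff.2 ⟨(leg hd).1.1, h1⟩, h2⟩, hd.2⟩
      obtain ⟨rfl, -⟩ := k (leg hd).2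
      have := Finset.subset_sdiff.1 (Finset.subset_sdiff.1 hs.1).1
      exact ⟨(Finset.subset_sdiff.1 this.1).2, this.2⟩
  have hF' : F \ W ⊆ board a b := Finset.sdiff_subset.trans hF
  obtain ⟨σ, inv, pr⟩ := rep.exists_inv
  obtain ⟨i, hi, bi⟩ := band ((board a b \ F).image Prod.snd ∪ W.image Prod.snd) 0 (M := N + w)
    ((Finset.card_union_le _ _).trans (add_le_add (Finset.card_image_le.trans hN) w2))
  obtain ⟨j, hj, bj⟩ := band _ (X - 4) (card_two _ p.1 q.1 w1)
  obtain ⟨l, hl, bl⟩ := band _ 2 (card_two _ p.2 q.2 w2)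
  have gi : ∀ x y : ℤ, -(a : ℤ) + 1 ≤ x → x ≤ a - 1 → 10 * i + 3 ≤ y → y ≤ 10 * i + 5 →
      Good (F \ W) r (x, y) := by
    intro x y h1 h2 h3 h4
    refine rep.good hF' (by omega) (by omega) fun u hu _ _ k1 k2 => Finset.mem_sdiff.2 ⟨?_, ?_⟩
    · by_contra k
      have := bi u.2 (Finset.mem_union_left _
        (Finset.mem_image_of_mem _ (Finset.mem_sdiff.2 ⟨hu, k⟩)))
      omega
    · intro k
      have := bi u.2 (Finset.mem_union_right _ (Finset.mem_image_of_mem _ k))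
      omega
  have gj : ∀ x y : ℤ, -(b : ℤ) + 1 ≤ y → y ≤ b - 1 → X + 10 * j - 1 ≤ x → x ≤ X + 10 * j + 2 →
      Good (F \ W) r (x, y) := by
    intro x y h1 h2 h3 h4
    refine rep.good hF' (by omega) (by omega) fun u hu k1 k2 _ _ => Finset.mem_sdiff.2 ⟨?_, ?_⟩
    · rcases free u hu (Or.inl (by omega)) with k | rfl | rfl
      · exact k
      · have := bj u.1 (by simp); omega
      · have := bj u.1 (by simp); omega
    · intro k
      have := bj u.1 (Finset.mem_insert_of_mem (Finset.mem_insert_of_mem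
        (Finset.mem_image_of_mem _ k)))
      omega
  have gl : ∀ x y : ℤ, X - (10 * w + 31) ≤ x → x ≤ X + (10 * w + 31) → 10 * l + 5 ≤ y →
      y ≤ 10 * l + 8 → Good (F \ W) r (x, y) := by
    intro x y h1 h2 h3 h4
    refine rep.good hF' (by omega) (by omega) fun u hu m1 m2 k1 k2 => Finset.mem_sdiff.2 ⟨?_, ?_⟩
    · rcases free u hu (Or.inl (by omega)) with k | rfl | rfl
      · exact k
      · have := bl u.2 (by simp); omega
      · have := bl u.2 (by simp); omega
    · intro k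
      have := bl u.2 (Finset.mem_insert_of_mem (Finset.mem_insert_of_mem
        (Finset.mem_image_of_mem _ k)))
      omega
  have c0 := inv.cross (a := a) (b := b) (x0 := X + 10 * j) (y0 := 10 * i + 4)
    (fun v hv => hv.bound hF') (by omega) (by omega)
    (fun x y h1 h2 h3 h4 => gi x y h1 h2 (by omega) (by omega))
    fun x y h1 h2 h3 h4 => gj x y h1 h2 (by omega) (by omega)
  have c1 := inv.cross (a := a) (b := b) (x0 := X + 10 * j + 1) (y0 := 10 * i + 4)
    (fun v hv => hv.bound hF') (by omega) (by omega)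
    (fun x y h1 h2 h3 h4 => gi x y h1 h2 (by omega) (by omega))
    fun x y h1 h2 h3 h4 => gj x y h1 h2 (by omega) (by omega)
  have zone : ∀ x y : ℤ, X - (10 * w + 31) ≤ x → x ≤ X + (10 * w + 31) → 10 * l + 6 ≤ y →
      y ≤ 10 * l + 7 → σ (x, y) = (-x, -y) := fun x y h1 h2 h3 h4 =>
    inv.line (x0 := X + 10 * j) (fun x y' k1 k2 k3 k4 => gl x y' k1 k2 (by omega) (by omega))
      (by omega) (by omega) (c0 y (by omega) (by omega)) (c1 y (by omega) (by omega)) x h1 h2
  have zone' : ∀ ε x y : ℤ, Pm ε → X - (10 * w + 31) ≤ x → x ≤ X + (10 * w + 31) →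
      10 * l + 6 ≤ y → y ≤ 10 * l + 7 →
      Good (F \ W) r (sg ε x y) ∧ σ (sg ε x y) = sg (-ε) x y := by
    intro ε x y hε h1 h2 h3 h4
    have g := gl x y h1 h2 (by omega) (by omega)
    have z := zone x y h1 h2 h3 h4
    rcases hε with rfl | rfl
    · simpa [sg] using ⟨g, z⟩
    · have g' := inv.mem _ g
      have z' := inv.inv _ g
      rw [z] at g' z'
      simpa [sg] using ⟨g', z'⟩
  have fam : Fam S (X - (10 * l + 6 + 3)) (X + (10 * l + 6 + 3)) (10 * l + 6) := by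
    refine ⟨by omega, fun P hP d hd => (cl P hP d hd).imp fun s hs => ⟨hs.1, hs.2.1⟩, ?_⟩
    intro P hP ε x y x' y' hε had h1 h2 h3 h4 h5 h6 h7 h8 m1 m2
    obtain ⟨g1, z1⟩ := zone' ε x y hε (by omega) (by omega) (by omega) (by omega)
    obtain ⟨g2, z2⟩ := zone' ε x' y' hε (by omega) (by omega) (by omega) (by omega)
    have ad : Adj (sg ε x y) (sg ε x' y') := by
      rcases hε with rfl | rfl <;> simp only [sg, Adj] at had ⊢ <;> omega
    obtain ⟨s, hs, -, k⟩ := cl P hP _ (legal_pair ad m1 m2)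
    obtain ⟨rfl, -⟩ := k (by
      simp only [Finset.disjoint_insert_left, Finset.disjoint_singleton_left]
      exact ⟨(Finset.mem_sdiff.1 g1.1).2, (Finset.mem_sdiff.1 g2.1).2⟩)
    rw [pr _ _ g1 g2 ad, z1] at hs
    exact (Finset.mem_sdiff.1 (hs.1 (by simp))).1
  refine fam.start hS hpq hp hq (fun δ x y hδ h1 h2 h3 h4 => free _ (mem_board.2 ?_) ?_) hX
  · rcases hδ with rfl | rfl <;> simp only [sg] <;> omega
  · rcases hδ with rfl | rfl <;> simp only [sg] <;> omega

theorem strip_eq {H : ℤ} (hH : 0 ≤ H) {t t' : ℕ} {x x' : ℤ} (h : x - x' ≤ 1 ∧ x' - x ≤ 1)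
    (h1 : (-((2 * H + 2) * t) - H ≤ x ∧ x ≤ -((2 * H + 2) * t) + H) ∨
      (- -((2 * H + 2) * t) - H ≤ x ∧ x ≤ - -((2 * H + 2) * t) + H))
    (h2 : (-((2 * H + 2) * t') - H ≤ x' ∧ x' ≤ -((2 * H + 2) * t') + H) ∨
      (- -((2 * H + 2) * t') - H ≤ x' ∧ x' ≤ - -((2 * H + 2) * t') + H)) : t = t' := by
  have key : ∀ s s' : ℕ, s < s' → (2 * H + 2) * s + (2 * H + 2) ≤ (2 * H + 2) * s' := by
    intro s s' k
    have : (s : ℤ) + 1 ≤ s' := by exact_mod_cast k
    nlinarith
  have p1 : 0 ≤ (2 * H + 2) * (t : ℤ) := by positivity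
  have p2 : 0 ≤ (2 * H + 2) * (t' : ℤ) := by positivity
  rcases lt_trichotomy t t' with k | k | k
  · have := key _ _ k; omega
  · exact k
  · have := key _ _ k; omega

theorem Wit.step {a b : ℕ} {H X : ℤ} {F d : Finset C} (h : Wit a b H X F)
    (hd : ∀ u ∈ d, ¬ ((X - H ≤ u.1 ∧ u.1 ≤ X + H) ∨ (-X - H ≤ u.1 ∧ u.1 ≤ -X + H))) :
    Wit a b H X (F \ d) := by
  obtain ⟨p, q, hpq, hp, hq, hX, free⟩ := h
  exact ⟨p, q, hpq, fun k => hp (Finset.mem_sdiff.1 k).1, fun k => hq (Finset.mem_sdiff.1 k).1, hX,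
    fun u hu k => (free u hu k).imp_left fun m => Finset.mem_sdiff.2 ⟨m, fun m' => hd u m' k⟩⟩

theorem Legal.card_step {B F d : Finset C} (h : Legal F d) :
    (B \ (F \ d)).card ≤ (B \ F).card + 2 := by
  obtain ⟨u, v, -, -, -, rfl⟩ := legal_iff.1 h
  refine (Finset.card_le_card (t := (B \ F) ∪ {u, v}) fun z hz => ?_).trans
    ((Finset.card_union_le _ _).trans (by have := Finset.card_le_two (a := u) (b := v); omega))
  simp only [Finset.mem_sdiff, Finset.mem_union] at hz ⊢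
  tauto

theorem not_force {w a b N : ℕ} {H : ℤ} (hH : H = 10 * w + 34)
    (ha : (2 * H + 2) * (N + 1) + H < a) (hb : 10 * (N + w) + 40 ≤ b) (k : ℕ) :
    ∀ F : Finset C, F ⊆ board a b → (board a b \ F).card + 4 * k ≤ N →
      (∃ t : ℕ, t ≤ N + 1 ∧ Wit a b H (-((2 * H + 2) * t)) F) → ¬ Force w k F := by
  have H0 : 0 ≤ H := by omega
  have rng : ∀ t : ℕ, t ≤ N + 1 → 0 ≤ (2 * H + 2) * (t : ℤ) ∧ (2 * H + 2) * (t : ℤ) + H < a := by
    intro t ht
    have : (t : ℤ) ≤ N + 1 := by exact_mod_cast ht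
    exact ⟨by positivity, by nlinarith⟩
  have np : ∀ F : Finset C, F ⊆ board a b → (board a b \ F).card ≤ N →
      (∃ t : ℕ, t ≤ N + 1 ∧ Wit a b H (-((2 * H + 2) * t)) F) → ¬ Paired w F := by
    rintro F hF hN ⟨t, ht, hW⟩
    have := rng t ht
    exact not_paired (X := -((2 * H + 2) * t)) hF hN (by omega) hb (hH ▸ hW)
  induction k with
  | zero => exact fun F hF hN hW => np F hF (by omega) hW
  | succ k ih =>
    rintro F hF hN ⟨t, ht, hW⟩ (hP | hP)
    · exact np F hF (by omega) ⟨t, ht, hW⟩ hP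
    have fresh : ∃ t' : ℕ, 1 ≤ t' ∧ t' ≤ N + 1 ∧ ∀ u ∈ board a b,
        (-((2 * H + 2) * t') - H ≤ u.1 ∧ u.1 ≤ -((2 * H + 2) * t') + H) ∨
        (- -((2 * H + 2) * t') - H ≤ u.1 ∧ u.1 ≤ - -((2 * H + 2) * t') + H) → u ∈ F := by
      by_contra hc
      have k' : ∀ t' : ℕ, ∃ u : C, 1 ≤ t' → t' ≤ N + 1 → u ∈ board a b \ F ∧
          ((-((2 * H + 2) * t') - H ≤ u.1 ∧ u.1 ≤ -((2 * H + 2) * t') + H) ∨
          (- -((2 * H + 2) * t') - H ≤ u.1 ∧ u.1 ≤ - -((2 * H + 2) * t') + H)) := fun t' => by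
        by_contra h'
        refine hc ⟨t', ?_, ?_, fun u hu m => ?_⟩
        · by_contra m; exact h' ⟨(0, 0), fun m' => absurd m' m⟩
        · by_contra m; exact h' ⟨(0, 0), fun _ m' => absurd m' m⟩
        · by_contra m'; exact h' ⟨u, fun _ _ => ⟨Finset.mem_sdiff.2 ⟨hu, m'⟩, m⟩⟩
      choose f hf using k'
      have := Finset.card_le_card_of_injOn (s := Finset.Icc 1 (N + 1)) (t := board a b \ F) f
        (fun i hi => by
          have := Finset.mem_Icc.1 (Finset.mem_coe.1 hi)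
          exact (hf i this.1 this.2).1) fun i hi j hj e => by
          have m1 := Finset.mem_Icc.1 (Finset.mem_coe.1 hi)
          have m2 := Finset.mem_Icc.1 (Finset.mem_coe.1 hj)
          exact strip_eq H0 (by rw [e]; omega) (hf i m1.1 m1.2).2 (hf j m2.1 m2.2).2
      simp only [Nat.card_Icc] at this
      omega
    obtain ⟨t', t1, t2, free⟩ := fresh
    have r' := rng t' t2
    have b0 : ((-((2 * H + 2) * t'), 0) : C) ∈ board a b := mem_board.2 (by simp only; omega)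
    have b1 : ((-((2 * H + 2) * t'), 1) : C) ∈ board a b := mem_board.2 (by simp only; omega)
    have ad : Adj (-((2 * H + 2) * t'), 0) (-((2 * H + 2) * t'), 1) := by simp [Adj]
    have hd := legal_pair ad (free _ b0 (Or.inl (by simp only; omega)))
      (free _ b1 (Or.inl (by simp only; omega)))
    have ne : t ≠ t' := by
      rintro rfl
      obtain ⟨p, q, -, -, hq, hX, -⟩ := hW
      rcases hX with m | rfl
      · have : (1 : ℤ) ≤ t := by exact_mod_cast t1
        nlinarith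
      · exact hq (free _ b1 (Or.inl (by simp only; omega)))
    have w1 : Wit a b H (-((2 * H + 2) * t)) (F \ {(-((2 * H + 2) * t'), 0),
        (-((2 * H + 2) * t'), 1)}) := hW.step fun u hu m => by
      simp only [Finset.mem_insert, Finset.mem_singleton] at hu
      refine ne (strip_eq H0 (x' := -((2 * H + 2) * t')) ?_ m (Or.inl (by omega)))
      rcases hu with rfl | rfl <;> simp
    have w2 : Wit a b H (-((2 * H + 2) * t')) (F \ {(-((2 * H + 2) * t'), 0),
        (-((2 * H + 2) * t'), 1)}) := by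
      refine ⟨_, _, ad, by simp, by simp, Or.inr rfl, fun u hu m => ?_⟩
      have := free u hu m
      simp only [Finset.mem_sdiff, Finset.mem_insert, Finset.mem_singleton]
      tauto
    obtain ⟨s, hs, hf⟩ := hP _ hd
    have c1 := hd.card_step (B := board a b)
    have c2 := hs.card_step (B := board a b)
    refine ih _ (Finset.sdiff_subset.trans (Finset.sdiff_subset.trans hF)) (by omega) ?_ hf
    by_cases m : ∃ u ∈ s, (-((2 * H + 2) * t') - H ≤ u.1 ∧ u.1 ≤ -((2 * H + 2) * t') + H) ∨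
        (- -((2 * H + 2) * t') - H ≤ u.1 ∧ u.1 ≤ - -((2 * H + 2) * t') + H)
    · obtain ⟨u, hu, m⟩ := m
      refine ⟨t, ht, w1.step fun v hv m' => ne (strip_eq H0 ?_ m' m)⟩
      obtain ⟨c, hc, -, -, e⟩ := hs.at hu
      rw [e] at hv
      simp only [Finset.mem_insert, Finset.mem_singleton] at hv
      rcases hv with rfl | rfl
      · omega
      · simp only [Adj] at hc; omega
    · exact ⟨t', t2, w2.step fun u hu m' => m ⟨u, hu, m'⟩⟩

theorem main (k w a b : ℕ) (ha : 300 * (k + 1) * (w + 1) ≤ a) (hb : 300 * (k + 1) * (w + 1) ≤ b) :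
    ¬ Force w k (board a b) ∧ ∀ s, Legal (board a b) s → ¬ Force w k (board a b \ s) := by
  have h1 : (2 * (10 * (w : ℤ) + 34) + 2) * (((4 * k + 2 : ℕ) : ℤ) + 1) + (10 * w + 34) < a := by
    have : ((300 * (k + 1) * (w + 1) : ℕ) : ℤ) ≤ a := by exact_mod_cast ha
    push_cast at this ⊢
    have : (0 : ℤ) ≤ k * w := by positivity
    nlinarith
  have h2 : 10 * (4 * k + 2 + w) + 40 ≤ b := by nlinarith [Nat.zero_le (k * w)]
  have key := not_force rfl h1 h2 k
  refine ⟨key _ subset_rfl (by simp) ⟨0, by omega, ((a : ℤ) + 1, 0), ((a : ℤ) + 1, 1),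
    by simp [Adj], by simp [mem_board], by simp [mem_board], Or.inl (by simp),
    fun u hu _ => Or.inl hu⟩, fun s hs => key _ Finset.sdiff_subset ?_ ?_⟩
  · have := hs.card_step (B := board a b)
    simp only [sdiff_self, Finset.bot_eq_empty, Finset.card_empty] at this
    omega
  · obtain ⟨p, q, hpq, -, -, rfl⟩ := legal_iff.1 hs
    refine ⟨0, by omega, p, q, hpq, by simp, by simp, Or.inl (by simp), fun u hu _ => ?_⟩
    simp only [Finset.mem_sdiff, Finset.mem_insert, Finset.mem_singleton]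
    tauto

end Pool.Agent.P.MP_c5202f_co
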