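import Pool.Agent.P.MP_c5202f_co.Gaps
import Pool.Agent.P.MP_c5202f_co.Main

/-! Long boards of small height. -/

namespace Pool.Agent.P.MP_c5202f_co

variable {F : Finset C} {a b : ℕ} {L : ℤ}

/-- the columns that are not empty -/
def KK (F : Finset C) (b : ℕ) : ℤ → Prop := fun i => ¬ CF F b i

theorem KK.out (hF : F ⊆ board a b) {i : ℤ} (h : i < -a ∨ a < i) : KK F b i := fun k => by
  have := mem_board.1 (hF (k 0 (by omega) (by omega)))
  simp only at this
  omega

theorem KK.sdiff (hF : F ⊆ board a b) {s : Finset C} (hs : s ⊆ F) (i : ℤ) :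
    KK (F \ s) b i ↔ KK F b i ∨ ∃ c ∈ s, c.1 = i := by
  constructor
  · intro k
    by_contra m
    rw [not_or] at m
    exact k fun y h1 h2 => Finset.mem_sdiff.2
      ⟨not_not.1 m.1 y h1 h2, fun n => m.2 ⟨_, n, rfl⟩⟩
  · rintro (k | ⟨c, hc, rfl⟩) m
    · exact k fun y h1 h2 => (Finset.mem_sdiff.1 (m y h1 h2)).1
    · have := mem_board.1 (hF (hs hc))
      exact (Finset.mem_sdiff.1 (m c.2 (by omega) (by omega))).2 hc

theorem move (hF : F ⊆ board a b) {s : Finset C} (hs : Legal F s) :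
    (∀ i, KK (F \ s) b i ↔ KK F b i) ∨ ∃ p q u u', Split (KK F b) (KK (F \ s) b) p q u u' ∧
      ((u' = u + 1 ∧ ∃ y, s = {(u, y), (u + 1, y)}) ∨ (u' = u ∧ ((∃ y, s = {(u, y), (u, y + 1)}) ∨
        ∃ i, -(a : ℤ) ≤ i ∧ i ≤ a ∧ KK F b i))) := by
  have e := KK.sdiff hF hs.1
  have gp : ∀ c ∈ s, ¬ KK F b c.1 → ∃ p q, Gap (KK F b) p q ∧ p < c.1 ∧ c.1 < q := by
    intro c hc n
    have := mem_board.1 (hF (hs.1 hc))
    exact exists_gap (KK.out hF (i := -a - 1) (by omega)) (KK.out hF (i := a + 1) (by omega))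
      (by omega) (by omega) n
  have one : ∀ c ∈ s, (∀ i, KK (F \ s) b i ↔ KK F b i ∨ i = c.1) →
      (∀ i, KK (F \ s) b i ↔ KK F b i) ∨ ∃ p q, Split (KK F b) (KK (F \ s) b) p q c.1 c.1 := by
    intro c hc k
    by_cases n : KK F b c.1
    · exact Or.inl fun i => (k i).trans ⟨fun m => m.elim id fun m => m ▸ n, Or.inl⟩
    · obtain ⟨p, q, g, h1, h2⟩ := gp c hc n
      exact Or.inr ⟨p, q, g, h1, le_rfl, by omega, h2, by simpa using k⟩
  obtain ⟨x, y, rfl | rfl⟩ := hs.2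
  · have e' : ∀ i, KK (F \ {(x, y), (x + 1, y)}) b i ↔ KK F b i ∨ i = x ∨ i = x + 1 := fun i => by
      simpa [eq_comm] using e i
    have m1 := mem_board.1 (hF (hs.1 (Finset.mem_insert_self _ _)))
    have m2 := mem_board.1 (hF (hs.1 (Finset.mem_insert_of_mem (Finset.mem_singleton_self _))))
    simp only at m1 m2
    by_cases n1 : KK F b x
    · refine (one (x + 1, y) (by simp) fun i => (e' i).trans ?_).imp_right fun ⟨p, q, k⟩ =>
        ⟨p, q, _, _, k, Or.inr ⟨rfl, Or.inr ⟨x, by omega, by omega, n1⟩⟩⟩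
      exact ⟨fun m => m.elim Or.inl fun m => m.elim (fun m => Or.inl (m ▸ n1)) Or.inr,
        fun m => m.imp_right Or.inr⟩
    by_cases n2 : KK F b (x + 1)
    · refine (one (x, y) (by simp) fun i => (e' i).trans ?_).imp_right fun ⟨p, q, k⟩ =>
        ⟨p, q, _, _, k, Or.inr ⟨rfl, Or.inr ⟨x + 1, by omega, by omega, n2⟩⟩⟩
      exact ⟨fun m => m.elim Or.inl fun m => m.elim Or.inr fun m => Or.inl (m ▸ n2),
        fun m => m.imp_right Or.inl⟩
    obtain ⟨p, q, g, h1, h2⟩ := gp (x, y) (by simp) n1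
    have : x + 1 ≠ q := fun k => n2 (k ▸ g.2.2.1)
    exact Or.inr ⟨p, q, x, x + 1, ⟨g, h1, by omega, le_rfl, by simp only at h2; omega, e'⟩,
      Or.inl ⟨rfl, y, rfl⟩⟩
  · exact (one (x, y) (by simp) fun i => by simpa [eq_comm] using e i).imp_right
      fun ⟨p, q, k⟩ => ⟨p, q, _, _, k, Or.inr ⟨rfl, Or.inl ⟨y, rfl⟩⟩⟩

/-- the middle column holds one vertical domino, the other columns at most one covered square -/
def Cen (F : Finset C) (a b : ℕ) (L : ℤ) : Prop :=
  ∃ y0 : ℤ, -(b : ℤ) ≤ y0 ∧ y0 + 1 ≤ b ∧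
    (∀ y : ℤ, -(b : ℤ) ≤ y → y ≤ b → ((0, y) ∈ F ↔ y ≠ y0 ∧ y ≠ y0 + 1)) ∧
    (∀ x y y', x ≠ 0 → (x, y) ∈ board a b → (x, y') ∈ board a b → (x, y) ∉ F → (x, y') ∉ F →
      y = y') ∧ ∀ i, -L < i → i < 0 → CF F b i

theorem Cen.zero (h : Cen F a b L) : KK F b 0 := fun k => by
  obtain ⟨y0, h1, h2, h3, -⟩ := h
  exact ((h3 y0 h1 (by omega)).1 (k y0 h1 (by omega))).1 rfl

theorem Cen.step (h : Cen F a b L) {p q u y : ℤ} (g : Gap (KK F b) p q) (L1 : 1 ≤ L)
    (h1 : L ≤ u - p) (h2 : L ≤ q - (u + 1)) : Cen (F \ {(u, y), (u + 1, y)}) a b L := by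
  have z : ¬ (p < 0 ∧ 0 < q) := fun k => g.2.2.2 0 k.1 k.2 h.zero
  have c1 : CF F b u := not_not.1 (g.2.2.2 u (by omega) (by omega))
  have c2 : CF F b (u + 1) := not_not.1 (g.2.2.2 (u + 1) (by omega) (by omega))
  obtain ⟨y0, k1, k2, k3, k4, k5⟩ := h
  refine ⟨y0, k1, k2, fun y' a1 a2 => ?_, fun x y1 y2 n m1 m2 n1 n2 => ?_,
    fun i a1 a2 y' a3 a4 => ?_⟩
  · rw [← k3 y' a1 a2]
    simp only [Finset.mem_sdiff, Finset.mem_insert, Finset.mem_singleton, Prod.ext_iff]
    exact and_iff_left (by omega)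
  · have b1 := mem_board.1 m1
    have b2 := mem_board.1 m2
    simp only [Finset.mem_sdiff, Finset.mem_insert, Finset.mem_singleton, Prod.ext_iff, not_and,
      not_not] at n1 n2 b1 b2
    by_cases k : x = u ∨ x = u + 1
    · have c : CF F b x := by rcases k with rfl | rfl <;> assumption
      have := n1 (c y1 (by omega) (by omega))
      have := n2 (c y2 (by omega) (by omega))
      omega
    · exact k4 x y1 y2 n m1 m2 (fun m => by have := n1 m; omega) fun m => by have := n2 m; omega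
  · simp only [Finset.mem_sdiff, Finset.mem_insert, Finset.mem_singleton, Prod.ext_iff]
    exact ⟨k5 i a1 a2 y' a3 a4, by omega⟩

theorem thin_np {w : ℕ} (hF : F ⊆ board a b) (b1 : 1 ≤ b) (hL : (2 * (b : ℤ) + 33) * (w + 1) < L)
    (h : Uq (KK F b) L ∨ Cen F a b L) : ¬ Paired w F := by
  intro hp
  have pt := fun x z => hp.partner (b := b) (x := x) (z := z) (by omega)
    fun u hu => (mem_board.1 (hF hu)).2.2
  rcases h with ⟨x, z, g, l, u⟩ | h
  · obtain ⟨x', z', g', e, n⟩ := (pt x z (by omega) g).1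
    exact n (u _ _ g' e)
  have z := h.zero
  obtain ⟨y0, k1, k2, k3, k4, k5⟩ := h
  have L2 : 2 ≤ L := by nlinarith
  obtain ⟨p, q, g, h1, h2⟩ := exists_gap (i := -1) (KK.out hF (i := -a - 2) (by omega)) z
    (by omega) (by omega) (not_not.2 (k5 _ (by omega) (by omega)))
  obtain rfl : q = 0 := by
    by_contra k
    exact g.2.2.2 0 (by omega) (by omega) z
  have : p ≤ -L := by
    by_contra k
    exact g.2.1 (k5 p (by omega) (by omega))
  obtain ⟨z', η, hη, k⟩ := (pt p 0 (by omega) g).2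
  obtain ⟨y1, m1, m2, m3⟩ : ∃ y1 : ℤ, -(b : ℤ) ≤ y1 ∧ y1 ≤ b ∧ y1 ≠ y0 ∧ y1 ≠ y0 + 1 := by
    by_cases m : y0 + 1 = b
    exacts [⟨-b, by omega⟩, ⟨b, by omega⟩]
  have f1 := (k3 y1 m1 m2).2 m3
  have f2 := mem_board.1 (hF ((k y1).1.1 f1))
  have f3 := ne_iff.1 ((k y1).2 f1)
  have n1 : (z', η * y0) ∉ F := fun m => ((k3 y0 k1 (by omega)).1 ((k y0).1.2 m)).1 rfl
  have n2 : (z', η * (y0 + 1)) ∉ F :=
    fun m => ((k3 (y0 + 1) (by omega) k2).1 ((k (y0 + 1)).1.2 m)).2 rfl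
  simp only at f2 f3
  by_cases e : z' = 0
  · subst e
    rcases hη with rfl | rfl
    · omega
    · rw [k3 _ (by omega) (by omega)] at n1 n2
      omega
  · have := k4 z' _ _ e (mem_board.2 (by rcases hη with rfl | rfl <;> simp only <;> omega))
      (mem_board.2 (by rcases hη with rfl | rfl <;> simp only <;> omega)) n1 n2
    rcases hη with rfl | rfl <;> omega

theorem fresh {N : ℕ} (hF : F ⊆ board a b) (hN : (board a b \ F).card ≤ N) (L2 : 2 ≤ L)
    (ha : (3 * (L + 3 * (N + 1)) + 2) * (N + 1) ≤ 2 * a + 1) {κ : ℤ} (hκ : κ = 0 ∨ κ = 1) :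
    ∃ x z v, Gap (KK F b) x z ∧ x < v ∧ v + κ < z ∧
      ∀ K1, Split (KK F b) K1 x z v (v + κ) → Gen (KK F b) K1 L x z v (v + κ) := by
  have col : ∀ i : ℤ, -(a : ℤ) ≤ i → i ≤ a → KK F b i → i ∈ (board a b \ F).image Prod.fst := by
    intro i h1 h2 k
    by_contra m
    exact k fun y h3 h4 => by_contra fun n => m (Finset.mem_image.2
      ⟨(i, y), Finset.mem_sdiff.2 ⟨mem_board.2 ⟨h1, h2, h3, h4⟩, n⟩, rfl⟩)
  have rng : ∀ p q, Gap (KK F b) p q → 2 ≤ q - p → -(a : ℤ) - 1 ≤ p ∧ q ≤ a + 1 := by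
    intro p q g h
    have h1 := mt (KK.out hF) (g.2.2.2 (p + 1) (by omega) (by omega))
    have h2 := mt (KK.out hF) (g.2.2.2 (q - 1) (by omega) (by omega))
    omega
  have hB := (Finset.card_image_le (s := board a b \ F) (f := Prod.fst)).trans hN
  generalize hM : 3 * (L + 3 * ((N : ℤ) + 1)) + 2 = M at ha
  obtain ⟨i, i0, i1, bi⟩ := bandM _ (-(a : ℤ)) (M := M) (by omega) hB
  have i2 : 0 ≤ M * i := mul_nonneg (by omega) i0
  have i3 : M * i + M ≤ M * (N + 1) := by nlinarith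
  generalize M * i = j at *
  generalize M * ((N : ℤ) + 1) = j' at *
  have free : ∀ t, -(a : ℤ) + j ≤ t → t < -a + j + M → ¬ KK F b t := fun t h1 h2 k => by
    have := bi t (col t (by omega) (by omega) k); omega
  obtain ⟨p0, q0, g0, h1, h2⟩ := exists_gap (KK.out hF (i := -a - 1) (by omega))
    (KK.out hF (i := a + 1) (by omega)) (by omega) (by omega) (free _ le_rfl (by omega))
  have h3 : -(a : ℤ) + j + M ≤ q0 := by
    by_contra k
    exact free q0 (by omega) (by omega) g0.2.2.1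
  obtain ⟨s, ⟨x, z, g, rfl⟩, mx⟩ := Int.exists_greatest_of_bdd
    (P := fun s => ∃ x z, Gap (KK F b) x z ∧ z - x = s)
    ⟨2 * a + 2, fun s ⟨x, z, g, e⟩ => by have := rng x z g; omega⟩ ⟨_, p0, q0, g0, rfl⟩
  have h4 := mx _ ⟨p0, q0, g0, rfl⟩
  have h0 : ∀ p, ∃ q, ∀ q', Gap (KK F b) p q' → q' = q := fun p => by
    by_cases k : ∃ q, Gap (KK F b) p q
    · obtain ⟨q, k⟩ := k
      exact ⟨q, fun q' k' => by have := k.eq_or k'; have := k.1; have := k'.1; omega⟩
    · exact ⟨0, fun q' k' => absurd ⟨q', k'⟩ k⟩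
  choose nx hnx using h0
  obtain ⟨E, hE, mE⟩ : ∃ E : Finset ℤ, E.card ≤ N + 1 ∧
      ∀ p q, Gap (KK F b) p q → 2 ≤ q - p → q - p ∈ E := by
    refine ⟨(insert (-(a : ℤ) - 1) ((board a b \ F).image Prod.fst)).image fun p => nx p - p,
      Finset.card_image_le.trans ((Finset.card_insert_le _ _).trans (by omega)), fun p q k m => ?_⟩
    refine Finset.mem_image.2 ⟨p, ?_, by rw [hnx p q k]⟩
    have := rng p q k m
    by_cases n : p = -a - 1
    · simp [n]
    · exact Finset.mem_insert_of_mem (col p (by omega) (by omega) k.2.1)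
  obtain ⟨t, t0, t1, bt⟩ := bandM (E ∪ E.image (fun m => z - x - κ - m) ∪
      E.image fun m => (z - x - κ - m) / 2) L (M := 1) (n := 3 * (N + 1)) one_pos (by
    have := Finset.card_union_le (E ∪ E.image fun m => z - x - κ - m)
      (E.image fun m => (z - x - κ - m) / 2)
    have := Finset.card_union_le E (E.image fun m => z - x - κ - m)
    have := Finset.card_image_le (s := E) (f := fun m => z - x - κ - m)
    have := Finset.card_image_le (s := E) (f := fun m => (z - x - κ - m) / 2)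
    omega)
  push_cast at t1
  refine ⟨x, z, x + (L + t), g, by omega, by omega, fun K1 sp => ⟨L2, sp, fun p q k => ?_,
    by omega, by omega⟩⟩
  have := mx _ ⟨p, q, k, rfl⟩
  by_cases m : 2 ≤ q - p
  · have e := mE p q k m
    have := bt _ (Finset.mem_union_left _ (Finset.mem_union_left _ e))
    have := bt _ (Finset.mem_union_left _ (Finset.mem_union_right _ (Finset.mem_image_of_mem _ e)))
    have := bt _ (Finset.mem_union_right _ (Finset.mem_image_of_mem _ e))
    omega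
  · omega

theorem thin_nf {w N : ℕ} (b1 : 1 ≤ b) (hL : (2 * (b : ℤ) + 33) * (w + 1) < L)
    (ha : (3 * (L + 3 * (N + 1)) + 2) * (N + 1) ≤ 2 * a + 1) (k : ℕ) :
    ∀ F : Finset C, F ⊆ board a b → (board a b \ F).card + 4 * k ≤ N →
      (Uq (KK F b) L ∨ (Cen F a b L ∧ Tw (KK F b) L)) → ¬ Force w k F := by
  have L2 : 2 ≤ L := by nlinarith
  induction k with
  | zero => exact fun F hF _ h => thin_np hF b1 hL (h.imp_right And.left)
  | succ k ih =>
    rintro F hF hN h (hP | hP)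
    · exact thin_np hF b1 hL (h.imp_right And.left) hP
    have fin : ∀ d, Legal F d → (∀ s, Legal (F \ d) s → Uq (KK ((F \ d) \ s) b) L ∨
        (Cen ((F \ d) \ s) a b L ∧ Tw (KK ((F \ d) \ s) b) L)) → False := by
      intro d hd m
      obtain ⟨s, hs, hf⟩ := hP d hd
      have c1 := hd.card_step (B := board a b)
      have c2 := hs.card_step (B := board a b)
      exact ih _ (Finset.sdiff_subset.trans (Finset.sdiff_subset.trans hF)) (by omega) (m s hs) hf
    by_cases hU : Uq (KK F b) L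
    · obtain ⟨x, z, v, g, h1, h2, G⟩ := fresh hF (by omega) L2 ha (Or.inl rfl)
      rw [add_zero] at h2 G
      have c : CF F b v := not_not.1 (g.2.2.2 v h1 h2)
      have hd := legal_pair (F := F) (u := (v, 0)) (v := (v, 1)) (adj_mk.2 (by omega))
        (c 0 (by omega) (by omega)) (c 1 (by omega) (by omega))
      exact fin _ hd fun s hs => Or.inl ((G _ ⟨g, h1, le_rfl, by omega, h2, fun i => by
        simpa [eq_comm] using KK.sdiff hF hd.1 i⟩).stepU hU
        (move (Finset.sdiff_subset.trans hF) hs))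
    · obtain ⟨hC, hT⟩ := h.resolve_left hU
      obtain ⟨x, z, v, g, h1, h2, G⟩ := fresh hF (by omega) L2 ha (Or.inr rfl)
      have c : CF F b v := not_not.1 (g.2.2.2 v h1 (by omega))
      have c' : CF F b (v + 1) := not_not.1 (g.2.2.2 (v + 1) (by omega) h2)
      have hd := legal_pair (F := F) (u := (v, 0)) (v := (v + 1, 0)) (adj_mk.2 (by omega))
        (c 0 (by omega) (by omega)) (c' 0 (by omega) (by omega))
      have G' := G _ ⟨g, h1, by omega, le_rfl, h2, fun i => by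
        simpa [eq_comm] using KK.sdiff hF hd.1 i⟩
      refine fin _ hd fun s hs => or_iff_not_imp_left.2 fun nU => ?_
      obtain ⟨t, p, q, u, g', hQ, l1, l2⟩ := G'.stepT hU hT
        (move (Finset.sdiff_subset.trans hF) hs) nU
      obtain ⟨-, y, rfl⟩ := hQ.resolve_right (by omega)
      have := G'.lo
      have := G'.hi
      exact ⟨(hC.step g (by omega) G'.lo (by omega)).step g' (by omega) l1 l2, t⟩

theorem thin {w k : ℕ} (b1 : 1 ≤ b) (hL : (2 * (b : ℤ) + 33) * (w + 1) < L)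
    (ha : (3 * (L + 3 * ((4 * k + 2 : ℕ) + 1)) + 2) * ((4 * k + 2 : ℕ) + 1) ≤ 2 * a + 1) :
    ¬ Force w k (board a b) ∧ ∀ s, Legal (board a b) s → ¬ Force w k (board a b \ s) := by
  have L2 : 2 ≤ L := by nlinarith
  have La : L ≤ a := by
    have : (0 : ℤ) ≤ ((4 * k + 2 : ℕ) : ℤ) := by positivity
    nlinarith
  have key := thin_nf b1 hL ha k
  have cf : ∀ i : ℤ, -(a : ℤ) ≤ i → i ≤ a → CF (board a b) b i :=
    fun i h1 h2 y h3 h4 => mem_board.2 ⟨h1, h2, h3, h4⟩
  have g0 : Gap (KK (board a b) b) (-a - 1) (a + 1) := ⟨by omega, KK.out subset_rfl (by omega),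
    KK.out subset_rfl (by omega), fun i h1 h2 => not_not.2 (cf i (by omega) (by omega))⟩
  have u0 : ∀ p q, Gap (KK (board a b) b) p q → 2 ≤ q - p → p = -a - 1 ∧ q = a + 1 := by
    intro p q g h
    have h1 := mt (KK.out subset_rfl) (g.2.2.2 (p + 1) (by omega) (by omega))
    have := g.eq_or g0
    omega
  have U0 : Uq (KK (board a b) b) L :=
    ⟨_, _, g0, by omega, fun p q g e => (u0 p q g (by omega)).1⟩
  refine ⟨key _ subset_rfl (by simp) (Or.inl U0), fun s hs => key _ Finset.sdiff_subset ?_ ?_⟩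
  · have := hs.card_step (B := board a b)
    simp only [sdiff_self, Finset.bot_eq_empty, Finset.card_empty] at this
    omega
  rcases move subset_rfl hs with m | ⟨p, q, u, u', sp, hQ⟩
  · exact Or.inl (by rwa [show KK (board a b \ s) b = KK (board a b) b from
      funext fun i => propext (m i)])
  have b2 : p < u ∧ u ≤ u' ∧ u' ≤ u + 1 ∧ u' < q := ⟨sp.2.1, sp.2.2.1, sp.2.2.2.1, sp.2.2.2.2.1⟩
  obtain ⟨rfl, rfl⟩ := u0 p q sp.1 (by omega)
  have cls : ∀ p q, Gap (KK (board a b \ s) b) p q → 2 ≤ q - p →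
      (p = -a - 1 ∧ q = u) ∨ (p = u' ∧ q = a + 1) := fun p q g h =>
    (sp.of g h).resolve_left fun k => k.2 (u0 p q k.1 h).1
  rcases lt_trichotomy (u + u') 0 with m | m | m
  · exact Or.inl ⟨_, _, sp.right, by omega, fun p q g e => by have := cls p q g (by omega); omega⟩
  · obtain rfl : u = 0 := by omega
    obtain ⟨y, rfl⟩ := (hQ.resolve_left (by omega)).2.resolve_right
      fun ⟨i, h1, h2, k⟩ => k (cf i h1 h2)
    have m1 := mem_board.1 (hs.1 (Finset.mem_insert_self _ _))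
    have m2 := mem_board.1 (hs.1 (Finset.mem_insert_of_mem (Finset.mem_singleton_self _)))
    simp only at m1 m2
    refine Or.inr ⟨⟨y, by omega, by omega, fun y' h1 h2 => ?_, fun x y1 y2 n k1 k2 n1 n2 => ?_,
      fun i h1 h2 y' h3 h4 => ?_⟩, fun x1 z1 x2 z2 x3 z3 g1 g2 g3 h1 h2 h3 => ?_⟩
    · simp [mem_board, h1, h2]
    · exact (n1 (by simp [k1, n])).elim
    · simp only [Finset.mem_sdiff, mem_board, Finset.mem_insert, Finset.mem_singleton,
        Prod.ext_iff]
      omega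
    · have := cls _ _ g1 (by omega)
      have := cls _ _ g2 (by omega)
      have := cls _ _ g3 (by omega)
      omega
  · exact Or.inl ⟨_, _, sp.left, by omega, fun p q g e => by have := cls p q g (by omega); omega⟩

theorem long (k w a b : ℕ) (hb : 1 ≤ b) (ha : 4000 * (k + 1) ^ 2 * (w + 1) ^ 2 ≤ a) :
    ¬ Force w k (board a b) ∧ ∀ s, Legal (board a b) s → ¬ Force w k (board a b \ s) := by
  have h1 : 1 ≤ (k + 1) * (w + 1) := Nat.succ_le_of_lt (by positivity)
  rcases le_total (300 * (k + 1) * (w + 1)) b with h | h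
  · exact main k w a b (by nlinarith) h
  refine thin (L := (2 * (b : ℤ) + 33) * (w + 1) + 1) hb (by omega) ?_
  have e : (3 * ((2 * b + 33) * (w + 1) + 1 + 3 * (4 * k + 2 + 1)) + 2) * (4 * k + 2 + 1) ≤
      2 * a + 1 := by
    obtain ⟨X, hX⟩ : ∃ X, X = (k + 1) * (w + 1) := ⟨_, rfl⟩
    have a1 : 2 * b + 33 ≤ 633 * X := by nlinarith
    have a2 : k + 1 ≤ X * (w + 1) := by nlinarith [Nat.zero_le (k * w), Nat.zero_le (X * w)]
    have a3 : (2 * b + 33) * (w + 1) ≤ 633 * (X * (w + 1)) := by nlinarith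
    have a4 : 3 * ((2 * b + 33) * (w + 1) + 1 + 3 * (4 * k + 2 + 1)) + 2 ≤ 2000 * (X * (w + 1)) := by
      omega
    have a5 : 4000 * (k + 1) ^ 2 * (w + 1) ^ 2 = 4000 * ((X * (w + 1)) * (k + 1)) := by
      rw [hX]; ring
    calc _ ≤ 2000 * (X * (w + 1)) * (4 * (k + 1)) := Nat.mul_le_mul a4 (by omega)
      _ = 2 * (4000 * ((X * (w + 1)) * (k + 1))) := by ring
      _ ≤ 2 * a + 1 := by omega
  exact_mod_cast e

end Pool.Agent.P.MP_c5202f_co
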