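import Pool.Agent.P.MP_c5202f_co.Match

/-! Splitting runs of empty columns. -/

namespace Pool.Agent.P.MP_c5202f_co

variable {K K1 K2 : ℤ → Prop} {L x z v v' p q u u' : ℤ}

theorem Gap.eq_or {x' z' : ℤ} (g : Gap K x z) (g' : Gap K x' z') :
    (x = x' ∧ z = z') ∨ z ≤ x' ∨ z' ≤ x := by
  have h1 := fun a c => g.2.2.2 x' a c g'.2.1
  have h2 := fun a c => g.2.2.2 z' a c g'.2.2.1
  have h3 := fun a c => g'.2.2.2 x a c g.2.1
  have h4 := fun a c => g'.2.2.2 z a c g.2.2.1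
  have := g.1
  have := g'.1
  by_contra k
  rcases lt_trichotomy x x' with m | m | m
  · exact h1 m (by omega)
  · rcases lt_trichotomy z z' with m' | m' | m'
    exacts [h4 (by omega) m', k (Or.inl ⟨m, m'⟩), h2 (by omega) m']
  · exact h3 m (by omega)

theorem exists_gap {lo hi i : ℤ} (h1 : K lo) (h2 : K hi) (a : lo < i) (c : i < hi) (n : ¬ K i) :
    ∃ p q, Gap K p q ∧ p < i ∧ i < q := by
  obtain ⟨p, p1, p2⟩ := Int.exists_greatest_of_bdd (P := fun j => j < i ∧ K j)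
    ⟨i, fun j hj => hj.1.le⟩ ⟨lo, a, h1⟩
  obtain ⟨q, q1, q2⟩ := Int.exists_least_of_bdd (P := fun j => i < j ∧ K j)
    ⟨i, fun j hj => hj.1.le⟩ ⟨hi, c, h2⟩
  refine ⟨p, q, ⟨by omega, p1.2, q1.2, fun j a c k => ?_⟩, p1.1, q1.1⟩
  rcases lt_trichotomy j i with m | rfl | m
  · have := p2 j ⟨m, k⟩; omega
  · exact n k
  · have := q2 j ⟨m, k⟩; omega

def Split (K K1 : ℤ → Prop) (p q u u' : ℤ) : Prop :=
  Gap K p q ∧ p < u ∧ u ≤ u' ∧ u' ≤ u + 1 ∧ u' < q ∧ ∀ i, K1 i ↔ K i ∨ i = u ∨ i = u'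

theorem Split.left (s : Split K K1 p q u u') : Gap K1 p u := by
  obtain ⟨g, h1, h2, h3, h4, e⟩ := s
  refine ⟨h1, (e _).2 (Or.inl g.2.1), (e _).2 (by simp), fun i a c k => ?_⟩
  rcases (e i).1 k with k | k
  exacts [g.2.2.2 i a (by omega) k, by omega]

theorem Split.right (s : Split K K1 p q u u') : Gap K1 u' q := by
  obtain ⟨g, h1, h2, h3, h4, e⟩ := s
  refine ⟨h4, (e _).2 (by simp), (e _).2 (Or.inl g.2.2.1), fun i a c k => ?_⟩
  rcases (e i).1 k with k | k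
  exacts [g.2.2.2 i (by omega) c k, by omega]

theorem Split.of (s : Split K K1 p q u u') {p' q' : ℤ} (g' : Gap K1 p' q') (h : 2 ≤ q' - p') :
    (Gap K p' q' ∧ p' ≠ p) ∨ (p' = p ∧ q' = u) ∨ (p' = u' ∧ q' = q) := by
  have e1 := g'.eq_or s.left
  have e2 := g'.eq_or s.right
  obtain ⟨g, h1, h2, h3, h4, e⟩ := s
  by_cases k : q' ≤ p ∨ q ≤ p'
  · exact Or.inl ⟨⟨g'.1, ((e _).1 g'.2.1).resolve_right (by omega),
      ((e _).1 g'.2.2.1).resolve_right (by omega),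
      fun i a c m => g'.2.2.2 i a c ((e _).2 (Or.inl m))⟩, by omega⟩
  · right; omega

theorem Split.to (s : Split K K1 p q u u') {p' q' : ℤ} (g' : Gap K p' q') (h : p' ≠ p) :
    Gap K1 p' q' := by
  obtain ⟨g, h1, h2, h3, h4, e⟩ := s
  have := g'.eq_or g
  refine ⟨g'.1, (e _).2 (Or.inl g'.2.1), (e _).2 (Or.inl g'.2.2.1), fun i a c k => ?_⟩
  rcases (e i).1 k with k | k
  exacts [g'.2.2.2 i a c k, by omega]

/-- some long run has a length of its own -/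
def Uq (K : ℤ → Prop) (L : ℤ) : Prop :=
  ∃ x z, Gap K x z ∧ L ≤ z - x ∧ ∀ x' z', Gap K x' z' → z' - x' = z - x → x' = x

/-- no three long runs have the same length -/
def Tw (K : ℤ → Prop) (L : ℤ) : Prop :=
  ∀ x1 z1 x2 z2 x3 z3, Gap K x1 z1 → Gap K x2 z2 → Gap K x3 z3 → L ≤ z1 - x1 →
    z2 - x2 = z1 - x1 → z3 - x3 = z1 - x1 → x1 = x2 ∨ x1 = x3 ∨ x2 = x3

theorem other (h : ¬ Uq K L) (g : Gap K x z) (hL : L ≤ z - x) :
    ∃ x' z', Gap K x' z' ∧ z' - x' = z - x ∧ x' ≠ x := by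
  by_contra k
  exact h ⟨x, z, g, hL, fun x' z' a c => by_contra fun m => k ⟨x', z', a, c, m⟩⟩

/-- the data of a move of the spoiler -/
structure Gen (K K1 : ℤ → Prop) (L x z v v' : ℤ) : Prop where
  L2 : 2 ≤ L
  sp : Split K K1 x z v v'
  gen : ∀ p q, Gap K p q → q - p ≤ z - x ∧ q - p ≠ v - x ∧ q - p ≠ z - v' ∧
    q - p ≠ z - v' - (v - x) ∧ q - p ≠ z - v' - (v - x) - 1
  lo : L ≤ v - x
  hi : 2 * (v - x) + 1 < z - v'

theorem Gen.step (h : Gen K K1 L x z v v') {Q : ℤ → ℤ → Prop}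
    (s2 : (∀ i, K2 i ↔ K1 i) ∨ ∃ p q u u', Split K1 K2 p q u u' ∧ Q u u') (nU : ¬ Uq K2 L) :
    ∃ p q u u', Split K1 K2 p q u u' ∧ Q u u' ∧ Gap K p q ∧ p ≠ x ∧
      ((u - p = v - x ∧ q - u' = z - v') ∨ (u - p = z - v' ∧ q - u' = v - x)) := by
  obtain ⟨L2, s1, gen, lo, hi⟩ := h
  have c1 : ∀ p q, Gap K1 p q → 2 ≤ q - p → (Gap K p q ∧ p ≠ x ∧ q - p ≠ v - x ∧
      q - p ≠ z - v' ∧ q - p ≠ z - v' - (v - x) ∧ q - p ≠ z - v' - (v - x) - 1) ∨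
      (p = x ∧ q = v) ∨ (p = v' ∧ q = z) := fun p q g a =>
    (s1.of g a).imp_left fun k => ⟨k.1, k.2, (gen p q k.1).2⟩
  have b1 := s1.2.2.1
  rcases s2 with s2 | ⟨p, q, u, u', s2, hQ⟩
  · obtain rfl : K2 = K1 := funext fun i => propext (s2 i)
    obtain ⟨x', z', g, a, n⟩ := other nU s1.left lo
    rcases c1 _ _ g (by omega) with k | k | k <;> omega
  have c2 : ∀ p' q', Gap K2 p' q' → 2 ≤ q' - p' → (p' ≠ p ∧ ((p' ≠ x ∧ q' - p' ≠ v - x ∧
      q' - p' ≠ z - v' ∧ q' - p' ≠ z - v' - (v - x) ∧ q' - p' ≠ z - v' - (v - x) - 1) ∨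
      (p' = x ∧ q' = v) ∨ (p' = v' ∧ q' = z))) ∨ (p' = p ∧ q' = u) ∨ (p' = u' ∧ q' = q) :=
    fun p' q' g a => (s2.of g a).imp_left fun k => ⟨k.2, (c1 _ _ k.1 a).imp_left fun m => m.2⟩
  have b2 : p < u ∧ u ≤ u' ∧ u' ≤ u + 1 ∧ u' < q := ⟨s2.2.1, s2.2.2.1, s2.2.2.2.1, s2.2.2.2.2.1⟩
  by_cases e : p = v'
  · exfalso
    have := s2.1.eq_or s1.right
    obtain ⟨x', z', g, a, n⟩ := other nU (s2.to s1.left (by omega)) lo
    have k := c2 _ _ g (by omega)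
    by_cases m : u - p = v - x
    · obtain ⟨x'', z'', g', a', n'⟩ := other nU s2.right (by omega)
      have := c2 _ _ g' (by omega)
      omega
    · obtain ⟨x'', z'', g', a', n'⟩ := other nU s2.left (by omega)
      have := c2 _ _ g' (by omega)
      omega
  · obtain ⟨x', z', g, a, n⟩ := other nU (s2.to s1.right (Ne.symm e)) (by omega)
    have k := c2 _ _ g (by omega)
    have k1 := (c1 _ _ s2.1 (by omega)).resolve_right (by omega)
    obtain ⟨x'', z'', g', a', n'⟩ := other nU (s2.to s1.left k1.2.1.symm) lo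
    have := c2 _ _ g' (by omega)
    exact ⟨p, q, u, u', s2, hQ, k1.1, k1.2.1, by omega⟩

theorem Gen.cls (h : Gen K K1 L x z v v') (s2 : Split K1 K2 p q u u') {p' q' : ℤ}
    (g : Gap K2 p' q') (a : 2 ≤ q' - p') :
    (Gap K p' q' ∧ p' ≠ x ∧ q' - p' ≠ v - x ∧ q' - p' ≠ z - v') ∨ (p' = x ∧ q' = v) ∨
      (p' = v' ∧ q' = z) ∨ (p' = p ∧ q' = u) ∨ (p' = u' ∧ q' = q) := by
  rcases s2.of g a with k | k
  · rcases h.sp.of k.1 a with m | m
    · have := h.gen _ _ m.1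
      exact Or.inl ⟨m.1, m.2, this.2.1, this.2.2.1⟩
    · right; omega
  · right; omega

theorem Gen.stepU (h : Gen K K1 L x z v v) {Q : ℤ → ℤ → Prop} (hU : Uq K L)
    (s2 : (∀ i, K2 i ↔ K1 i) ∨ ∃ p q u u', Split K1 K2 p q u u' ∧ Q u u') : Uq K2 L := by
  by_contra nU
  obtain ⟨p, q, u, u', s2, -, g, n, e⟩ := h.step s2 nU
  obtain ⟨x0, z0, g0, l0, u0⟩ := hU
  have b2 := s2.2.2.1
  have k1 := (h.gen _ _ g).1
  have k0 := h.gen _ _ g0
  have n0 : z0 - x0 ≠ z - x := fun k => n ((u0 _ _ g (by omega)).trans (u0 _ _ h.sp.1 k.symm).symm)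
  have e1 := g0.eq_or h.sp.1
  have e2 := g0.eq_or g
  have := g0.1
  have := g.1
  have := h.sp.1.1
  have := h.L2
  refine nU ⟨x0, z0, s2.to (h.sp.to g0 (by omega)) (by omega), l0, fun x' z' g' a => ?_⟩
  rcases h.cls s2 g' (by omega) with k | k
  exacts [u0 _ _ k.1 a, by omega]

theorem Gen.stepT (h : Gen K K1 L x z v (v + 1)) {Q : ℤ → ℤ → Prop} (hU : ¬ Uq K L) (hT : Tw K L)
    (s2 : (∀ i, K2 i ↔ K1 i) ∨ ∃ p q u u', Split K1 K2 p q u u' ∧ Q u u') (nU : ¬ Uq K2 L) :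
    Tw K2 L ∧ ∃ p q u, Gap K1 p q ∧ Q u (u + 1) ∧ L ≤ u - p ∧ L ≤ q - (u + 1) := by
  obtain ⟨p, q, u, u', s2, hQ, g, n, e⟩ := h.step s2 nU
  have b2 := s2.2.2.1
  have b3 := s2.2.2.2.1
  have := h.L2
  have := h.lo
  have := h.hi
  rcases b3.eq_or_lt with rfl | b3
  · refine ⟨fun x1 z1 x2 z2 x3 z3 g1 g2 g3 a1 a2 a3 => ?_, p, q, u, s2.1, hQ, by omega, by omega⟩
    rcases h.cls s2 g1 (by omega) with k1 | k1
    · rcases h.cls s2 g2 (by omega) with k2 | k2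
      · rcases h.cls s2 g3 (by omega) with k3 | k3
        · exact hT _ _ _ _ _ _ k1.1 k2.1 k3.1 a1 a2 a3
        · omega
      · omega
    · have k2 := (h.cls s2 g2 (by omega)).resolve_left (by omega)
      have k3 := (h.cls s2 g3 (by omega)).resolve_left (by omega)
      rcases k1 with k1 | k1 | k1 | k1 <;> rcases k2 with k2 | k2 | k2 | k2 <;> omega
  · exfalso
    obtain ⟨x1, z1, g1, a, n1⟩ := other hU h.sp.1 (by omega)
    have e2 := g1.eq_or g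
    have := g.1
    refine nU ⟨x1, z1, s2.to (h.sp.to g1 n1) (by omega), by omega, fun x' z' g' a' => ?_⟩
    rcases h.cls s2 g' (by omega) with k | k
    · have := hT _ _ _ _ _ _ h.sp.1 g1 k.1 (by omega) a (by omega)
      omega
    · omega

end Pool.Agent.P.MP_c5202f_co
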