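import Pool.Agent.P.MP_c5202f_co.Star

/-! The involution is the central symmetry on empty rows and columns. -/

namespace Pool.Agent.P.MP_c5202f_co

theorem par4 {p s q1 q2 : C} (h1 : Adj p q1) (h2 : Adj p q2) (h3 : Adj s q1) (h4 : Adj s q2)
    (n : q1 ≠ q2) (n' : p ≠ s) : q1.1 + q2.1 = p.1 + s.1 ∧ q1.2 + q2.2 = p.2 + s.2 := by
  rcases h1.cases with rfl | rfl | rfl | rfl <;> rcases h2.cases with rfl | rfl | rfl | rfl <;>
    simp only [ne_iff, Adj] at h3 h4 n n' ⊢ <;> omega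

theorem opp {p x x' y y' : C} (h1 : Adj p x) (h2 : Adj p x') (h3 : Adj p y) (h4 : Adj p y')
    (n1 : x ≠ x') (n2 : x ≠ y) (n3 : x ≠ y') (n4 : x' ≠ y) (n5 : x' ≠ y') (n6 : y ≠ y')
    (m1 : ¬ (x.1 + y.1 = 2 * p.1 ∧ x.2 + y.2 = 2 * p.2))
    (m2 : ¬ (x.1 + y'.1 = 2 * p.1 ∧ x.2 + y'.2 = 2 * p.2)) :
    x.1 + x'.1 = 2 * p.1 ∧ x.2 + x'.2 = 2 * p.2 := by
  have h5 : Adj p (2 * p.1 - x.1, 2 * p.2 - x.2) := by simp only [Adj] at h1 ⊢; omega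
  rcases four h5 h1 h2 h3 h4 n1 n2 n3 n4 n5 n6 with h | h | h | h <;>
    simp only [Prod.ext_iff] at h
  · simp only [Adj] at h1; omega
  · omega
  · omega
  · omega

variable {G : C → Prop} {σ : C → C}

theorem Inv.inj (h : Inv G σ) {u v : C} (hu : G u) (hv : G v) (n : u ≠ v) : σ u ≠ σ v :=
  fun e => n (by rw [← h.inv u hu, e, h.inv v hv])

theorem Inv.straight (h : Inv G σ) {v x x' y y' c c' : C} (gv : G v) (gx : G x) (gx' : G x')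
    (gy : G y) (gy' : G y') (gc : G c) (gc' : G c') (h1 : Adj v x) (h2 : Adj v x') (h3 : Adj v y)
    (h4 : Adj v y') (n1 : x ≠ x') (n2 : x ≠ y) (n3 : x ≠ y') (n4 : x' ≠ y) (n5 : x' ≠ y')
    (n6 : y ≠ y') (c1 : Adj c x) (c2 : Adj c y) (c3 : v ≠ c) (d1 : Adj c' x) (d2 : Adj c' y')
    (d3 : v ≠ c') :
    (σ x).1 + (σ x').1 = 2 * (σ v).1 ∧ (σ x).2 + (σ x').2 = 2 * (σ v).2 := by
  have p1 := par4 (h.adj _ _ gv gx h1) (h.adj _ _ gv gy h3) (h.adj _ _ gc gx c1)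
    (h.adj _ _ gc gy c2) (h.inj gx gy n2) (h.inj gv gc c3)
  have p2 := par4 (h.adj _ _ gv gx h1) (h.adj _ _ gv gy' h4) (h.adj _ _ gc' gx d1)
    (h.adj _ _ gc' gy' d2) (h.inj gx gy' n3) (h.inj gv gc' d3)
  have q1 := ne_iff.1 (h.inj gv gc c3)
  have q2 := ne_iff.1 (h.inj gv gc' d3)
  exact opp (h.adj _ _ gv gx h1) (h.adj _ _ gv gx' h2) (h.adj _ _ gv gy h3) (h.adj _ _ gv gy' h4)
    (h.inj gx gx' n1) (h.inj gx gy n2) (h.inj gx gy' n3) (h.inj gx' gy n4) (h.inj gx' gy' n5)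
    (h.inj gy gy' n6) (by omega) (by omega)

theorem lin (f : ℤ → ℤ) (x1 x2 : ℤ)
    (h : ∀ x, x1 < x → x < x2 → f (x + 1) + f (x - 1) = 2 * f x) :
    ∃ α β : ℤ, ∀ x, x1 ≤ x → x ≤ x2 → f x = α + β * x := by
  refine ⟨f x1 - (f (x1 + 1) - f x1) * x1, f (x1 + 1) - f x1, ?_⟩
  have key : ∀ n : ℕ, x1 + n + 1 ≤ x2 →
      f (x1 + n) = f x1 + (f (x1 + 1) - f x1) * n ∧
      f (x1 + n + 1) = f x1 + (f (x1 + 1) - f x1) * (n + 1) := by
    intro n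
    induction n with
    | zero => intro _; simp
    | succ n ih =>
      intro hn
      push_cast at hn ⊢
      obtain ⟨i1, i2⟩ := ih (by omega)
      have := h (x1 + n + 1) (by omega) (by omega)
      rw [show x1 + n + 1 - 1 = x1 + n by ring] at this
      rw [show x1 + (n + 1) = x1 + n + 1 by ring]
      exact ⟨i2, by linarith⟩
  intro x h1 h2
  rcases h1.eq_or_lt with rfl | h1
  · ring
  · obtain ⟨n, rfl⟩ : ∃ n : ℕ, x = x1 + n + 1 := ⟨(x - x1 - 1).toNat, by omega⟩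
    rw [(key n h2).2]; ring

theorem Inv.row (h : Inv G σ) {x1 x2 y : ℤ}
    (hG : ∀ x y', x1 ≤ x → x ≤ x2 → y - 1 ≤ y' → y' ≤ y + 1 → G (x, y')) :
    ∃ α β γ δ : ℤ, ∀ x, x1 ≤ x → x ≤ x2 → σ (x, y) = (α + β * x, γ + δ * x) := by
  have st : ∀ x, x1 < x → x < x2 →
      (σ (x + 1, y)).1 + (σ (x - 1, y)).1 = 2 * (σ (x, y)).1 ∧
      (σ (x + 1, y)).2 + (σ (x - 1, y)).2 = 2 * (σ (x, y)).2 := by
    intro x h1 h2
    refine h.straight (y := (x, y + 1)) (y' := (x, y - 1)) (c := (x + 1, y + 1))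
      (c' := (x + 1, y - 1)) ?_ ?_ ?_ ?_ ?_ ?_ ?_ ?_ ?_ ?_ ?_ ?_ ?_ ?_ ?_ ?_ ?_ ?_ ?_ ?_ ?_ ?_ ?_ <;>
    first
    | exact hG _ _ (by omega) (by omega) (by omega) (by omega)
    | (simp only [ne_iff, Adj]; omega)
    | simp [Adj]
  obtain ⟨α, β, h1⟩ := lin (fun x => (σ (x, y)).1) x1 x2 fun x a b => (st x a b).1
  obtain ⟨γ, δ, h2⟩ := lin (fun x => (σ (x, y)).2) x1 x2 fun x a b => (st x a b).2
  exact ⟨α, β, γ, δ, fun x a b => cext (h1 x a b) (h2 x a b)⟩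

theorem Inv.col (h : Inv G σ) {y1 y2 x : ℤ}
    (hG : ∀ x' y, y1 ≤ y → y ≤ y2 → x - 1 ≤ x' → x' ≤ x + 1 → G (x', y)) :
    ∃ α β γ δ : ℤ, ∀ y, y1 ≤ y → y ≤ y2 → σ (x, y) = (α + β * y, γ + δ * y) := by
  have st : ∀ y, y1 < y → y < y2 →
      (σ (x, y + 1)).1 + (σ (x, y - 1)).1 = 2 * (σ (x, y)).1 ∧
      (σ (x, y + 1)).2 + (σ (x, y - 1)).2 = 2 * (σ (x, y)).2 := by
    intro y h1 h2
    refine h.straight (y := (x + 1, y)) (y' := (x - 1, y)) (c := (x + 1, y + 1))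
      (c' := (x - 1, y + 1)) ?_ ?_ ?_ ?_ ?_ ?_ ?_ ?_ ?_ ?_ ?_ ?_ ?_ ?_ ?_ ?_ ?_ ?_ ?_ ?_ ?_ ?_ ?_ <;>
    first
    | exact hG _ _ (by omega) (by omega) (by omega) (by omega)
    | (simp only [ne_iff, Adj]; omega)
    | simp [Adj]
  obtain ⟨α, β, h1⟩ := lin (fun y => (σ (x, y)).1) y1 y2 fun x a b => (st x a b).1
  obtain ⟨γ, δ, h2⟩ := lin (fun y => (σ (x, y)).2) y1 y2 fun x a b => (st x a b).2
  exact ⟨α, β, γ, δ, fun x a b => cext (h1 x a b) (h2 x a b)⟩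

theorem unit {α β γ δ x : ℤ} (h : Adj (α + β * x, γ + δ * x) (α + β * (x + 1), γ + δ * (x + 1))) :
    (β = 1 ∧ δ = 0) ∨ (β = -1 ∧ δ = 0) ∨ (β = 0 ∧ δ = 1) ∨ (β = 0 ∧ δ = -1) := by
  simp only [Adj, mul_add, mul_one] at h
  omega

theorem Inv.cross (h : Inv G σ) {a b x0 y0 : ℤ}
    (hb : ∀ v, G v → -a < v.1 ∧ v.1 < a ∧ -b < v.2 ∧ v.2 < b)
    (hx : -a + 1 < x0 ∧ x0 < a - 1) (hy : -b + 1 < y0 ∧ y0 < b - 1)
    (hr : ∀ x y, -a + 1 ≤ x → x ≤ a - 1 → y0 - 1 ≤ y → y ≤ y0 + 1 → G (x, y))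
    (hc : ∀ x y, -b + 1 ≤ y → y ≤ b - 1 → x0 - 1 ≤ x → x ≤ x0 + 1 → G (x, y)) :
    ∀ y, -b + 1 ≤ y → y ≤ b - 1 → σ (x0, y) = (-x0, -y) := by
  obtain ⟨α, β, γ, δ, R⟩ := h.row hr
  obtain ⟨α', β', γ', δ', K⟩ := h.col hc
  have gr : ∀ x, -a + 1 ≤ x → x ≤ a - 1 → G (x, y0) :=
    fun x h1 h2 => hr x y0 h1 h2 (by omega) (by omega)
  have gc : ∀ y, -b + 1 ≤ y → y ≤ b - 1 → G (x0, y) :=
    fun y h1 h2 => hc x0 y h1 h2 (by omega) (by omega)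
  have u1 := h.adj _ _ (gr x0 (by omega) (by omega)) (gr (x0 + 1) (by omega) (by omega))
    (by simp [Adj])
  rw [R _ (by omega) (by omega), R _ (by omega) (by omega)] at u1
  have u2 := h.adj _ _ (gc y0 (by omega) (by omega)) (gc (y0 + 1) (by omega) (by omega))
    (by simp [Adj])
  rw [K _ (by omega) (by omega), K _ (by omega) (by omega)] at u2
  have e0 := (R x0 (by omega) (by omega)).symm.trans (K y0 (by omega) (by omega))
  have n1 := h.inj (gr (x0 + 1) (by omega) (by omega)) (gc (y0 + 1) (by omega) (by omega))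
    (by simp)
  have n2 := h.inj (gr (x0 + 1) (by omega) (by omega)) (gc (y0 - 1) (by omega) (by omega))
    (by simp)
  rw [R _ (by omega) (by omega), K _ (by omega) (by omega)] at n1 n2
  have b1 := hb _ (h.mem _ (gr (a - 1) (by omega) (by omega)))
  have b2 := hb _ (h.mem _ (gr (-a + 1) (by omega) (by omega)))
  have b3 := hb _ (h.mem _ (gc (b - 1) (by omega) (by omega)))
  have b4 := hb _ (h.mem _ (gc (-b + 1) (by omega) (by omega)))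
  rw [R _ (by omega) (by omega)] at b1 b2
  rw [K _ (by omega) (by omega)] at b3 b4
  have fr : ∀ x, -a + 1 ≤ x → x ≤ a - 1 → α + β * x ≠ x ∨ γ + δ * x ≠ y0 := fun x h1 h2 => by
    have := h.ne _ (gr x h1 h2)
    rwa [R _ h1 h2, ne_iff] at this
  have fc := h.ne _ (gc 0 (by omega) (by omega))
  rw [K _ (by omega) (by omega)] at fc
  have rot : ∀ x x', -a + 1 ≤ x → x ≤ a - 1 → -a + 1 ≤ x' → x' ≤ a - 1 → α + β * x = x' →
      γ + δ * x = y0 → γ + δ * x' = y0 := fun x x' h1 h2 h3 h4 e1 e2 => by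
    have := h.inv _ (gr x h1 h2)
    rw [R _ h1 h2, e1, e2, R _ h3 h4] at this
    exact congrArg Prod.snd this
  have f0 := fr 0 (by omega) (by omega)
  have f1 := fr x0 (by omega) (by omega)
  have f2 := fr y0
  have f3 := fr (-y0)
  have r1 := rot y0 (-y0)
  have r2 := rot (-y0) y0
  intro y h1 h2
  rw [K y h1 h2]
  simp only [ne_iff, Prod.ext_iff] at n1 n2 fc e0 b1 b2 b3 b4 ⊢
  clear R K hr hc gr gc fr rot hb
  rcases unit u1 with ⟨rfl, rfl⟩ | ⟨rfl, rfl⟩ | ⟨rfl, rfl⟩ | ⟨rfl, rfl⟩ <;>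
    rcases unit u2 with ⟨rfl, rfl⟩ | ⟨rfl, rfl⟩ | ⟨rfl, rfl⟩ | ⟨rfl, rfl⟩ <;>
    clear u1 u2 <;>
    first
    | (clear f0 f1 f2 f3 r1 r2 fc b1 b2 b3 b4; omega)
    | (clear n1 n2 f2 f3 r1 r2; omega)
    | (have hab : a = b := by clear f0 f1 f2 f3 r1 r2 fc n1 n2; omega
       subst hab
       have g2 := f2 (by omega) (by omega)
       have g3 := f3 (by omega) (by omega)
       have s1 := r1 (by omega) (by omega) (by omega) (by omega)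
       have s2 := r2 (by omega) (by omega) (by omega) (by omega)
       clear n1 n2 f1 f2 f3 r1 r2 fc
       omega)

theorem Inv.line (h : Inv G σ) {x0 x1 x2 y : ℤ}
    (hG : ∀ x y', x1 ≤ x → x ≤ x2 → y - 1 ≤ y' → y' ≤ y + 1 → G (x, y')) (h1 : x1 ≤ x0)
    (h2 : x0 + 1 ≤ x2) (e1 : σ (x0, y) = (-x0, -y)) (e2 : σ (x0 + 1, y) = (-(x0 + 1), -y)) :
    ∀ x, x1 ≤ x → x ≤ x2 → σ (x, y) = (-x, -y) := by
  obtain ⟨α, β, γ, δ, R⟩ := h.row hG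
  rw [R _ (by omega) (by omega)] at e1 e2
  simp only [Prod.ext_iff, mul_add, mul_one] at e1 e2
  obtain rfl : β = -1 := by omega
  obtain rfl : δ = 0 := by omega
  intro x a b
  rw [R x a b]
  simp only [Prod.ext_iff]
  omega

theorem mem_board {a b : ℕ} {v : C} :
    v ∈ board a b ↔ -(a : ℤ) ≤ v.1 ∧ v.1 ≤ a ∧ -(b : ℤ) ≤ v.2 ∧ v.2 ≤ b := by
  simp only [board, Finset.mem_product, Finset.mem_Icc, and_assoc]

variable {F : Finset C} {r : Finset C → Finset C} {a b : ℕ}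

theorem Good.bound (hF : F ⊆ board a b) {v : C} (hv : Good F r v) :
    -(a : ℤ) < v.1 ∧ v.1 < a ∧ -(b : ℤ) < v.2 ∧ v.2 < b := by
  have h1 := mem_board.1 (hF (hv.2 (v.1 + 1, v.2) (by simp [Adj])).1)
  have h2 := mem_board.1 (hF (hv.2 (v.1 - 1, v.2) (by simp [Adj])).1)
  have h3 := mem_board.1 (hF (hv.2 (v.1, v.2 + 1) (by simp [Adj])).1)
  have h4 := mem_board.1 (hF (hv.2 (v.1, v.2 - 1) (by simp [Adj])).1)
  simp only at h1 h2 h3 h4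
  omega

theorem Rep.good (h : Rep F r) (hF : F ⊆ board a b) {x y : ℤ}
    (hv : -(a : ℤ) < x ∧ x < a ∧ -(b : ℤ) < y ∧ y < b)
    (hc : (-(a : ℤ) + 1 < x ∧ x < a - 1) ∨ (-(b : ℤ) + 1 < y ∧ y < b - 1))
    (hf : ∀ u ∈ board a b, x - 3 ≤ u.1 → u.1 ≤ x + 3 → y - 3 ≤ u.2 → u.2 ≤ y + 3 → u ∈ F) :
    Good F r (x, y) := by
  have h0 : (x, y) ∈ F :=
    hf _ (mem_board.2 (by simp only; omega)) (by simp) (by simp) (by simp) (by simp)
  refine ⟨h0, fun w hw => ?_⟩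
  have hw' := hw
  simp only [Adj] at hw'
  have h1 : w ∈ F :=
    hf _ (mem_board.2 (by omega)) (by omega) (by omega) (by omega) (by omega)
  refine ⟨h1, h.rr (legal_pair hw h0 h1) fun w' hm c hc' hcF z z' a1 a2 n1 n2 => ?_⟩
  have hcb := mem_board.1 (hF hcF)
  have near : x - 2 ≤ c.1 ∧ c.1 ≤ x + 2 ∧ y - 2 ≤ c.2 ∧ c.2 ≤ y + 2 ∧
      ((-(a : ℤ) < c.1 ∧ c.1 < a) ∨ (-(b : ℤ) < c.2 ∧ c.2 < b)) := by
    simp only [Finset.mem_insert, Finset.mem_singleton] at hm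
    rcases hm with rfl | rfl <;> simp only [Adj] at hc' <;> omega
  have off : ∀ z, Adj c z → z ∉ F → ¬ (-(a : ℤ) ≤ z.1 ∧ z.1 ≤ a ∧ -(b : ℤ) ≤ z.2 ∧ z.2 ≤ b) :=
    fun z hz hn hb => by
      simp only [Adj] at hz
      exact hn (hf z (mem_board.2 hb) (by omega) (by omega) (by omega) (by omega))
  have o1 := off z a1 n1
  have o2 := off z' a2 n2
  clear hw' hc' off hf
  rcases a1.cases with rfl | rfl | rfl | rfl <;> rcases a2.cases with rfl | rfl | rfl | rfl <;>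
    first | rfl | (exfalso; simp only at o1 o2; omega)

end Pool.Agent.P.MP_c5202f_co
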