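import Pool.Agent.P.MP_c5202f_co.Star

/-! Two half strips whose first two columns are matched by the replies. -/

namespace Pool.Agent.P.MP_c5202f_co

structure HS (S : Set (Finset C)) (p : Bool → ℤ → ℤ → C) (b Λ : ℤ) : Prop where
  b1 : 1 ≤ b
  L2 : 2 ≤ Λ
  cl : ∀ P ∈ S, ∀ d, Legal P d → ∃ s, Legal (P \ d) s ∧ (P \ d) \ s ∈ S
  adj : ∀ δ l y l' y', Adj (p δ l y) (p δ l' y') ↔ Adj (l, y) (l', y')
  nb : ∀ δ l y z, Adj (p δ l y) z →
    z = p δ (l + 1) y ∨ z = p δ (l - 1) y ∨ z = p δ l (y + 1) ∨ z = p δ l (y - 1)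
  inj : ∀ δ l y l' y', p δ l y = p δ l' y' → l = l' ∧ y = y'
  ne : ∀ δ l y l' y', 0 ≤ l → l ≤ Λ → 0 ≤ l' → l' < Λ → p δ l y ≠ p (!δ) l' y'
  far : ∀ δ l y l' y', 0 ≤ l → l < Λ → 0 ≤ l' → l' < Λ → ¬ Adj (p δ l y) (p (!δ) l' y')
  row : ∀ P ∈ S, ∀ δ l y, p δ l y ∈ P → -b ≤ y ∧ y ≤ b
  tm : ∀ P ∈ S, ∀ δ l y l' y', Adj (l, y) (l', y') → 0 ≤ l → l ≤ 1 → 0 ≤ l' → l' ≤ 1 →
    p δ l y ∈ P → p δ l' y' ∈ P → p (!δ) l y ∈ P

def Free (p : Bool → ℤ → ℤ → C) (b : ℤ) (P : Finset C) (μ : ℤ) : Prop :=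
  ∀ δ l y, 0 ≤ l → l < μ → -b ≤ y → y ≤ b → p δ l y ∈ P

def Bad (p : Bool → ℤ → ℤ → C) (b : ℤ) (P : Finset C) (δ : Bool) (μ y : ℤ) : Prop :=
  Free p b P μ ∧ p δ μ y ∈ P ∧ (p (!δ) μ y ∉ P ∨ p (!δ) μ y = p δ μ y)

variable {S : Set (Finset C)} {p : Bool → ℤ → ℤ → C} {b Λ : ℤ} {P : Finset C}

theorem HS.ne' (h : HS S p b Λ) (δ : Bool) {l y l' y' : ℤ} (h1 : 0 ≤ l) (h2 : l ≤ Λ) (h3 : 0 ≤ l')
    (h4 : l' < Λ) : p δ l' y' ≠ p (!δ) l y := by
  have := h.ne (!δ) l y l' y' h1 h2 h3 h4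
  rw [Bool.not_not] at this
  exact this.symm

theorem HS.lev (h : HS S p b Λ) {δ δ' : Bool} {l y l' y' : ℤ} (h1 : 0 ≤ l) (h2 : l ≤ Λ)
    (h3 : 0 ≤ l') (h4 : l' < Λ) (e : p δ l y = p δ' l' y') : δ = δ' ∧ l = l' ∧ y = y' := by
  by_cases k : δ = δ'
  · subst k; exact ⟨rfl, h.inj _ _ _ _ _ e⟩
  · obtain rfl : δ' = !δ := by cases δ <;> cases δ' <;> simp_all
    exact absurd e (h.ne _ _ _ _ _ h1 h2 h3 h4)

theorem HS.hit (h : HS S p b Λ) (hP : P ∈ S) {ν : ℤ} (hν : ν ≤ Λ)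
    (ih : ∀ δ μ y, 1 ≤ μ → μ < ν → ¬ Bad p b P δ μ y) {q : C} {δ : Bool} {l y : ℤ}
    (ha : Adj (p δ l y) q) (hp : p δ l y ∉ P)
    (hf : ∀ δ' l' y', 0 ≤ l' → l' < ν → -b ≤ y' → y' ≤ b →
      p δ' l' y' ∈ P ∨ p δ' l' y' = p δ l y ∨ p δ' l' y' = q)
    (h1 : 0 ≤ l) (h2 : l < ν) (h3 : -b ≤ y) (h4 : y ≤ b)
    (hq : ∀ δ' l' y', q = p δ' l' y' → 0 ≤ l' → l' < l → -b ≤ y' → y' ≤ b → False) : False := by
  have other : ∀ y', -b ≤ y' → y' ≤ b → p (!δ) l y' ∈ P := by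
    intro y' a c
    rcases hf (!δ) l y' h1 h2 a c with k | k | k
    · exact k
    · exact absurd k.symm (h.ne δ l y l y' h1 (by omega) h1 (by omega))
    · exact absurd (k ▸ ha) (h.far δ l y l y' h1 (by omega) h1 (by omega))
  rcases h1.eq_or_lt with rfl | h1'
  · have b1 := h.b1
    obtain ⟨y', a1, a2, a3⟩ : ∃ y', Adj (0, y) (0, y') ∧ -b ≤ y' ∧ y' ≤ b := by
      by_cases k : y = b
      · exact ⟨y - 1, by simp [Adj], by omega, by omega⟩
      · exact ⟨y + 1, by simp [Adj], by omega, by omega⟩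
    have := h.tm P hP (!δ) 0 y 0 y' a1 le_rfl (by omega) le_rfl (by omega) (other y h3 h4)
      (other y' a2 a3)
    rw [Bool.not_not] at this
    exact hp this
  · refine ih (!δ) l y (by omega) h2 ⟨fun δ' l' y' a c d e => ?_, other y h3 h4,
      Or.inl (by rwa [Bool.not_not])⟩
    rcases hf δ' l' y' a (by omega) d e with k | k | k
    · exact k
    · have := h.lev h1 (by omega) a (by omega) k.symm
      omega
    · exact (hq δ' l' y' k.symm a c d e).elim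

theorem HS.hit' (h : HS S p b Λ) {P s : Finset C} (hP : P \ s ∈ S) (hs : Legal P s) {ν : ℤ}
    (hν : ν ≤ Λ) (ih : ∀ δ μ y, 1 ≤ μ → μ < ν → ¬ Bad p b (P \ s) δ μ y) (hf : Free p b P ν) :
    Free p b (P \ s) ν := by
  intro δ l y h1 h2 h3 h4
  refine Finset.mem_sdiff.2 ⟨hf δ l y h1 h2 h3 h4, fun hm => ?_⟩
  obtain ⟨q, ha, -, -, e⟩ := hs.at hm
  have f : ∀ δ' l' y', 0 ≤ l' → l' < ν → -b ≤ y' → y' ≤ b →
      p δ' l' y' ∈ P \ s ∨ p δ' l' y' = p δ l y ∨ p δ' l' y' = q := by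
    intro δ' l' y' a c d g
    by_cases k : p δ' l' y' ∈ s
    · rw [e] at k
      exact Or.inr (by simpa using k)
    · exact Or.inl (Finset.mem_sdiff.2 ⟨hf δ' l' y' a c d g, k⟩)
  refine h.hit hP hν ih ha (fun k => (Finset.mem_sdiff.1 k).2 hm) f h1 h2 h3 h4 ?_
  rintro δ' l' y' rfl k1 k2 k3 k4
  refine h.hit hP hν ih ha.symm (fun k => (Finset.mem_sdiff.1 k).2 (by simp [e]))
    (fun a c d e f' g i => (f a c d e f' g i).imp_right Or.symm) k1 (by omega) k3 k4 ?_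
  intro δ'' l'' y'' e' m1 m2 _ _
  have := h.lev h1 (by omega) m1 (by omega) e'
  omega

theorem HS.free_move (h : HS S p b Λ) {δ : Bool} {l y : ℤ} (h1 : 0 ≤ l) (h2 : l + 1 ≤ Λ)
    (hf : Free p b P l) : Free p b (P \ {p δ l y, p δ (l + 1) y}) l := by
  intro δ' l' y' a c d e
  simp only [Finset.mem_sdiff, Finset.mem_insert, Finset.mem_singleton, not_or]
  refine ⟨hf δ' l' y' a c d e, fun k => ?_, fun k => ?_⟩
  · have := h.lev h1 (by omega) a (by omega) k.symm; omega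
  · have := h.lev (by omega) h2 a (by omega) k.symm; omega

/-- the analysis of one reply to a horizontal move -/
theorem HS.reply (h : HS S p b Λ) {δ : Bool} {l y : ℤ} (h1 : 1 ≤ l) (h2 : l + 1 ≤ Λ)
    (hP : P ∈ S) (hf : Free p b P l) (hm : p (!δ) l y ∈ P)
    (hs' : ∀ y', p (!δ) l y' ∈ P → p δ l y' ∈ P) {s : Finset C}
    (hs : Legal (P \ {p δ l y, p δ (l + 1) y}) s) (hP' : (P \ {p δ l y, p δ (l + 1) y}) \ s ∈ S)
    (ih : ∀ δ' μ y', 1 ≤ μ → μ ≤ l → ¬ Bad p b ((P \ {p δ l y, p δ (l + 1) y}) \ s) δ' μ y') :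
    s = {p (!δ) l y, p (!δ) (l + 1) y} := by
  have fr := h.hit' hP' hs (ν := l) (by omega) (fun a c d e f => ih a c d e (by omega))
    (h.free_move (by omega) h2 hf)
  have yb := h.row P hP _ _ _ hm
  by_cases ht : p (!δ) l y ∈ s
  · obtain ⟨z, hz, -, hzP, e⟩ := hs.at ht
    have lat : ∀ y', y' ≠ y → z = p (!δ) l y' → False := by
      intro y' n k
      refine ih δ l y' h1 le_rfl ⟨fr, ?_, Or.inl fun m => (Finset.mem_sdiff.1 m).2 (by simp [e, k])⟩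
      simp only [Finset.mem_sdiff, Finset.mem_insert, Finset.mem_singleton, not_or, e, k]
      refine ⟨⟨hs' y' (k ▸ (Finset.mem_sdiff.1 hzP).1), fun m => n (h.inj _ _ _ _ _ m).2,
        fun m => ?_⟩, h.ne δ _ _ _ _ (by omega) (by omega) (by omega) (by omega),
        h.ne δ _ _ _ _ (by omega) (by omega) (by omega) (by omega)⟩
      have := h.inj _ _ _ _ _ m
      omega
    rcases h.nb _ _ _ _ hz with k | k | k | k
    · rw [e, k]
    · exact absurd (by simp [e, k]) (Finset.mem_sdiff.1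
        (fr (!δ) (l - 1) y (by omega) (by omega) yb.1 yb.2)).2
    · exact (lat _ (by omega) k).elim
    · exact (lat _ (by omega) k).elim
  · refine (ih (!δ) l y h1 le_rfl ⟨fr, ?_, Or.inl fun m => ?_⟩).elim
    · simp only [Finset.mem_sdiff, Finset.mem_insert, Finset.mem_singleton, not_or]
      exact ⟨⟨hm, (h.ne δ _ _ _ _ (by omega) (by omega) (by omega) (by omega)).symm,
        (h.ne δ _ _ _ _ (by omega) h2 (by omega) (by omega)).symm⟩, ht⟩
    · rw [Bool.not_not] at m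
      exact (Finset.mem_sdiff.1 (Finset.mem_sdiff.1 m).1).2 (by simp)

theorem HS.run (h : HS S p b Λ) (n : ℕ) :
    ∀ P ∈ S, ∀ δ μ y, 1 ≤ μ → μ ≤ Λ → μ ≤ n + 1 → ¬ Bad p b P δ μ y := by
  have top : ∀ P ∈ S, ∀ δ y, ¬ Bad p b P δ 1 y := fun P hP δ y ⟨f, m, k⟩ => by
    have := h.L2
    have yb := h.row P hP _ _ _ m
    rcases k with k | k
    · exact k (h.tm P hP δ 1 y 0 y (by simp [Adj]) (by omega) le_rfl le_rfl (by omega) m
        (f δ 0 y le_rfl (by omega) yb.1 yb.2))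
    · exact h.ne δ 1 y 1 y (by omega) (by omega) (by omega) (by omega) k.symm
  induction n with
  | zero =>
    intro P hP δ μ y h1 _ h3
    obtain rfl : μ = 1 := by omega
    exact top P hP δ y
  | succ n ih =>
    intro P hP δ μ y h1 h2 h3
    rcases h1.eq_or_lt with rfl | h1'
    · exact top P hP δ y
    obtain ⟨l, rfl⟩ : ∃ l, μ = l + 1 := ⟨μ - 1, by omega⟩
    rintro ⟨f, m, k⟩
    have yb := h.row P hP _ _ _ m
    obtain ⟨s, hs, hP'⟩ := h.cl P hP _ (legal_pair ((h.adj δ l y (l + 1) y).2 (by simp [Adj]))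
      (f δ l y (by omega) (by omega) yb.1 yb.2) m)
    have e := h.reply (by omega) h2 hP (fun a c d e g => f a c d e (by omega))
      (f (!δ) l y (by omega) (by omega) yb.1 yb.2) (fun y' hy => by
        have := h.row P hP _ _ _ hy
        exact f δ l y' (by omega) (by omega) this.1 this.2) hs hP'
      fun δ' μ y' a c => ih _ hP' δ' μ y' a (by omega) (by push_cast at h3; omega)
    have z := Finset.mem_sdiff.1 (hs.1 (show p (!δ) (l + 1) y ∈ s by simp [e]))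
    rcases k with k | k
    · exact k z.1
    · exact z.2 (by simp [k])

theorem HS.sym (h : HS S p b Λ) (hP : P ∈ S) {μ : ℤ} (h1 : 1 ≤ μ) (h2 : μ ≤ Λ)
    (hf : Free p b P μ) {δ : Bool} {y : ℤ} (hm : p δ μ y ∈ P) :
    p (!δ) μ y ∈ P ∧ p (!δ) μ y ≠ p δ μ y := by
  by_contra hc
  exact h.run μ.toNat P hP δ μ y h1 h2 (by omega) ⟨hf, hm, by tauto⟩

theorem HS.forced (h : HS S p b Λ) {δ : Bool} {l y : ℤ} (h1 : 1 ≤ l) (h2 : l + 1 ≤ Λ)
    (hP : P ∈ S) (hf : Free p b P l) (hm : p δ l y ∈ P) {s : Finset C}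
    (hs : Legal (P \ {p δ l y, p δ (l + 1) y}) s) (hP' : (P \ {p δ l y, p δ (l + 1) y}) \ s ∈ S) :
    s = {p (!δ) l y, p (!δ) (l + 1) y} :=
  h.reply h1 h2 hP hf (h.sym hP h1 (by omega) hf hm).1
    (fun y' hy => by simpa using (h.sym hP h1 (by omega) hf hy).1) hs hP'
    fun δ' μ y' a c => h.run μ.toNat _ hP' δ' μ y' a (by omega) (by omega)

theorem HS.pair (h : HS S p b Λ) {l y : ℤ} (h1 : 1 ≤ l) (h2 : l + 1 ≤ Λ) (hP : P ∈ S)
    (hf : Free p b P l) (hm : p true l y ∈ P) (hm' : p true (l + 1) y ∈ P) :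
    ∃ Q ∈ S, ∀ z, z ∈ Q ↔ z ∈ P ∧ ∀ δ, z ≠ p δ l y ∧ z ≠ p δ (l + 1) y := by
  obtain ⟨s, hs, hP'⟩ := h.cl P hP _
    (legal_pair ((h.adj true l y (l + 1) y).2 (by simp [Adj])) hm hm')
  refine ⟨_, hP', fun z => ?_⟩
  rw [h.forced h1 h2 hP hf hm hs hP']
  simp only [Finset.mem_sdiff, Finset.mem_insert, Finset.mem_singleton, not_or, Bool.not_true,
    Bool.forall_bool]
  tauto

theorem dead (cl : ∀ P ∈ S, ∀ d, Legal P d → ∃ s, Legal (P \ d) s ∧ (P \ d) \ s ∈ S) (n : ℕ) :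
    ∀ X ∈ S, ∀ Y ∈ S, ∀ d, X.card ≤ n → Legal Y d → X ⊆ Y \ d →
      (∀ s, Legal (Y \ d) s → s ⊆ X) → False := by
  induction n with
  | zero =>
    intro X _ Y hY d hn hd _ h
    obtain ⟨s, hs, -⟩ := cl Y hY d hd
    obtain ⟨u, v, -, -, -, rfl⟩ := legal_iff.1 hs
    have := h _ hs (Finset.mem_insert_self _ _)
    rw [Finset.card_eq_zero.1 (Nat.le_zero.1 hn)] at this
    simp at this
  | succ n ih =>
    intro X hX Y hY d hn hd h0 h
    obtain ⟨s, hs, hY'⟩ := cl Y hY d hd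
    obtain ⟨s', hs', hX'⟩ := cl X hX s ⟨h s hs, hs.2⟩
    refine ih _ hX' _ hY' s' ?_ ⟨hs'.1.trans (Finset.sdiff_subset_sdiff h0 subset_rfl), hs'.2⟩
      (Finset.sdiff_subset_sdiff (Finset.sdiff_subset_sdiff h0 subset_rfl) subset_rfl)
      fun t ht => ?_
    · obtain ⟨u, v, -, hu, -, rfl⟩ := legal_iff.1 hs'
      have : ((X \ s) \ {u, v}).card < X.card := Finset.card_lt_card
        ⟨Finset.sdiff_subset.trans Finset.sdiff_subset, fun k => by
          simpa using k (Finset.mem_sdiff.1 hu).1⟩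
      omega
    · have k1 := Finset.subset_sdiff.1 ht.1
      have k2 := Finset.subset_sdiff.1 k1.1
      exact Finset.subset_sdiff.2 ⟨Finset.subset_sdiff.2 ⟨h t ⟨k2.1, ht.2⟩, k2.2⟩, k1.2⟩

theorem HS.todd (h : HS S p b Λ) (h4 : 4 ≤ Λ) (hP : P ∈ S) (hf : Free p b P (Λ + 1))
    (ha : Adj (p true Λ 0) (p false Λ 0))
    (hn : ∀ y y', p true Λ y ≠ p false Λ y') : False := by
  have b1 := h.b1
  have lev : ∀ {δ δ' : Bool} {l y l' y' : ℤ}, 0 ≤ l → l ≤ Λ → 0 ≤ l' → l' ≤ Λ →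
      p δ l y = p δ' l' y' → l = l' ∧ y = y' := by
    intro δ δ' l y l' y' a c d e k
    rcases e.eq_or_lt with rfl | e
    · rcases c.eq_or_lt with rfl | c
      · cases δ <;> cases δ'
        exacts [h.inj _ _ _ _ _ k, absurd k.symm (hn _ _), absurd k (hn _ _), h.inj _ _ _ _ _ k]
      · have := h.lev d le_rfl a c k.symm; omega
    · exact (h.lev a c d e k).2
  have nn : ∀ {δ : Bool} {l y l' y' : ℤ}, 0 ≤ l → l ≤ Λ → 0 ≤ l' → l' + 1 ≤ Λ →
      (y ≠ y' ∨ (l ≠ l' ∧ l ≠ l' + 1)) → ∀ δ', p δ l y ≠ p δ' l' y' ∧ p δ l y ≠ p δ' (l' + 1) y' :=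
    fun a c d e f δ' => ⟨fun k => by have := lev a c d (by omega) k; omega,
      fun k => by have := lev a c (by omega) e k; omega⟩
  obtain ⟨l, rfl⟩ : ∃ l, Λ = l + 1 + 1 + 1 := ⟨Λ - 3, by omega⟩
  obtain ⟨P1, s1, e1⟩ := h.pair (l := l + 1 + 1) (y := 1) (by omega) le_rfl hP
    (fun a c d e g => hf a c d e (by omega))
    (hf _ _ _ (by omega) (by omega) (by omega) (by omega))
    (hf _ _ _ (by omega) (by omega) (by omega) (by omega))
  have m1 : ∀ δ l' y, 0 ≤ l' → l' ≤ l + 1 + 1 + 1 → -b ≤ y → y ≤ b → (y ≠ 1 ∨ l' < l + 1 + 1) →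
      p δ l' y ∈ P1 := fun δ l' y a c d e f => (e1 _).2
    ⟨hf _ _ _ a (by omega) d e, nn a c (by omega) (by omega) (by omega)⟩
  obtain ⟨P2, s2, e2⟩ := h.pair (l := l + 1 + 1) (y := -1) (by omega) le_rfl s1
    (fun a c d e g i j => m1 a c d e (by omega) i j (by omega))
    (m1 _ _ _ (by omega) (by omega) (by omega) (by omega) (by omega))
    (m1 _ _ _ (by omega) (by omega) (by omega) (by omega) (by omega))
  have m2 : ∀ δ l' y, 0 ≤ l' → l' ≤ l + 1 + 1 + 1 → -b ≤ y → y ≤ b → (y = 0 ∨ l' < l + 1 + 1) →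
      p δ l' y ∈ P2 := fun δ l' y a c d e f => (e2 _).2
    ⟨m1 _ _ _ a c d e (by omega), nn a c (by omega) (by omega) (by omega)⟩
  obtain ⟨P3, s3, e3⟩ := h.pair (l := l + 1 + 1) (y := 0) (by omega) le_rfl s2
    (fun a c d e g i j => m2 a c d e (by omega) i j (by omega))
    (m2 _ _ _ (by omega) (by omega) (by omega) (by omega) (by omega))
    (m2 _ _ _ (by omega) (by omega) (by omega) (by omega) (by omega))
  have m3 : ∀ δ l' y, 0 ≤ l' → l' < l + 1 + 1 → -b ≤ y → y ≤ b → p δ l' y ∈ P3 :=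
    fun δ l' y a c d e => (e3 _).2 ⟨m2 _ _ _ a (by omega) d e (by omega),
      nn a (by omega) (by omega) (by omega) (by omega)⟩
  obtain ⟨X, sX, eX⟩ := h.pair (l := l) (y := 0) (by omega) (by omega) s3
    (fun a c d e g i j => m3 a c d e (by omega) i j)
    (m3 _ _ _ (by omega) (by omega) (by omega) (by omega))
    (m3 _ _ _ (by omega) (by omega) (by omega) (by omega))
  obtain ⟨Y, sY, eY⟩ := h.pair (l := l) (y := 0) (by omega) (by omega) s2
    (fun a c d e g i j => m2 a c d e (by omega) i j (by omega))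
    (m2 _ _ _ (by omega) (by omega) (by omega) (by omega) (by omega))
    (m2 _ _ _ (by omega) (by omega) (by omega) (by omega) (by omega))
  have cY : ∀ δ, p δ (l + 1 + 1 + 1) 0 ∈ Y := fun δ => (eY _).2
    ⟨m2 _ _ _ (by omega) (by omega) (by omega) (by omega) (by omega),
      nn (by omega) (by omega) (by omega) (by omega) (by omega)⟩
  refine dead h.cl X.card X sX Y sY _ le_rfl (legal_pair ha (cY true) (cY false))
    (fun z hz => ?_) fun s hs z hz => ?_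
  · have k := (eX z).1 hz
    have k' := (e3 z).1 k.1
    simp only [Finset.mem_sdiff, Finset.mem_insert, Finset.mem_singleton, not_or]
    exact ⟨(eY z).2 ⟨k'.1, k.2⟩, (k'.2 true).2, (k'.2 false).2⟩
  · obtain ⟨q, hq, hz', hq', -⟩ := hs.at hz
    simp only [Finset.mem_sdiff, Finset.mem_insert, Finset.mem_singleton, not_or] at hz' hq'
    have k := (eY z).1 hz'.1
    have k1 := (eY q).1 hq'.1
    have k2 := (e2 q).1 k1.1
    have k3 := (e1 q).1 k2.1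
    refine (eX z).2 ⟨(e3 z).2 ⟨k.1, fun δ => ⟨?_, by cases δ; exacts [hz'.2.2, hz'.2.1]⟩⟩, k.2⟩
    rintro rfl
    rcases h.nb _ _ _ _ hq with m | m | m | m
    · cases δ; exacts [hq'.2.2 m, hq'.2.1 m]
    · exact (k1.2 δ).2 (by simpa using m)
    · exact (k3.2 δ).1 (by simpa using m)
    · exact (k2.2 δ).1 (by simpa using m)

end Pool.Agent.P.MP_c5202f_co
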