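import Pool.Agent.P.MP_c5202f_co.Thin
import Pool.Agent.P.MP_c5202f_co.Half

/-! In a paired position every long run of empty columns has a partner. -/

namespace Pool.Agent.P.MP_c5202f_co

def CF (F : Finset C) (b x : ℤ) : Prop := ∀ y, -b ≤ y → y ≤ b → (x, y) ∈ F

def qq (c c' ε η : ℤ) : Bool → ℤ → ℤ → C
  | true, i, y => (c + i, y)
  | false, i, y => (c' + ε * i, η * y)

structure Loc (S : Set (Finset C)) (F : Finset C) (b c c' ε η : ℤ) : Prop where
  b1 : 1 ≤ b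
  he : ε = 1 ∨ ε = -1
  hh : η = 1 ∨ η = -1
  mem : F ∈ S
  row : ∀ P ∈ S, ∀ u ∈ P, -b ≤ u.2 ∧ u.2 ≤ b
  cl : ∀ P ∈ S, ∀ d, Legal P d → ∃ s, Legal (P \ d) s ∧ (P \ d) \ s ∈ S
  rp : ∀ P ∈ S, ∀ δ i y i' y', Adj (i, y) (i', y') → -2 ≤ i → i ≤ 2 → -2 ≤ i' → i' ≤ 2 →
    qq c c' ε η δ i y ∈ P → qq c c' ε η δ i' y' ∈ P →
    Legal (P \ {qq c c' ε η δ i y, qq c c' ε η δ i' y'})
      {qq c c' ε η (!δ) i y, qq c c' ε η (!δ) i' y'} ∧
    (P \ {qq c c' ε η δ i y, qq c c' ε η δ i' y'}) \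
      {qq c c' ε η (!δ) i y, qq c c' ε η (!δ) i' y'} ∈ S
  fr : ∀ δ i y, -2 ≤ i → i ≤ 2 → -b ≤ y → y ≤ b → qq c c' ε η δ i y ∈ F

variable {S : Set (Finset C)} {F : Finset C} {b c c' ε η : ℤ}

theorem Loc.hs (h : Loc S F b c c' ε η) {β θ n Λ : ℤ} (hβ : β = 1 ∨ β = -1) (hθ : θ = 1 ∨ θ = -1)
    (e : c' = c + β * θ * n) (n0 : 1 < n) (h2 : 2 ≤ Λ) (k1 : ε = 1 → Λ + 1 ≤ n)
    (k2 : ε = -1 → θ = 1 → 2 * Λ ≤ n) : HS S (fun δ l y => qq c c' ε η δ (β * l) y) b Λ := by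
  have he := h.he
  have hh := h.hh
  refine ⟨h.b1, h2, h.cl, ?_, ?_, ?_, ?_, ?_, ?_, ?_⟩
  · intro δ l y l' y'
    rcases hβ with rfl | rfl <;> rcases he with rfl | rfl <;> rcases hh with rfl | rfl <;>
      cases δ <;> simp only [qq, adj_mk] <;> omega
  · intro δ l y z hz
    rcases hβ with rfl | rfl <;> rcases he with rfl | rfl <;> rcases hh with rfl | rfl <;>
      cases δ <;> rcases hz.cases with rfl | rfl | rfl | rfl <;>
      simp only [qq, Prod.ext_iff, true_and, and_true, true_or, or_true] <;> omega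
  · intro δ l y l' y'
    rcases hβ with rfl | rfl <;> rcases he with rfl | rfl <;> rcases hh with rfl | rfl <;>
      cases δ <;> simp only [qq, Prod.ext_iff] <;> omega
  · intro δ l y l' y' a1 a2 a3 a4 k
    have := congrArg Prod.fst k
    rcases hβ with rfl | rfl <;> rcases he with rfl | rfl <;> rcases hθ with rfl | rfl <;>
      cases δ <;> simp only [qq, Bool.not_true, Bool.not_false] at this <;> omega
  · intro δ l y l' y' a1 a2 a3 a4 k
    have : ∀ u v : C, Adj u v → u.1 ≤ v.1 + 1 ∧ v.1 ≤ u.1 + 1 := fun u v k => by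
      unfold Adj at k; omega
    have := this _ _ k
    rcases hβ with rfl | rfl <;> rcases he with rfl | rfl <;> rcases hθ with rfl | rfl <;>
      cases δ <;> simp only [qq, Bool.not_true, Bool.not_false] at this <;> omega
  · intro P hP δ l y k
    have := h.row P hP _ k
    rcases hh with rfl | rfl <;> cases δ <;> simp only [qq] at this <;> omega
  · intro P hP δ l y l' y' a h1 h2 h3 h4 m1 m2
    refine (Finset.mem_sdiff.1 ((h.rp P hP δ (β * l) y (β * l') y' ?_ ?_ ?_ ?_ ?_ m1 m2).1.1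
      (Finset.mem_insert_self _ _))).1 <;>
    rcases hβ with rfl | rfl <;> simp only [adj_mk] at a ⊢ <;> omega

theorem Loc.dir (h : Loc S F b c c' ε η) {β θ n ρ : ℤ} (hβ : β = 1 ∨ β = -1)
    (hθ : θ = 1 ∨ θ = -1) (e : c' = c + β * θ * n) (n9 : 9 ≤ n) (r0 : 0 ≤ ρ)
    (f : ∀ l, 0 ≤ l → l < ρ → CF F b (c + β * l)) (g : ¬ CF F b (c + β * ρ)) :
    (∀ l, 0 ≤ l → l < ρ → CF F b (c' + ε * (β * l))) ∧ (θ = 1 → ρ < n) ∧
    ∀ y, ((c + β * ρ, y) ∈ F ↔ (c' + ε * (β * ρ), η * y) ∈ F) ∧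
      ((c + β * ρ, y) ∈ F → (c' + ε * (β * ρ), η * y) ≠ (c + β * ρ, y)) := by
  have b1 := h.b1
  obtain ⟨μ, ⟨m0, m1⟩, m2⟩ := Int.exists_least_of_bdd
    (P := fun l => 0 ≤ l ∧ ¬ ∀ δ y, -b ≤ y → y ≤ b → qq c c' ε η δ (β * l) y ∈ F)
    ⟨0, fun z hz => hz.1⟩ ⟨ρ, r0, fun k => g (k true)⟩
  have fr : ∀ ν, ν ≤ μ → Free (fun δ l y => qq c c' ε η δ (β * l) y) b F ν := by
    intro ν hν δ l y a1 a2 a3 a4
    by_contra k
    have := m2 l ⟨a1, fun k' => k (k' δ y a3 a4)⟩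
    omega
  have m3 : 3 ≤ μ := by
    by_contra k
    refine m1 fun δ y a1 a2 => h.fr δ _ y ?_ ?_ a1 a2 <;> rcases hβ with rfl | rfl <;> omega
  have ok : (ε = 1 → μ + 1 ≤ n) ∧ (ε = -1 → θ = 1 → 2 * μ ≤ n) := by
    refine ⟨fun he => ?_, fun he ht => ?_⟩ <;> by_contra k
    · have H := h.hs (Λ := n - 1) hβ hθ e (by omega) (by omega) (by omega) (by omega)
      obtain ⟨δ, hδ⟩ : ∃ δ : Bool, (θ = 1 ∧ δ = true) ∨ (θ = -1 ∧ δ = false) := by
        rcases hθ with rfl | rfl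
        exacts [⟨true, by simp⟩, ⟨false, by simp⟩]
      have e1 : qq c c' ε η δ (β * (n - 2)) 0 = qq c c' ε η (!δ) (β * -2) 0 := by
        rcases hβ with rfl | rfl <;> rcases hδ with ⟨rfl, rfl⟩ | ⟨rfl, rfl⟩ <;>
          simp only [qq, he, Bool.not_true, Bool.not_false, Prod.ext_iff] <;> omega
      have e2 : qq c c' ε η δ (β * (n - 2 + 1)) 0 = qq c c' ε η (!δ) (β * -1) 0 := by
        rcases hβ with rfl | rfl <;> rcases hδ with ⟨rfl, rfl⟩ | ⟨rfl, rfl⟩ <;>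
          simp only [qq, he, Bool.not_true, Bool.not_false, Prod.ext_iff] <;> omega
      have a1 := fr μ le_rfl δ (n - 2) 0 (by omega) (by omega) (by omega) (by omega)
      have a2 := fr μ le_rfl δ (n - 2 + 1) 0 (by omega) (by omega) (by omega) (by omega)
      have R := h.rp F h.mem (!δ) (β * -2) 0 (β * -1) 0 (adj_mk.2 (by omega)) (by omega)
        (by omega) (by omega) (by omega) (e1 ▸ a1) (e2 ▸ a2)
      rw [← e1, ← e2] at R
      have q := H.forced (l := n - 2) (by omega) (by omega) h.mem (fr _ (by omega)) a1 R.1 R.2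
      have := q ▸ Finset.mem_insert_self (qq c c' ε η (!!δ) (β * -2) 0) _
      simp only [Finset.mem_insert, Finset.mem_singleton, Prod.ext_iff] at this
      rcases hβ with rfl | rfl <;> rcases hδ with ⟨rfl, rfl⟩ | ⟨rfl, rfl⟩ <;>
        simp only [qq, he, Bool.not_true, Bool.not_false] at this <;> omega
    · have H := h.hs (Λ := n / 2) hβ hθ e (by omega) (by omega) (by omega) (by omega)
      rcases Int.emod_two_eq_zero_or_one n with k' | k'
      · refine (H.sym h.mem (μ := n / 2) (by omega) le_rfl (fr _ (by omega))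
          (fr μ le_rfl true (n / 2) 0 (by omega) (by omega) (by omega) (by omega))).2 ?_
        rcases hβ with rfl | rfl <;> simp only [qq, he, ht, Bool.not_true, Prod.ext_iff] at e ⊢ <;>
          omega
      · refine H.todd (by omega) h.mem (fr _ (by omega)) ?_ fun y y' k => ?_
        · rcases hβ with rfl | rfl <;> simp only [qq, he, ht, adj_mk] at e ⊢ <;> omega
        · have := congrArg Prod.fst k
          rcases hβ with rfl | rfl <;> simp only [qq, he, ht] at e this <;> omega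
  have H := h.hs hβ hθ e (by omega) (by omega) ok.1 ok.2
  have sy := fun δ y => H.sym h.mem (μ := μ) (by omega) le_rfl (fr _ le_rfl) (δ := δ) (y := y)
  obtain rfl : μ = ρ := by
    have := m2 ρ ⟨r0, fun k => g (k true)⟩
    by_contra k
    refine m1 fun δ y a1 a2 => ?_
    have := f μ m0 (by omega) y a1 a2
    cases δ
    exacts [(sy true y this).1, this]
  refine ⟨fun l a1 a2 y a3 a4 => ?_, fun k => by have := h.he; omega,
    fun y => ⟨⟨fun k => (sy true y k).1, fun k => (sy false y k).1⟩, fun k => (sy true y k).2⟩⟩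
  rcases h.hh with rfl | rfl
  · simpa [qq] using fr μ le_rfl false l y a1 a2 a3 a4
  · simpa [qq] using fr μ le_rfl false l (-y) a1 a2 (by omega) (by omega)

theorem bandM (B : Finset ℤ) (c : ℤ) {M : ℤ} (hM : 0 < M) {n : ℕ} (h : B.card ≤ n) :
    ∃ i : ℤ, 0 ≤ i ∧ i ≤ n ∧ ∀ z ∈ B, z < c + M * i ∨ c + M * i + M ≤ z := by
  obtain ⟨i, h1, h2⟩ := Finset.exists_mem_notMem_of_card_lt_card
    (s := B.image fun z => (z - c) / M) (t := Finset.Icc (0 : ℤ) n)
    (by have := Finset.card_image_le (s := B) (f := fun z => (z - c) / M); simp; omega)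
  rw [Finset.mem_Icc] at h1
  refine ⟨i, h1.1, h1.2, fun z hz => ?_⟩
  by_contra k
  refine h2 (Finset.mem_image.2 ⟨z, hz, ?_⟩)
  rw [Int.ediv_eq_iff_of_pos hM]
  constructor <;> nlinarith [not_or.1 k]

def Gap (K : ℤ → Prop) (x z : ℤ) : Prop := x < z ∧ K x ∧ K z ∧ ∀ i, x < i → i < z → ¬ K i

theorem Paired.loc {w : ℕ} (hp : Paired w F) (b1 : 1 ≤ b) (row : ∀ u ∈ F, -b ≤ u.2 ∧ u.2 ≤ b)
    {x z : ℤ} (hL : (2 * b + 33) * (w + 1) < z - x) (f : ∀ i, x < i → i < z → CF F b i) :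
    ∃ S c c' ε η, x < c ∧ c < z ∧ (c' + 9 ≤ c ∨ c + 9 ≤ c') ∧ Loc S F b c c' ε η := by
  obtain ⟨W, r, S, w1, -, hS, cl⟩ := hp
  have leg : ∀ {P d : Finset C}, Legal (P \ W) d → Legal P d ∧ Disjoint d W := fun h =>
    ⟨⟨h.1.trans Finset.sdiff_subset, h.2⟩, (Finset.subset_sdiff.1 h.1).2⟩
  have rep : Rep (F \ W) r := by
    constructor
    · intro d hd
      obtain ⟨s, hs, -, e⟩ := cl F hS d (leg hd).1
      obtain ⟨rfl, e⟩ := e (leg hd).2
      have := Finset.subset_sdiff.1 hs.1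
      exact ⟨⟨Finset.subset_sdiff.2 ⟨this.1, e⟩, hs.2⟩, this.2.symm⟩
    · intro e d he hd h1 h2
      obtain ⟨s, -, hP, k⟩ := cl F hS e (leg he).1
      obtain ⟨rfl, -⟩ := k (leg he).2
      obtain ⟨s, hs, -, k⟩ := cl _ hP d ⟨Finset.subset_sdiff.2
        ⟨Finset.subset_sdiff.2 ⟨(leg hd).1.1, h1⟩, h2⟩, hd.2⟩
      obtain ⟨rfl, -⟩ := k (leg hd).2
      have := Finset.subset_sdiff.1 (Finset.subset_sdiff.1 hs.1).1
      exact ⟨(Finset.subset_sdiff.1 this.1).2, this.2⟩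
  obtain ⟨i, i0, i1, bi⟩ := bandM (W.image Prod.fst) (x + 1) (M := 2 * b + 33) (by omega) w1
  have i2 : 0 ≤ (2 * b + 33) * i := by positivity
  have i3 : (2 * b + 33) * i + (2 * b + 33) ≤ (2 * b + 33) * (w + 1) := by nlinarith
  generalize (2 * b + 33) * i = j at *
  generalize (2 * b + 33) * ((w : ℤ) + 1) = j' at *
  have B : Blk (F \ W) b (x + 1 + j + (b + 16) - (b + 16)) (x + 1 + j + (b + 16) + (b + 16)) :=
    ⟨b1, fun u hu => row u (Finset.mem_sdiff.1 hu).1, fun u a1 a2 a3 a4 => Finset.mem_sdiff.2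
      ⟨f u.1 (by omega) (by omega) u.2 a3 a4, fun k => by
        have := bi _ (Finset.mem_image_of_mem _ k); omega⟩⟩
  obtain ⟨c', ε, η, he, hh, far, T⟩ := B.loc rep
  set c := x + 1 + j + (b + 16) with hc
  have fr : ∀ δ i y, -2 ≤ i → i ≤ 2 → -b ≤ y → y ≤ b → qq c c' ε η δ i y ∈ F \ W := by
    intro δ i y a1 a2 a3 a4
    cases δ
    · by_cases k : i = 2
      · exact (T i y (i - 1) y (adj_mk.2 (by omega)) a1 a2 (by omega) (by omega) a3 a4 a3 a4).2.2
      · exact (T i y (i + 1) y (adj_mk.2 (by omega)) a1 a2 (by omega) (by omega) a3 a4 a3 a4).2.2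
    · exact B.fr _ (by simp only [qq]; omega) (by simp only [qq]; omega) a3 a4
  refine ⟨{P | P ∈ S ∧ P ⊆ F}, c, c', ε, η, by omega, by omega, far, b1, he, hh,
    ⟨hS, subset_rfl⟩, fun P hP u hu => row u (hP.2 hu), fun P hP d hd => ?_, ?_,
    fun δ i y a1 a2 a3 a4 => (Finset.mem_sdiff.1 (fr δ i y a1 a2 a3 a4)).1⟩
  · obtain ⟨s, hs, k, -⟩ := cl P hP.1 d hd
    exact ⟨s, hs, k, Finset.sdiff_subset.trans (Finset.sdiff_subset.trans hP.2)⟩
  · intro P hP δ i y i' y' a a1 a2 a3 a4 m1 m2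
    have r1 := row _ (hP.2 m1)
    have r2 := row _ (hP.2 m2)
    have yb : (-b ≤ y ∧ y ≤ b) ∧ -b ≤ y' ∧ y' ≤ b := by
      rcases hh with rfl | rfl <;> cases δ <;> simp only [qq] at r1 r2 <;> omega
    have ad : Adj (qq c c' ε η δ i y) (qq c c' ε η δ i' y') := by
      rcases he with rfl | rfl <;> rcases hh with rfl | rfl <;> cases δ <;>
        simp only [qq, adj_mk] at a ⊢ <;> omega
    obtain ⟨s, hs, k, k'⟩ := cl P hP.1 _ (legal_pair ad m1 m2)
    obtain ⟨rfl, -⟩ := k' (by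
      simp only [Finset.disjoint_insert_left, Finset.disjoint_singleton_left]
      exact ⟨(Finset.mem_sdiff.1 (fr δ i y a1 a2 yb.1.1 yb.1.2)).2,
        (Finset.mem_sdiff.1 (fr δ i' y' a3 a4 yb.2.1 yb.2.2)).2⟩)
    have t := T i y i' y' a a1 a2 a3 a4 yb.1.1 yb.1.2 yb.2.1 yb.2.2
    have : r {qq c c' ε η δ i y, qq c c' ε η δ i' y'} =
        {qq c c' ε η (!δ) i y, qq c c' ε η (!δ) i' y'} := by
      cases δ
      exacts [t.2.1, t.1]
    rw [this] at hs k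
    exact ⟨hs, k, Finset.sdiff_subset.trans (Finset.sdiff_subset.trans hP.2)⟩

theorem Paired.partner {w : ℕ} (hp : Paired w F) (b1 : 1 ≤ b) (row : ∀ u ∈ F, -b ≤ u.2 ∧ u.2 ≤ b)
    {x z : ℤ} (hL : (2 * b + 33) * (w + 1) < z - x) (g : Gap (fun i => ¬ CF F b i) x z) :
    (∃ x' z', Gap (fun i => ¬ CF F b i) x' z' ∧ z' - x' = z - x ∧ x' ≠ x) ∧
    ∃ z' η, (η = 1 ∨ η = -1) ∧ ∀ y, ((z, y) ∈ F ↔ (z', η * y) ∈ F) ∧
      ((z, y) ∈ F → (z', η * y) ≠ (z, y)) := by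
  have f : ∀ i, x < i → i < z → CF F b i := fun i a c => not_not.1 (g.2.2.2 i a c)
  obtain ⟨S, c, c', ε, η, h1, h2, far, h⟩ := hp.loc b1 row hL f
  obtain ⟨θ, n, hθ, n9, e⟩ : ∃ θ n : ℤ, (θ = 1 ∨ θ = -1) ∧ 9 ≤ n ∧ c' = c + 1 * θ * n := by
    rcases far with k | k
    exacts [⟨-1, c - c', by omega, by omega, by ring⟩, ⟨1, c' - c, by omega, by omega, by ring⟩]
  obtain ⟨A1, A2, A3⟩ := h.dir (ρ := z - c) (Or.inl rfl) hθ e n9 (by omega)
    (fun l a1 a2 => f _ (by omega) (by omega)) (by simpa using g.2.2.1)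
  obtain ⟨B1, B2, B3⟩ := h.dir (β := -1) (θ := -θ) (ρ := c - x) (Or.inr rfl) (by omega)
    (by rw [e]; ring) n9 (by omega) (fun l a1 a2 => f _ (by omega) (by omega))
    (by simpa using g.2.1)
  have tr : ∀ {p p' : ℤ}, (∀ y, ((p, y) ∈ F ↔ (p', η * y) ∈ F) ∧ ((p, y) ∈ F → (p', η * y) ≠ (p, y))) →
      ¬ CF F b p → ¬ CF F b p' := fun k n k' => n fun y a1 a2 => (k y).1.2 (k' _
        (by rcases h.hh with rfl | rfl <;> omega) (by rcases h.hh with rfl | rfl <;> omega))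
  have nA := tr A3 (by simpa using g.2.2.1)
  have nB := tr B3 (by simpa using g.2.1)
  refine ⟨?_, _, η, h.hh, by simpa using A3⟩
  have side : ∀ x', Gap (fun i => ¬ CF F b i) x' (x' + (z - x)) → x' < c' → c' < x' + (z - x) →
      ∃ x' z', Gap (fun i => ¬ CF F b i) x' z' ∧ z' - x' = z - x ∧ x' ≠ x := fun x' k a1 a2 =>
    ⟨x', _, k, by omega, by rcases hθ with rfl | rfl <;> omega⟩
  rcases h.he with rfl | rfl
  · refine side (c' - (c - x)) ⟨by omega, ?_, ?_, fun i a1 a2 k => k ?_⟩ (by omega) (by omega)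
    · exact (show c' + 1 * (-1 * (c - x)) = c' - (c - x) by ring) ▸ nB
    · exact (show c' + 1 * (1 * (z - c)) = c' - (c - x) + (z - x) by ring) ▸ nA
    · rcases le_total c' i with m | m
      · simpa using A1 (i - c') (by omega) (by omega)
      · simpa using B1 (c' - i) (by omega) (by omega)
  · refine side (c' - (z - c)) ⟨by omega, ?_, ?_, fun i a1 a2 k => k ?_⟩ (by omega) (by omega)
    · exact (show c' + -1 * (1 * (z - c)) = c' - (z - c) by ring) ▸ nA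
    · exact (show c' + -1 * (-1 * (c - x)) = c' - (z - c) + (z - x) by ring) ▸ nB
    · rcases le_total c' i with m | m
      · simpa using B1 (i - c') (by omega) (by omega)
      · simpa using A1 (c' - i) (by omega) (by omega)

end Pool.Agent.P.MP_c5202f_co
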