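import Pool.Agent.P.MP_c5202f_co.Defs

/-! A memoryless reply function induces an involution of the squares. -/

namespace Pool.Agent.P.MP_c5202f_co

abbrev C := ℤ × ℤ

def Adj (u v : C) : Prop :=
  (u.1 = v.1 ∧ (u.2 = v.2 + 1 ∨ v.2 = u.2 + 1)) ∨ (u.2 = v.2 ∧ (u.1 = v.1 + 1 ∨ v.1 = u.1 + 1))

theorem Adj.symm {u v : C} (h : Adj u v) : Adj v u := by unfold Adj at *; omega

theorem cext {u v : C} (h1 : u.1 = v.1) (h2 : u.2 = v.2) : u = v := Prod.ext h1 h2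

theorem ne_iff {u v : C} : u ≠ v ↔ u.1 ≠ v.1 ∨ u.2 ≠ v.2 := by
  rw [Ne, Prod.ext_iff, not_and_or]

theorem Adj.cases {u v : C} (h : Adj u v) :
    v = (u.1 + 1, u.2) ∨ v = (u.1 - 1, u.2) ∨ v = (u.1, u.2 + 1) ∨ v = (u.1, u.2 - 1) := by
  simp only [Prod.ext_iff, Adj] at *
  omega

theorem dis {s t : Finset C} (h : Disjoint s t) (a : C) (h1 : a ∈ s) (h2 : a ∈ t) : False :=
  Finset.disjoint_left.1 h h1 h2

theorem legal_iff {F d : Finset C} :
    Legal F d ↔ ∃ u v, Adj u v ∧ u ∈ F ∧ v ∈ F ∧ d = {u, v} := by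
  constructor
  · rintro ⟨hs, x, y, rfl | rfl⟩
    · exact ⟨_, _, by simp [Adj], hs (by simp), hs (by simp), rfl⟩
    · exact ⟨_, _, by simp [Adj], hs (by simp), hs (by simp), rfl⟩
  · rintro ⟨⟨u1, u2⟩, ⟨v1, v2⟩, h, hu, hv, rfl⟩
    refine ⟨by intro z hz; simp only [Finset.mem_insert, Finset.mem_singleton] at hz
               rcases hz with rfl | rfl <;> assumption, ?_⟩
    simp only [Adj] at h
    rcases h with ⟨rfl, rfl | rfl⟩ | ⟨rfl, rfl | rfl⟩
    · exact ⟨u1, v2, Or.inr (Finset.pair_comm _ _)⟩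
    · exact ⟨u1, u2, Or.inr rfl⟩
    · exact ⟨v1, u2, Or.inl (Finset.pair_comm _ _)⟩
    · exact ⟨u1, u2, Or.inl rfl⟩

theorem legal_pair {F : Finset C} {u v : C} (h : Adj u v) (hu : u ∈ F) (hv : v ∈ F) :
    Legal F {u, v} := legal_iff.2 ⟨u, v, h, hu, hv, rfl⟩

theorem Legal.at {F d : Finset C} (h : Legal F d) {w : C} (hw : w ∈ d) :
    ∃ b, Adj w b ∧ w ∈ F ∧ b ∈ F ∧ d = {w, b} := by
  obtain ⟨u, v, huv, hu, hv, rfl⟩ := legal_iff.1 h
  simp only [Finset.mem_insert, Finset.mem_singleton] at hw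
  rcases hw with rfl | rfl
  · exact ⟨v, huv, hu, hv, rfl⟩
  · exact ⟨u, huv.symm, hv, hu, Finset.pair_comm _ _⟩

theorem Legal.par {F d : Finset C} (h : Legal F d) {b z z' : C} (hz : z ∈ d) (hz' : z' ∈ d)
    (h1 : Adj b z) (h2 : Adj b z') : z = z' := by
  obtain ⟨c, hc, -, -, rfl⟩ := h.at hz
  simp only [Finset.mem_insert, Finset.mem_singleton] at hz'
  rcases hz' with rfl | rfl
  · rfl
  · exfalso; unfold Adj at *; omega

/-- the replies are legal in the first two rounds -/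
structure Rep (F : Finset C) (r : Finset C → Finset C) : Prop where
  one : ∀ d, Legal F d → Legal F (r d) ∧ Disjoint d (r d)
  two : ∀ e d, Legal F e → Legal F d → Disjoint d e → Disjoint d (r e) →
    Disjoint (r d) e ∧ Disjoint (r d) (r e)

/-- at most one neighbour is not empty -/
def Deg3 (F : Finset C) (b : C) : Prop :=
  ∀ z z', Adj b z → Adj b z' → z ∉ F → z' ∉ F → z = z'

variable {F : Finset C} {r : Finset C → Finset C}

theorem Deg3.pick {b : C} (h : Deg3 F b) (w : C) {g : Finset C} (hg : Legal F g) :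
    ∃ z, Adj b z ∧ z ∈ F ∧ z ≠ w ∧ z ∉ g := by
  by_contra hc
  have key : ∀ z, Adj b z → z ∉ F ∨ z = w ∨ z ∈ g := fun z hz => by
    by_contra h'
    push Not at h'
    exact hc ⟨z, hz, h'.1, h'.2.1, h'.2.2⟩
  have a1 : Adj b (b.1 + 1, b.2) := by simp [Adj]
  have a2 : Adj b (b.1 - 1, b.2) := by simp [Adj]
  have a3 : Adj b (b.1, b.2 + 1) := by simp [Adj]
  have a4 : Adj b (b.1, b.2 - 1) := by simp [Adj]
  have two : ∀ z z', Adj b z → Adj b z' → z ≠ z' →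
      ¬ (z ∉ F ∧ z' ∉ F) ∧ ¬ (z = w ∧ z' = w) ∧ ¬ (z ∈ g ∧ z' ∈ g) := fun z z' hz hz' hne =>
    ⟨fun hh => hne (h z z' hz hz' hh.1 hh.2), fun hh => hne (hh.1.trans hh.2.symm),
      fun hh => hne (hg.par hh.1 hh.2 hz hz')⟩
  have t12 := two _ _ a1 a2 (by rw [ne_iff]; simp only; omega)
  have t13 := two _ _ a1 a3 (by rw [ne_iff]; simp only; omega)
  have t14 := two _ _ a1 a4 (by rw [ne_iff]; simp only; omega)
  have t23 := two _ _ a2 a3 (by rw [ne_iff]; simp only; omega)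
  have t24 := two _ _ a2 a4 (by rw [ne_iff]; simp only; omega)
  have t34 := two _ _ a3 a4 (by rw [ne_iff]; simp only; omega)
  have k1 := key _ a1
  have k2 := key _ a2
  have k3 := key _ a3
  have k4 := key _ a4
  rcases k1 with k1 | k1 | k1 <;> rcases k2 with k2 | k2 | k2 <;> rcases k3 with k3 | k3 | k3 <;>
    rcases k4 with k4 | k4 | k4 <;>
    first
    | exact t12.1 ⟨k1, k2⟩ | exact t12.2.1 ⟨k1, k2⟩ | exact t12.2.2 ⟨k1, k2⟩
    | exact t13.1 ⟨k1, k3⟩ | exact t13.2.1 ⟨k1, k3⟩ | exact t13.2.2 ⟨k1, k3⟩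
    | exact t14.1 ⟨k1, k4⟩ | exact t14.2.1 ⟨k1, k4⟩ | exact t14.2.2 ⟨k1, k4⟩
    | exact t23.1 ⟨k2, k3⟩ | exact t23.2.1 ⟨k2, k3⟩ | exact t23.2.2 ⟨k2, k3⟩
    | exact t24.1 ⟨k2, k4⟩ | exact t24.2.1 ⟨k2, k4⟩ | exact t24.2.2 ⟨k2, k4⟩
    | exact t34.1 ⟨k3, k4⟩ | exact t34.2.1 ⟨k3, k4⟩ | exact t34.2.2 ⟨k3, k4⟩

theorem Rep.rr (h : Rep F r) {d : Finset C} (hd : Legal F d)
    (h3 : ∀ w ∈ d, ∀ b, Adj w b → b ∈ F → Deg3 F b) : r (r d) = d := by
  obtain ⟨hg, hdg⟩ := h.one d hd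
  obtain ⟨hh, hgh⟩ := h.one _ hg
  have hm : ¬ Disjoint d (r (r d)) := fun hc => by
    have := (h.two _ _ hg hd hdg hc).1
    obtain ⟨u, v, -, -, -, e⟩ := legal_iff.1 hg
    exact dis this u (by simp [e]) (by simp [e])
  obtain ⟨w, hw, hw'⟩ := Finset.not_disjoint_iff.1 hm
  obtain ⟨b, hwb, -, hb, e⟩ := hh.at hw'
  obtain ⟨c, hwc, -, -, e'⟩ := hd.at hw
  by_cases hbc : b = c
  · rw [e, hbc, ← e']
  exfalso
  obtain ⟨z, hbz, hz, hzw, hzg⟩ := (h3 w hw b hwb hb).pick w hg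
  have hx : Legal F {b, z} := legal_pair hbz hb hz
  have hbg : b ∉ r d := fun hc => Finset.disjoint_left.1 hgh hc (by simp [e])
  have d1 : Disjoint ({b, z} : Finset C) d := by
    rw [e']
    simp only [Finset.disjoint_insert_left, Finset.disjoint_singleton_left, Finset.mem_insert,
      Finset.mem_singleton, not_or]
    refine ⟨⟨?_, hbc⟩, hzw, ?_⟩
    · rintro rfl; unfold Adj at hwb; omega
    · rintro rfl; unfold Adj at *; omega
  have d2 : Disjoint ({b, z} : Finset C) (r d) := by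
    simp only [Finset.disjoint_insert_left, Finset.disjoint_singleton_left]
    exact ⟨hbg, hzg⟩
  have k := h.two _ _ hd hx d1 d2
  have k' := (h.two _ _ hx hg d2.symm k.2.symm).1
  exact dis k' b (by simp [e]) (by simp)

/-- squares whose four dominoes are legal and fixed by `r ∘ r` -/
def Good (F : Finset C) (r : Finset C → Finset C) (v : C) : Prop :=
  v ∈ F ∧ ∀ w, Adj v w → w ∈ F ∧ r (r {v, w}) = {v, w}

theorem Good.leg {v w : C} (hv : Good F r v) (hw : Adj v w) : Legal F {v, w} :=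
  legal_pair hw hv.1 (hv.2 w hw).1

theorem Good.inj {v w w' : C} (hv : Good F r v) (hw : Adj v w) (hw' : Adj v w')
    (e : r {v, w} = r {v, w'}) : w = w' := by
  have e' : ({v, w} : Finset C) = {v, w'} := by rw [← (hv.2 w hw).2, e, (hv.2 w' hw').2]
  have : w ∈ ({v, w'} : Finset C) := by rw [← e']; simp
  simp only [Finset.mem_insert, Finset.mem_singleton] at this
  rcases this with rfl | rfl
  · exfalso; unfold Adj at hw; omega
  · rfl

theorem Rep.meet (h : Rep F r) {v w w' : C} (hv : Good F r v) (hw : Adj v w) (hw' : Adj v w') :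
    w' ∈ r {v, w} ∨ ∃ p, p ∈ r {v, w} ∧ p ∈ r {v, w'} := by
  by_contra hc
  push Not at hc
  obtain ⟨hg, hdg⟩ := h.one _ (hv.leg hw)
  have d1 : Disjoint (r {v, w}) {v, w'} := by
    simp only [Finset.disjoint_insert_right, Finset.disjoint_singleton_right]
    exact ⟨fun hh => Finset.disjoint_left.1 hdg (by simp) hh, hc.1⟩
  have k := (h.two _ _ (hv.leg hw') hg d1 (Finset.disjoint_left.2 hc.2)).1
  rw [(hv.2 w hw).2] at k
  exact dis k v (by simp) (by simp)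

theorem others {v w1 w2 : C} (h1 : Adj v w1) (h2 : Adj v w2) (hne : w1 ≠ w2) :
    ∃ w3 w4, Adj v w3 ∧ Adj v w4 ∧ w3 ≠ w1 ∧ w3 ≠ w2 ∧ w4 ≠ w1 ∧ w4 ≠ w2 ∧ w3 ≠ w4 := by
  by_cases hs : w1.1 + w2.1 = 2 * v.1 ∧ w1.2 + w2.2 = 2 * v.2
  · refine ⟨(v.1 + (w1.2 - v.2), v.2 + (w1.1 - v.1)), (v.1 - (w1.2 - v.2), v.2 - (w1.1 - v.1)),
      ?_, ?_, ?_, ?_, ?_, ?_, ?_⟩ <;>
    rcases h1.cases with rfl | rfl | rfl | rfl <;> rcases h2.cases with rfl | rfl | rfl | rfl <;>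
    simp only [ne_iff, Adj] at hs hne ⊢ <;> omega
  · refine ⟨(2 * v.1 - w1.1, 2 * v.2 - w1.2), (2 * v.1 - w2.1, 2 * v.2 - w2.2),
      ?_, ?_, ?_, ?_, ?_, ?_, ?_⟩ <;>
    rcases h1.cases with rfl | rfl | rfl | rfl <;> rcases h2.cases with rfl | rfl | rfl | rfl <;>
    simp only [ne_iff, Adj] at hs hne ⊢ <;> omega

theorem three {v a b w1 w2 : C} (hne : w1 ≠ w2) (hav : a ≠ v) (hbv : b ≠ v) (hab : a ≠ b)
    (h1 : Adj v w1) (h2 : Adj v w2) (ha : Adj w2 a) (hb : Adj w1 b) (x : Adj w2 b)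
    (y : Adj a w1) : False := by
  rcases h1.cases with rfl | rfl | rfl | rfl <;> rcases h2.cases with rfl | rfl | rfl | rfl <;>
    rcases ha.cases with rfl | rfl | rfl | rfl <;> rcases hb.cases with rfl | rfl | rfl | rfl <;>
    simp only [ne_iff, Adj] at hne hav hbv hab x y <;> omega

theorem Rep.meet' (h : Rep F r) {v w1 w2 : C} (hv : Good F r v) (h1 : Adj v w1) (h2 : Adj v w2) :
    ∃ p, p ∈ r {v, w1} ∧ p ∈ r {v, w2} := by
  by_contra hc
  have hc' : ¬ ∃ p, p ∈ r {v, w2} ∧ p ∈ r {v, w1} := fun ⟨p, a, b⟩ => hc ⟨p, b, a⟩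
  have l1 := h.one _ (hv.leg h1)
  have l2 := h.one _ (hv.leg h2)
  have m1 := (h.meet hv h1 h2).resolve_right hc
  have m2 := (h.meet hv h2 h1).resolve_right hc'
  have hne : w1 ≠ w2 := by
    rintro rfl
    exact hc ⟨_, m1, m1⟩
  obtain ⟨a, ha, -, -, ea⟩ := l1.1.at m1
  obtain ⟨b, hb, -, -, eb⟩ := l2.1.at m2
  have hav : a ≠ v := by
    rintro rfl
    exact dis l1.2 a (by simp) (by simp [ea])
  have hbv : b ≠ v := by
    rintro rfl
    exact dis l2.2 b (by simp) (by simp [eb])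
  have hab : a ≠ b := by
    rintro rfl
    exact hc ⟨a, by simp [ea], by simp [eb]⟩
  have key : ∀ w, Adj v w → w ≠ w1 → w ≠ w2 →
      (Adj w2 b ∧ r {v, w} = {w2, b}) ∨ (Adj a w1 ∧ r {v, w} = {a, w1}) := by
    intro w hw n1 n2
    obtain ⟨p, p1, p2⟩ := (h.meet hv h1 hw).resolve_left fun hh => n2 (l1.1.par hh m1 hw h2)
    obtain ⟨q, q1, q2⟩ := (h.meet hv h2 hw).resolve_left fun hh => n1 (l2.1.par hh m2 hw h1)
    have hpq : p ≠ q := by
      rintro rfl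
      exact hc ⟨p, p1, q1⟩
    obtain ⟨c, hpc, -, -, e⟩ := (h.one _ (hv.leg hw)).1.at p2
    rw [e] at q2
    rw [ea] at p1
    rw [eb] at q1
    simp only [Finset.mem_insert, Finset.mem_singleton] at p1 q1 q2
    obtain rfl : q = c := q2.resolve_left hpq.symm
    rcases p1 with rfl | rfl <;> rcases q1 with rfl | rfl
    · exfalso; unfold Adj at *; omega
    · exact Or.inl ⟨hpc, e⟩
    · exact Or.inr ⟨hpc, e⟩
    · exfalso; unfold Adj at *; omega
  obtain ⟨w3, w4, a3, a4, n31, n32, n41, n42, n34⟩ := others h1 h2 hne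
  have fin : Adj w2 b → Adj a w1 → False := by
    intro x y
    exact three hne hav hbv hab h1 h2 ha hb x y
  rcases key w3 a3 n31 n32 with k3 | k3 <;> rcases key w4 a4 n41 n42 with k4 | k4
  · exact n34 (hv.inj a3 a4 (k3.2.trans k4.2.symm))
  · exact fin k3.1 k4.1
  · exact fin k4.1 k3.1
  · exact n34 (hv.inj a3 a4 (k3.2.trans k4.2.symm))

theorem Legal.eq_pair {d : Finset C} (h : Legal F d) {p q : C} (hp : p ∈ d) (hq : q ∈ d)
    (hne : p ≠ q) : Adj p q ∧ d = {p, q} := by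
  obtain ⟨c, hc, -, -, rfl⟩ := h.at hp
  simp only [Finset.mem_insert, Finset.mem_singleton] at hq
  obtain rfl : q = c := hq.resolve_left hne.symm
  exact ⟨hc, rfl⟩

theorem Rep.uniq (h : Rep F r) {v w w' p q : C} (hv : Good F r v) (hw : Adj v w) (hw' : Adj v w')
    (hne : w ≠ w') (p1 : p ∈ r {v, w}) (p2 : p ∈ r {v, w'}) (q1 : q ∈ r {v, w})
    (q2 : q ∈ r {v, w'}) : p = q := by
  by_contra hc
  exact hne (hv.inj hw hw' (((h.one _ (hv.leg hw)).1.eq_pair p1 q1 hc).2.trans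
    ((h.one _ (hv.leg hw')).1.eq_pair p2 q2 hc).2.symm))

theorem Rep.common (h : Rep F r) {v : C} (hv : Good F r v) :
    ∃ p, ∀ w, Adj v w → p ∈ r {v, w} := by
  have a1 : Adj v (v.1 + 1, v.2) := by simp [Adj]
  have a2 : Adj v (v.1 - 1, v.2) := by simp [Adj]
  have n12 : ((v.1 + 1, v.2) : C) ≠ (v.1 - 1, v.2) := by rw [ne_iff]; simp only; omega
  obtain ⟨p, p1, p2⟩ := h.meet' hv a1 a2
  refine ⟨p, fun w hw => ?_⟩
  by_contra hc
  obtain ⟨x, x1, x2⟩ := h.meet' hv a1 hw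
  obtain ⟨y, y1, y2⟩ := h.meet' hv a2 hw
  have hx : p ≠ x := fun e => hc (e ▸ x2)
  have hy : p ≠ y := fun e => hc (e ▸ y2)
  have ex := (h.one _ (hv.leg a1)).1.eq_pair p1 x1 hx
  have ey := (h.one _ (hv.leg a2)).1.eq_pair p2 y1 hy
  have := (h.one _ (hv.leg hw)).1.par x2 y2 ex.1 ey.1
  subst this
  exact n12 (hv.inj a1 a2 (ex.2.trans ey.2.symm))

/-- an involution without fixed point of a set of squares that preserves adjacency -/
structure Inv (G : C → Prop) (σ : C → C) : Prop where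
  mem : ∀ v, G v → G (σ v)
  inv : ∀ v, G v → σ (σ v) = v
  ne : ∀ v, G v → σ v ≠ v
  adj : ∀ u v, G u → G v → Adj u v → Adj (σ u) (σ v)

theorem four {p q q1 q2 q3 q4 : C} (h : Adj p q) (h1 : Adj p q1) (h2 : Adj p q2) (h3 : Adj p q3)
    (h4 : Adj p q4) (n12 : q1 ≠ q2) (n13 : q1 ≠ q3) (n14 : q1 ≠ q4) (n23 : q2 ≠ q3)
    (n24 : q2 ≠ q4) (n34 : q3 ≠ q4) : q = q1 ∨ q = q2 ∨ q = q3 ∨ q = q4 := by
  rcases h.cases with rfl | rfl | rfl | rfl <;> rcases h1.cases with rfl | rfl | rfl | rfl <;>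
    rcases h2.cases with rfl | rfl | rfl | rfl <;> rcases h3.cases with rfl | rfl | rfl | rfl <;>
    rcases h4.cases with rfl | rfl | rfl | rfl <;>
    first
    | exact Or.inl rfl | exact Or.inr (Or.inl rfl) | exact Or.inr (Or.inr (Or.inl rfl))
    | exact Or.inr (Or.inr (Or.inr rfl)) | exact absurd rfl n12 | exact absurd rfl n13
    | exact absurd rfl n14 | exact absurd rfl n23 | exact absurd rfl n24 | exact absurd rfl n34

theorem Rep.exists_inv (h : Rep F r) : ∃ σ, Inv (Good F r) σ ∧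
    ∀ u v, Good F r u → Good F r v → Adj u v → r {u, v} = {σ u, σ v} := by
  classical
  have h0 : ∀ v, ∃ p, Good F r v → ∀ w, Adj v w → p ∈ r {v, w} := fun v => by
    by_cases hv : Good F r v
    · exact (h.common hv).imp fun p hp _ => hp
    · exact ⟨v, fun hh => absurd hh hv⟩
  choose σ hσ using h0
  have sur : ∀ v, Good F r v → σ v ∈ F ∧
      ∀ q, Adj (σ v) q → q ∈ F ∧ ∃ w, Adj v w ∧ r {v, w} = {σ v, q} := by
    intro v hv
    have k : ∀ w, Adj v w → ∃ b, Adj (σ v) b ∧ σ v ∈ F ∧ b ∈ F ∧ r {v, w} = {σ v, b} :=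
      fun w hw => (h.one _ (hv.leg hw)).1.at (hσ v hv w hw)
    have a1 : Adj v (v.1 + 1, v.2) := by simp [Adj]
    have a2 : Adj v (v.1 - 1, v.2) := by simp [Adj]
    obtain ⟨w3, w4, a3, a4, n31, n32, n41, n42, n34⟩ :=
      others a1 a2 (by rw [ne_iff]; simp only; omega)
    obtain ⟨q1, b1, hp, c1, e1⟩ := k _ a1
    obtain ⟨q2, b2, -, c2, e2⟩ := k _ a2
    obtain ⟨q3, b3, -, c3, e3⟩ := k _ a3
    obtain ⟨q4, b4, -, c4, e4⟩ := k _ a4
    have n : ∀ {w w' q q' : C}, Adj v w → Adj v w' → w ≠ w' → r {v, w} = {σ v, q} →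
        r {v, w'} = {σ v, q'} → q ≠ q' := fun x y z e e' hq =>
      z (hv.inj x y (by rw [e, e', hq]))
    refine ⟨hp, fun q hq => ?_⟩
    rcases four hq b1 b2 b3 b4 (n a1 a2 (by rw [ne_iff]; simp only; omega) e1 e2)
      (n a1 a3 n31.symm e1 e3) (n a1 a4 n41.symm e1 e4) (n a2 a3 n32.symm e2 e3)
      (n a2 a4 n42.symm e2 e4) (n a3 a4 n34 e3 e4) with rfl | rfl | rfl | rfl
    exacts [⟨c1, _, a1, e1⟩, ⟨c2, _, a2, e2⟩, ⟨c3, _, a3, e3⟩, ⟨c4, _, a4, e4⟩]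
  have mem : ∀ v, Good F r v → Good F r (σ v) := fun v hv =>
    ⟨(sur v hv).1, fun q hq => by
      obtain ⟨c, w, hw, e⟩ := (sur v hv).2 q hq
      exact ⟨c, by rw [← e, (hv.2 w hw).2]⟩⟩
  have inv : ∀ v, Good F r v → σ (σ v) = v := by
    intro v hv
    have k : ∀ q, Adj (σ v) q → v ∈ r {σ v, q} := fun q hq => by
      obtain ⟨-, w, hw, e⟩ := (sur v hv).2 q hq
      rw [← e, (hv.2 w hw).2]; simp
    have a1 : Adj (σ v) ((σ v).1 + 1, (σ v).2) := by simp [Adj]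
    have a2 : Adj (σ v) ((σ v).1 - 1, (σ v).2) := by simp [Adj]
    exact h.uniq (mem v hv) a1 a2 (by rw [ne_iff]; simp only; omega) (hσ _ (mem v hv) _ a1)
      (hσ _ (mem v hv) _ a2) (k _ a1) (k _ a2)
  have pr : ∀ u v, Good F r u → Good F r v → Adj u v →
      Adj (σ u) (σ v) ∧ r {u, v} = {σ u, σ v} := by
    intro u v hu hv huv
    refine (h.one _ (hu.leg huv)).1.eq_pair (hσ u hu v huv) ?_ fun e => ?_
    · rw [Finset.pair_comm]; exact hσ v hv u huv.symm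
    · have : u = v := by rw [← inv u hu, e, inv v hv]
      subst this
      unfold Adj at huv; omega
  refine ⟨σ, ⟨mem, inv, fun v hv e => ?_, fun u v hu hv huv => (pr u v hu hv huv).1⟩,
    fun u v hu hv huv => (pr u v hu hv huv).2⟩
  have a1 : Adj v (v.1 + 1, v.2) := by simp [Adj]
  have := hσ v hv _ a1
  rw [e] at this
  exact Finset.disjoint_left.1 (h.one _ (hv.leg a1)).2 (by simp) this

end Pool.Agent.P.MP_c5202f_co
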