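import Pool.Agent.P.MP_c5202f_co.Geo

/-! On a long block of empty columns the replies are given by an isometry of the strip. -/

namespace Pool.Agent.P.MP_c5202f_co

theorem adj_mk {x y x' y' : ℤ} : Adj (x, y) (x', y') ↔
    (x = x' ∧ (y = y' + 1 ∨ y' = y + 1)) ∨ (y = y' ∧ (x = x' + 1 ∨ x' = x + 1)) := Iff.rfl

structure Blk (F : Finset C) (b x1 x2 : ℤ) : Prop where
  b1 : 1 ≤ b
  row : ∀ u ∈ F, -b ≤ u.2 ∧ u.2 ≤ b
  fr : ∀ u : C, x1 ≤ u.1 → u.1 ≤ x2 → -b ≤ u.2 → u.2 ≤ b → u ∈ F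

variable {F : Finset C} {r : Finset C → Finset C} {b x1 x2 : ℤ}

theorem Blk.rr (B : Blk F b x1 x2) (h : Rep F r) {u v : C} (ha : Adj u v) (hu : u ∈ F)
    (hv : v ∈ F) (h1 : x1 + 3 ≤ u.1) (h2 : u.1 + 3 ≤ x2) : r (r {u, v}) = {u, v} := by
  refine h.rr (legal_pair ha hu hv) fun w hw c hc hcF z z' a1 a2 n1 n2 => ?_
  have b1 := B.b1
  have hcb := B.row c hcF
  have near : x1 + 1 ≤ c.1 ∧ c.1 + 1 ≤ x2 := by
    simp only [Finset.mem_insert, Finset.mem_singleton] at hw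
    rcases hw with rfl | rfl <;> simp only [Adj] at hc ha <;> omega
  have off : ∀ z, Adj c z → z ∉ F → ¬ (-b ≤ z.2 ∧ z.2 ≤ b) := fun z hz hn hb => by
    simp only [Adj] at hz
    exact hn (B.fr z (by omega) (by omega) hb.1 hb.2)
  have o1 := off z a1 n1
  have o2 := off z' a2 n2
  clear hc off ha
  rcases a1.cases with rfl | rfl | rfl | rfl <;> rcases a2.cases with rfl | rfl | rfl | rfl <;>
    first | rfl | (exfalso; simp only at o1 o2; omega)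

theorem Rep.meet2 (h : Rep F r) {v w w' : C} (hw : Adj v w) (hw' : Adj v w') (m : v ∈ F)
    (m1 : w ∈ F) (m2 : w' ∈ F) (e : r (r {v, w}) = {v, w}) :
    w' ∈ r {v, w} ∨ ∃ p, p ∈ r {v, w} ∧ p ∈ r {v, w'} := by
  by_contra hc
  push Not at hc
  obtain ⟨hg, hdg⟩ := h.one _ (legal_pair hw m m1)
  have d1 : Disjoint (r {v, w}) {v, w'} := by
    simp only [Finset.disjoint_insert_right, Finset.disjoint_singleton_right]
    exact ⟨fun hh => Finset.disjoint_left.1 hdg (by simp) hh, hc.1⟩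
  have k := (h.two _ _ (legal_pair hw' m m2) hg d1 (Finset.disjoint_left.2 hc.2)).1
  rw [e] at k
  exact dis k v (by simp) (by simp)

theorem Rep.sur (h : Rep F r) {v p q : C} (hv : Good F r v) (hp : ∀ w, Adj v w → p ∈ r {v, w})
    (hq : Adj p q) : q ∈ F := by
  have k : ∀ w, Adj v w → ∃ b, Adj p b ∧ p ∈ F ∧ b ∈ F ∧ r {v, w} = {p, b} :=
    fun w hw => (h.one _ (hv.leg hw)).1.at (hp w hw)
  have a1 : Adj v (v.1 + 1, v.2) := by simp [Adj]
  have a2 : Adj v (v.1 - 1, v.2) := by simp [Adj]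
  obtain ⟨w3, w4, a3, a4, n31, n32, n41, n42, n34⟩ :=
    others a1 a2 (by rw [ne_iff]; simp only; omega)
  obtain ⟨q1, b1, -, c1, e1⟩ := k _ a1
  obtain ⟨q2, b2, -, c2, e2⟩ := k _ a2
  obtain ⟨q3, b3, -, c3, e3⟩ := k _ a3
  obtain ⟨q4, b4, -, c4, e4⟩ := k _ a4
  have n : ∀ {w w' q q' : C}, Adj v w → Adj v w' → w ≠ w' → r {v, w} = {p, q} →
      r {v, w'} = {p, q'} → q ≠ q' := fun x y z e e' hq =>
    z (hv.inj x y (by rw [e, e', hq]))
  rcases four hq b1 b2 b3 b4 (n a1 a2 (by rw [ne_iff]; simp only; omega) e1 e2)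
    (n a1 a3 n31.symm e1 e3) (n a1 a4 n41.symm e1 e4) (n a2 a3 n32.symm e2 e3)
    (n a2 a4 n42.symm e2 e4) (n a3 a4 n34 e3 e4) with rfl | rfl | rfl | rfl
  exacts [c1, c2, c3, c4]

theorem tri {d1 d2 d3 : Finset C} (l1 : Legal F d1) (l2 : Legal F d2) (l3 : Legal F d3)
    (n : d1 ≠ d2) {p x y : C} (p1 : p ∈ d1) (p2 : p ∈ d2) (x1 : x ∈ d1) (x3 : x ∈ d3)
    (y2 : y ∈ d2) (y3 : y ∈ d3) : p ∈ d3 := by
  by_contra hc
  have hx : p ≠ x := fun e => hc (e ▸ x3)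
  have hy : p ≠ y := fun e => hc (e ▸ y3)
  have ex := l1.eq_pair p1 x1 hx
  have ey := l2.eq_pair p2 y2 hy
  have := l3.par x3 y3 ex.1 ey.1
  subst this
  exact n (ex.2.trans ey.2.symm)

theorem Blk.good (B : Blk F b x1 x2) (h : Rep F r) {v : C} (h1 : x1 + 3 ≤ v.1)
    (h2 : v.1 + 3 ≤ x2) (h3 : -b < v.2) (h4 : v.2 < b) : Good F r v := by
  have m := B.fr v (by omega) (by omega) (by omega) (by omega)
  refine ⟨m, fun w hw => ?_⟩
  have m' : w ∈ F := by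
    simp only [Adj] at hw
    exact B.fr w (by omega) (by omega) (by omega) (by omega)
  exact ⟨m', B.rr h hw m m' h1 h2⟩

theorem Blk.star3 (B : Blk F b x1 x2) (h : Rep F r) {x θ : ℤ} (h1 : x1 + 3 ≤ x) (h2 : x + 3 ≤ x2)
    (hθ : θ = 1 ∨ θ = -1) : ∃ p, ∀ w, Adj (x, θ * b) w → w ∈ F → p ∈ r {(x, θ * b), w} := by
  have b1 := B.b1
  have tb : θ * b = b ∨ θ * b = -b := by rcases hθ with rfl | rfl <;> simp
  have tb' : (θ = 1 ∧ θ * b = b) ∨ (θ = -1 ∧ θ * b = -b) := by rcases hθ with rfl | rfl <;> simp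
  generalize θ * b = y at *
  have mv : (x, y) ∈ F := B.fr _ (by simp only; omega) (by simp only; omega)
    (by simp only; omega) (by simp only; omega)
  have ad : Adj (x, y) (x, y - θ) := adj_mk.2 (by omega)
  have gd : Good F r (x, y - θ) := B.good h h1 h2 (by simp only; omega) (by simp only; omega)
  have ld := h.one _ (legal_pair ad mv gd.1)
  obtain ⟨t, ht⟩ := h.common gd
  have tF : (t.1, t.2 + θ) ∈ F := h.sur gd ht (adj_mk.2 (by omega))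
  have tr := B.row _ tF
  have td : t ∈ r {(x, y), (x, y - θ)} := by rw [Finset.pair_comm]; exact ht _ ad.symm
  have side : ∀ e : ℤ, e = 1 ∨ e = -1 → Adj (x, y) (x + e, y) ∧ (x + e, y) ∈ F ∧
      ∃ p, p ∈ r {(x, y), (x, y - θ)} ∧ p ∈ r {(x, y), (x + e, y)} := by
    intro e he
    have ae : Adj (x, y) (x + e, y) := adj_mk.2 (by omega)
    have me : (x + e, y) ∈ F := B.fr _ (by simp only; omega) (by simp only; omega)
      (by simp only; omega) (by simp only; omega)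
    refine ⟨ae, me, (h.meet2 ad ae mv gd.1 me (B.rr h ad mv gd.1 h1 h2)).resolve_left fun k => ?_⟩
    have k1 := (ld.1.eq_pair td k (by rw [ne_iff]; simp only at tr ⊢; omega)).1
    have k2 := B.row _ (ld.1.1 td)
    have k3 : t = (x + e, y - θ) := by
      simp only [Adj] at k1 tr
      exact cext (by simp only; omega) (by simp only; omega)
    have a3 : Adj (x, y - θ) t := by rw [k3]; exact adj_mk.2 (by omega)
    exact dis (h.one _ (gd.leg a3)).2 t (by simp) (ht t a3)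
  obtain ⟨a1, m1, p1, q1, r1⟩ := side 1 (Or.inl rfl)
  obtain ⟨a2, m2, p2, q2, r2⟩ := side (-1) (Or.inr rfl)
  have l1 := h.one _ (legal_pair a1 mv m1)
  have l2 := h.one _ (legal_pair a2 mv m2)
  have e1 := B.rr h a1 mv m1 h1 h2
  have e2 := B.rr h a2 mv m2 h1 h2
  obtain ⟨p, k1, k2⟩ : ∃ p, p ∈ r {(x, y), (x + 1, y)} ∧ p ∈ r {(x, y), (x + -1, y)} := by
    by_contra hc
    have u1 := (h.meet2 a1 a2 mv m1 m2 e1).resolve_right hc
    have u2 := (h.meet2 a2 a1 mv m2 m1 e2).resolve_right fun ⟨p, a, c⟩ => hc ⟨p, c, a⟩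
    have col : ∀ {d : Finset C} {s z : C}, Legal F d → (x, y) ∉ d → s ∈ d → z ∈ d → s.2 = y →
        (s.1 = x + 1 → x + 1 ≤ z.1) ∧ (s.1 = x - 1 → z.1 ≤ x - 1) := by
      intro d s z hd n hs hz sy
      by_cases k : s = z
      · subst k; omega
      · have k1 := (hd.eq_pair hs hz k).1
        have k2 : z ≠ (x, y) := fun e => n (e ▸ hz)
        simp only [Adj, ne_iff] at k1 k2
        omega
    have c1 := (col l1.1 (fun k => dis l1.2 _ (by simp) k) u1 r1 rfl).2 (by simp only; omega)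
    have c2 := (col l2.1 (fun k => dis l2.2 _ (by simp) k) u2 r2 rfl).1 rfl
    have := (ld.1.eq_pair q1 q2 (by rw [ne_iff]; omega)).1
    simp only [Adj] at this
    omega
  have n12 : r {(x, y), (x + 1, y)} ≠ r {(x, y), (x + -1, y)} := fun e => by
    rw [e, e2] at e1
    have : ((x + 1, y) : C) ∈ ({(x, y), (x + -1, y)} : Finset C) := by rw [e1]; simp
    simp only [Finset.mem_insert, Finset.mem_singleton, Prod.ext_iff] at this
    omega
  refine ⟨p, fun w hw hwF => ?_⟩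
  have wr := B.row _ hwF
  have : w = (x + 1, y) ∨ w = (x + -1, y) ∨ w = (x, y - θ) := by
    simp only [Adj, Prod.ext_iff] at hw ⊢
    omega
  rcases this with rfl | rfl | rfl
  exacts [k1, k2, tri l1.1 l2.1 ld.1 n12 k1 k2 r1 q1 r2 q2]

theorem Blk.star (B : Blk F b x1 x2) (h : Rep F r) {v : C} (h1 : x1 + 3 ≤ v.1)
    (h2 : v.1 + 3 ≤ x2) (h3 : -b ≤ v.2) (h4 : v.2 ≤ b) :
    ∃ p, ∀ w, Adj v w → w ∈ F → p ∈ r {v, w} := by
  obtain ⟨x, y⟩ := v
  simp only at h1 h2 h3 h4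
  rcases h4.eq_or_lt with rfl | h4
  · simpa using B.star3 h h1 h2 (Or.inl rfl)
  rcases h3.eq_or_lt with rfl | h3
  · simpa using B.star3 h h1 h2 (Or.inr rfl)
  exact (h.common (B.good h h1 h2 h3 h4)).imp fun p hp w hw _ => hp w hw

def Inn (b x1 x2 : ℤ) (v : C) : Prop := x1 ≤ v.1 ∧ v.1 ≤ x2 ∧ -b ≤ v.2 ∧ v.2 ≤ b

theorem Blk.nb3 (B : Blk F b x1 x2) {v : C} (hv : Inn b (x1 + 3) (x2 - 3) v) :
    ∃ w1 w2 w3, (Adj v w1 ∧ w1 ∈ F) ∧ (Adj v w2 ∧ w2 ∈ F) ∧ (Adj v w3 ∧ w3 ∈ F) ∧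
      w1 ≠ w2 ∧ w1 ≠ w3 ∧ w2 ≠ w3 := by
  obtain ⟨x, y⟩ := v
  have b1 := B.b1
  simp only [Inn] at hv
  obtain ⟨y', k⟩ : ∃ y', (y' = y + 1 ∨ y = y' + 1) ∧ -b ≤ y' ∧ y' ≤ b := by
    by_cases k : y = b
    exacts [⟨y - 1, by omega⟩, ⟨y + 1, by omega⟩]
  refine ⟨(x + 1, y), (x - 1, y), (x, y'), ⟨adj_mk.2 ?_, B.fr _ ?_ ?_ ?_ ?_⟩,
    ⟨adj_mk.2 ?_, B.fr _ ?_ ?_ ?_ ?_⟩, ⟨adj_mk.2 ?_, B.fr _ ?_ ?_ ?_ ?_⟩, ?_, ?_, ?_⟩ <;>
  first | omega | (simp only [ne_iff]; omega)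

theorem Blk.tau (B : Blk F b x1 x2) (h : Rep F r) : ∃ τ : C → C,
    (∀ u v, Inn b (x1 + 3) (x2 - 3) u → Inn b (x1 + 3) (x2 - 3) v → u ≠ v → τ u ≠ τ v) ∧
    (∀ u v, Inn b (x1 + 3) (x2 - 3) u → Inn b (x1 + 3) (x2 - 3) v → Adj u v →
      Adj (τ u) (τ v) ∧ r {u, v} = {τ u, τ v}) := by
  have h0 : ∀ v, ∃ p, Inn b (x1 + 3) (x2 - 3) v → ∀ w, Adj v w → w ∈ F → p ∈ r {v, w} :=
    fun v => by
      by_cases hv : Inn b (x1 + 3) (x2 - 3) v
      · exact (B.star h hv.1 (by have := hv.2.1; omega) hv.2.2.1 hv.2.2.2).imp fun p hp _ => hp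
      · exact ⟨v, fun hh => absurd hh hv⟩
  choose τ hτ using h0
  have mem : ∀ v, Inn b (x1 + 3) (x2 - 3) v → v ∈ F := fun v hv =>
    B.fr v (by have := hv.1; omega) (by have := hv.2.1; omega) hv.2.2.1 hv.2.2.2
  have inj : ∀ u v, Inn b (x1 + 3) (x2 - 3) u → Inn b (x1 + 3) (x2 - 3) v → u ≠ v → τ u ≠ τ v := by
    intro u v hu hv n e
    have k : ∀ z w, Inn b (x1 + 3) (x2 - 3) z → τ z = τ v → Adj z w ∧ w ∈ F →
        ∃ q, Adj (τ v) q ∧ r {τ v, q} = {z, w} := by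
      intro z w hz ez hw
      obtain ⟨q, a, -, -, e'⟩ := (h.one _ (legal_pair hw.1 (mem z hz) hw.2)).1.at
        (ez ▸ hτ z hz w hw.1 hw.2)
      exact ⟨q, a, by rw [← e']; exact B.rr h hw.1 (mem z hz) hw.2 hz.1 (by have := hz.2.1; omega)⟩
    obtain ⟨a1, a2, a3, c1, c2, c3, n12, n13, n23⟩ := B.nb3 hu
    obtain ⟨a4, a5, c4, c5, n45, n4, n5⟩ : ∃ w w', (Adj v w ∧ w ∈ F) ∧ (Adj v w' ∧ w' ∈ F) ∧
        w ≠ w' ∧ u ≠ w ∧ u ≠ w' := by
      obtain ⟨w1, w2, w3, d1, d2, d3, m12, m13, m23⟩ := B.nb3 hv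
      by_cases k1 : u = w1
      · exact ⟨w2, w3, d2, d3, m23, k1 ▸ m12, k1 ▸ m13⟩
      by_cases k2 : u = w2
      · exact ⟨w1, w3, d1, d3, m13, k1, k2 ▸ m23⟩
      · exact ⟨w1, w2, d1, d2, m12, k1, k2⟩
    obtain ⟨q1, b1, e1⟩ := k u a1 hu e c1
    obtain ⟨q2, b2, e2⟩ := k u a2 hu e c2
    obtain ⟨q3, b3, e3⟩ := k u a3 hu e c3
    obtain ⟨q4, b4, e4⟩ := k v a4 hv rfl c4
    obtain ⟨q5, b5, e5⟩ := k v a5 hv rfl c5
    have s1 : ∀ {z w w' q q' : C}, Adj z w → w ≠ w' → r {τ v, q} = {z, w} →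
        r {τ v, q'} = {z, w'} → q ≠ q' := by
      rintro z w w' q _ a m f f' rfl
      have : w ∈ ({z, w'} : Finset C) := by rw [← f', f]; simp
      simp only [Finset.mem_insert, Finset.mem_singleton] at this
      rcases this with rfl | rfl
      · unfold Adj at a; omega
      · exact m rfl
    have s2 : ∀ {w w' q q' : C}, u ≠ w' → r {τ v, q} = {u, w} → r {τ v, q'} = {v, w'} →
        q ≠ q' := by
      rintro w w' q _ m f f' rfl
      have : u ∈ ({v, w'} : Finset C) := by rw [← f', f]; simp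
      simp only [Finset.mem_insert, Finset.mem_singleton] at this
      exact this.elim n m
    rcases four b5 b1 b2 b3 b4 (s1 c1.1 n12 e1 e2) (s1 c1.1 n13 e1 e3) (s2 n4 e1 e4)
      (s1 c2.1 n23 e2 e3) (s2 n4 e2 e4) (s2 n4 e3 e4) with f | f | f | f
    exacts [s2 n5 e1 e5 f.symm, s2 n5 e2 e5 f.symm, s2 n5 e3 e5 f.symm, s1 c4.1 n45 e4 e5 f.symm]
  refine ⟨τ, inj, fun u v hu hv a => (h.one _ (legal_pair a (mem u hu) (mem v hv))).1.eq_pair
    (hτ u hu v a (mem v hv)) ?_ (inj u v hu hv ?_)⟩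
  · rw [Finset.pair_comm]; exact hτ v hv u a.symm (mem u hu)
  · rintro rfl; unfold Adj at a; omega

theorem opp3 {p x x' e : C} (h1 : Adj p x) (h2 : Adj p x') (h3 : Adj p e) (n1 : x ≠ x')
    (n2 : x ≠ e) (n3 : x' ≠ e) (m1 : ¬ (x.1 + e.1 = 2 * p.1 ∧ x.2 + e.2 = 2 * p.2))
    (m2 : ¬ (x'.1 + e.1 = 2 * p.1 ∧ x'.2 + e.2 = 2 * p.2)) :
    x.1 + x'.1 = 2 * p.1 ∧ x.2 + x'.2 = 2 * p.2 := by
  rcases h1.cases with rfl | rfl | rfl | rfl <;> rcases h2.cases with rfl | rfl | rfl | rfl <;>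
    rcases h3.cases with rfl | rfl | rfl | rfl <;>
    simp only [ne_iff] at n1 n2 n3 m1 m2 ⊢ <;> omega

theorem affine {τ : C → C} (b1 : 1 ≤ b) (hx : x1 + 2 * b + 2 < x2)
    (inj : ∀ u v, Inn b x1 x2 u → Inn b x1 x2 v → u ≠ v → τ u ≠ τ v)
    (adj : ∀ u v, Inn b x1 x2 u → Inn b x1 x2 v → Adj u v → Adj (τ u) (τ v))
    (bd : ∀ v, Inn b x1 x2 v → -b ≤ (τ v).2 ∧ (τ v).2 ≤ b) :
    ∃ α ε η : ℤ, (ε = 1 ∨ ε = -1) ∧ (η = 1 ∨ η = -1) ∧
      ∀ x y, x1 < x → x < x2 → -b ≤ y → y ≤ b → τ (x, y) = (α + ε * x, η * y) := by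
  have st : ∀ v x x' e c c', Inn b x1 x2 v → Inn b x1 x2 x → Inn b x1 x2 x' → Inn b x1 x2 e →
      Inn b x1 x2 c → Inn b x1 x2 c' → Adj v x → Adj v x' → Adj v e → Adj c x → Adj c e →
      Adj c' x' → Adj c' e → x ≠ x' → x ≠ e → x' ≠ e → v ≠ c → v ≠ c' →
      (τ x).1 + (τ x').1 = 2 * (τ v).1 ∧ (τ x).2 + (τ x').2 = 2 * (τ v).2 := by
    intro v x x' e c c' gv gx gx' ge gc gc' a1 a2 a3 a4 a5 a6 a7 n1 n2 n3 n4 n5
    have p1 := par4 (adj _ _ gv gx a1) (adj _ _ gv ge a3) (adj _ _ gc gx a4) (adj _ _ gc ge a5)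
      (inj _ _ gx ge n2) (inj _ _ gv gc n4)
    have p2 := par4 (adj _ _ gv gx' a2) (adj _ _ gv ge a3) (adj _ _ gc' gx' a6)
      (adj _ _ gc' ge a7) (inj _ _ gx' ge n3) (inj _ _ gv gc' n5)
    have q1 := ne_iff.1 (inj _ _ gv gc n4)
    have q2 := ne_iff.1 (inj _ _ gv gc' n5)
    exact opp3 (adj _ _ gv gx a1) (adj _ _ gv gx' a2) (adj _ _ gv ge a3) (inj _ _ gx gx' n1)
      (inj _ _ gx ge n2) (inj _ _ gx' ge n3) (by omega) (by omega)
  have row : ∀ y, y = 0 ∨ y = 1 → ∃ α β γ : ℤ, (β = 1 ∨ β = -1) ∧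
      ∀ x, x1 ≤ x → x ≤ x2 → τ (x, y) = (α + β * x, γ) := by
    intro y hy
    have s : ∀ x, x1 < x → x < x2 →
        (τ (x + 1, y)).1 + (τ (x - 1, y)).1 = 2 * (τ (x, y)).1 ∧
        (τ (x + 1, y)).2 + (τ (x - 1, y)).2 = 2 * (τ (x, y)).2 := by
      intro x h1 h2
      refine st _ _ _ (x, y - 1) (x + 1, y - 1) (x - 1, y - 1) ?_ ?_ ?_ ?_ ?_ ?_ ?_ ?_ ?_ ?_ ?_
        ?_ ?_ ?_ ?_ ?_ ?_ ?_ <;>
      first | exact adj_mk.2 (by omega) | (simp only [ne_iff, Inn]; omega)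
    obtain ⟨α, β, h1⟩ := lin (fun x => (τ (x, y)).1) x1 x2 fun x a b => (s x a b).1
    obtain ⟨γ, δ, h2⟩ := lin (fun x => (τ (x, y)).2) x1 x2 fun x a b => (s x a b).2
    have R : ∀ x, x1 ≤ x → x ≤ x2 → τ (x, y) = (α + β * x, γ + δ * x) :=
      fun x a b => cext (h1 x a b) (h2 x a b)
    have u := adj (x1, y) (x1 + 1, y) (by simp only [Inn]; omega) (by simp only [Inn]; omega)
      (adj_mk.2 (by omega))
    have k1 := bd (x1, y) (by simp only [Inn]; omega)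
    have k2 := bd (x2, y) (by simp only [Inn]; omega)
    rw [R _ (by omega) (by omega)] at u k1 k2
    rw [R _ (by omega) (by omega)] at u
    rcases unit u with ⟨rfl, rfl⟩ | ⟨rfl, rfl⟩ | ⟨rfl, rfl⟩ | ⟨rfl, rfl⟩
    · exact ⟨α, 1, γ, Or.inl rfl, by simpa using R⟩
    · exact ⟨α, -1, γ, Or.inr rfl, by simpa using R⟩
    · simp only at k1 k2; omega
    · simp only at k1 k2; omega
  obtain ⟨α, ε, γ, hε, R0⟩ := row 0 (Or.inl rfl)
  obtain ⟨α', ε', η, -, R1⟩ := row 1 (Or.inr rfl)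
  have col : ∀ x, x1 < x → x < x2 → (η = 1 ∨ η = -1) ∧
      ∀ y, -b ≤ y → y ≤ b → τ (x, y) = (α + ε * x, η * y) := by
    intro x g1 g2
    have s : ∀ y, -b < y → y < b →
        (τ (x, y + 1)).1 + (τ (x, y - 1)).1 = 2 * (τ (x, y)).1 ∧
        (τ (x, y + 1)).2 + (τ (x, y - 1)).2 = 2 * (τ (x, y)).2 := by
      intro y h1 h2
      refine st _ _ _ (x + 1, y) (x + 1, y + 1) (x + 1, y - 1) ?_ ?_ ?_ ?_ ?_ ?_ ?_ ?_ ?_ ?_ ?_
        ?_ ?_ ?_ ?_ ?_ ?_ ?_ <;>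
      first | exact adj_mk.2 (by omega) | (simp only [ne_iff, Inn]; omega)
    obtain ⟨α1, β, h1⟩ := lin (fun y => (τ (x, y)).1) (-b) b fun x a b => (s x a b).1
    obtain ⟨γ1, δ, h2⟩ := lin (fun y => (τ (x, y)).2) (-b) b fun x a b => (s x a b).2
    have K : ∀ y, -b ≤ y → y ≤ b → τ (x, y) = (α1 + β * y, γ1 + δ * y) :=
      fun x a b => cext (h1 x a b) (h2 x a b)
    have u := adj (x, 0) (x, 0 + 1) (by simp only [Inn]; omega) (by simp only [Inn]; omega)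
      (adj_mk.2 (by omega))
    have k1 := bd (x, b) (by simp only [Inn]; omega)
    have k2 := bd (x, -b) (by simp only [Inn]; omega)
    have n1 := inj (x, 1) (x + 1, 0) (by simp only [Inn]; omega) (by simp only [Inn]; omega)
      (by simp)
    have n2 := inj (x, 1) (x - 1, 0) (by simp only [Inn]; omega) (by simp only [Inn]; omega)
      (by simp)
    have e0 := (K 0 (by omega) (by omega)).symm.trans (R0 x (by omega) (by omega))
    have e1 := (K 1 (by omega) (by omega)).symm.trans (R1 x (by omega) (by omega))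
    rw [K _ (by omega) (by omega)] at u k1 k2
    rw [K _ (by omega) (by omega)] at u
    rw [K _ (by omega) (by omega), R0 _ (by omega) (by omega)] at n1 n2
    simp only [ne_iff, Prod.ext_iff] at n1 n2 e0 e1 k1 k2
    have fin : β = 0 ∧ (η = 1 ∨ η = -1) ∧ δ = η ∧ γ1 = 0 ∧ α1 = α + ε * x := by
      rcases hε with rfl | rfl <;>
        rcases unit u with ⟨rfl, rfl⟩ | ⟨rfl, rfl⟩ | ⟨rfl, rfl⟩ | ⟨rfl, rfl⟩ <;> omega
    obtain ⟨rfl, k, rfl, rfl, rfl⟩ := fin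
    exact ⟨k, by simpa using K⟩
  exact ⟨α, ε, η, hε, (col (x1 + 1) (by omega) (by omega)).1,
    fun x y a c d e => (col x a c).2 y d e⟩

/-- the local form of the replies -/
theorem Blk.loc {c : ℤ} (B : Blk F b (c - (b + 16)) (c + (b + 16))) (h : Rep F r) :
    ∃ c' ε η : ℤ, (ε = 1 ∨ ε = -1) ∧ (η = 1 ∨ η = -1) ∧ (c' + 9 ≤ c ∨ c + 9 ≤ c') ∧
      ∀ i y i' y', Adj (i, y) (i', y') → -2 ≤ i → i ≤ 2 → -2 ≤ i' → i' ≤ 2 → -b ≤ y → y ≤ b →
        -b ≤ y' → y' ≤ b → r {(c + i, y), (c + i', y')} = {(c' + ε * i, η * y), (c' + ε * i', η * y')} ∧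
        r {(c' + ε * i, η * y), (c' + ε * i', η * y')} = {(c + i, y), (c + i', y')} ∧
        (c' + ε * i, η * y) ∈ F := by
  have b1 := B.b1
  obtain ⟨τ, inj, pr⟩ := B.tau h
  have leg : ∀ u v, Inn b (c - (b + 16) + 3) (c + (b + 16) - 3) u →
      Inn b (c - (b + 16) + 3) (c + (b + 16) - 3) v → Adj u v →
      (Legal F (r {u, v}) ∧ Disjoint {u, v} (r {u, v})) ∧ r (r {u, v}) = {u, v} := by
    intro u v hu hv a
    simp only [Inn] at hu hv
    have m1 := B.fr u (by omega) (by omega) (by omega) (by omega)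
    have m2 := B.fr v (by omega) (by omega) (by omega) (by omega)
    exact ⟨h.one _ (legal_pair a m1 m2), B.rr h a m1 m2 (by omega) (by omega)⟩
  obtain ⟨α, ε, η, hε, hη, T⟩ := affine b1 (by omega) inj (fun u v a c d => (pr u v a c d).1) (by
    rintro ⟨x, y⟩ hv
    obtain ⟨x', k⟩ : ∃ x', (x' = x + 1 ∨ x = x' + 1) ∧ c - (b + 16) + 3 ≤ x' ∧
        x' ≤ c + (b + 16) - 3 := by
      simp only [Inn] at hv
      by_cases k : x ≤ c
      exacts [⟨x + 1, by omega⟩, ⟨x - 1, by omega⟩]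
    have hv' : Inn b (c - (b + 16) + 3) (c + (b + 16) - 3) (x', y) := ⟨k.2.1, k.2.2, hv.2.2⟩
    have a : Adj (x, y) (x', y) := adj_mk.2 (by omega)
    exact B.row _ ((leg _ _ hv hv' a).1.1.1 (by rw [(pr _ _ hv hv' a).2]; simp)))
  have key : ∀ x y x' y', Adj (x, y) (x', y') → c - 12 ≤ x → x ≤ c + 12 → c - 12 ≤ x' →
      x' ≤ c + 12 → -b ≤ y → y ≤ b → -b ≤ y' → y' ≤ b →
      r {(x, y), (x', y')} = {(α + ε * x, η * y), (α + ε * x', η * y')} ∧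
      r {(α + ε * x, η * y), (α + ε * x', η * y')} = {(x, y), (x', y')} ∧
      (α + ε * x, η * y) ∈ F ∧ (α + ε * x, η * y) ∉ ({(x, y), (x', y')} : Finset C) := by
    intro x y x' y' a h1 h2 h3 h4 h5 h6 h7 h8
    have u : Inn b (c - (b + 16) + 3) (c + (b + 16) - 3) (x, y) := by simp only [Inn]; omega
    have v : Inn b (c - (b + 16) + 3) (c + (b + 16) - 3) (x', y') := by simp only [Inn]; omega
    have e := (pr _ _ u v a).2
    rw [T _ _ (by omega) (by omega) h5 h6, T _ _ (by omega) (by omega) h7 h8] at e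
    have l := leg _ _ u v a
    rw [e] at l
    exact ⟨e, l.2, l.1.1.1 (by simp), fun k => dis l.1.2 _ k (by simp)⟩
  have hor : ∀ x, c - 12 ≤ x → x + 1 ≤ c + 12 →
      r {(x, 0), (x + 1, 0)} = {(α + ε * x, 0), (α + ε * (x + 1), 0)} ∧
      r {(α + ε * x, 0), (α + ε * (x + 1), 0)} = {(x, 0), (x + 1, 0)} ∧
      α + ε * x ≠ x ∧ α + ε * x ≠ x + 1 := by
    intro x h1 h2
    have := key x 0 (x + 1) 0 (adj_mk.2 (by omega)) (by omega) (by omega) (by omega) (by omega)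
      (by omega) (by omega) (by omega) (by omega)
    simp only [mul_zero, Finset.mem_insert, Finset.mem_singleton, Prod.ext_iff, and_true,
      not_or] at this
    exact ⟨this.1, this.2.1, this.2.2.2⟩
  refine ⟨α + ε * c, ε, η, hε, hη, ?_, fun i y i' y' a h1 h2 h3 h4 h5 h6 h7 h8 => ?_⟩
  · by_contra hc
    rcases hε with rfl | rfl
    · have k1 := hor c (by omega) (by omega)
      have k2 := (hor (α + c) (by omega) (by omega)).1
      simp only [one_mul, ← add_assoc] at k1 k2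
      have : ((c, 0) : C) ∈ ({(α + α + c, 0), (α + α + c + 1, 0)} : Finset C) := by
        rw [← k2, k1.2.1]; simp
      have k3 : ((c + 1, 0) : C) ∈ ({(α + α + c, 0), (α + α + c + 1, 0)} : Finset C) := by
        rw [← k2, k1.2.1]; simp
      simp only [Finset.mem_insert, Finset.mem_singleton, Prod.ext_iff] at this k3
      omega
    · have := (hor (α / 2) (by omega) (by omega)).2.2
      omega
  · have := key (c + i) y (c + i') y' (by simp only [adj_mk] at a ⊢; omega) (by omega) (by omega)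
      (by omega) (by omega) h5 h6 h7 h8
    simp only [mul_add, ← add_assoc] at this
    exact ⟨this.1, this.2.1, this.2.2.1⟩

end Pool.Agent.P.MP_c5202f_co
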